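import Pool.Agent.MP_a9857c_nt.H82.Defs

set_option autoImplicit false

open Finset Real

namespace Pool.Agent.MP_a9857c_nt.H82.Bil

/-- Cleared numerator. -/
def NN {k : ℕ} (f g : Fin k → ℕ) : ℕ := ∑ i, (∏ j ∈ univ.erase i, f j) * ∏ j, g j

theorem NN_cast {k : ℕ} (f g : Fin k → ℕ) (K : Type*) [Field K] (hf : ∀ i, (f i : K) ≠ 0) :
    (NN f g : K) = (∑ i, (f i : K)⁻¹) * ((∏ j, (f j : K)) * ∏ j, (g j : K)) := by
  unfold NN
  push_cast
  rw [sum_mul]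
  refine sum_congr rfl fun i _ => ?_
  rw [← mul_prod_erase univ (fun j => (f j : K)) (mem_univ i)]
  have := hf i
  field_simp

theorem NN_le {k M : ℕ} (hk : 1 ≤ k) (f g : Fin k → ℕ) (hf : ∀ i, f i ≤ M) (hg : ∀ i, g i ≤ M) :
    NN f g ≤ k * M ^ (2 * k - 1) := by
  refine (sum_le_card_nsmul _ _ (M ^ (2 * k - 1)) fun i _ => ?_).trans (by simp)
  refine (Nat.mul_le_mul (prod_le_pow_card _ _ M fun j _ => hf j)
    (prod_le_pow_card _ _ M fun j _ => hg j)).trans (le_of_eq ?_)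
  rw [← pow_add, card_erase_of_mem (mem_univ _), card_fin]
  congr 1
  omega

theorem rat_inj {k : ℕ} (f g : Fin k → ℕ) (hf : ∀ i, (f i).Prime) (hg : ∀ i, (g i).Prime)
    (hk : ∀ i, k < g i) (h : ∑ i, (f i : ℚ)⁻¹ = ∑ i, (g i : ℚ)⁻¹) (j : Fin k) :
    ∃ i, f i = g j := by
  by_contra hne
  push Not at hne
  set z := g j with hz
  have : Fact z.Prime := ⟨hg j⟩
  have n1 : ∀ x : ℕ, x.Prime → x ≠ z → padicNorm z (x : ℚ)⁻¹ ≤ 1 := fun x hx hxz => by
    rw [← one_div, padicNorm.div, padicNorm.one, (padicNorm.nat_eq_one_iff x).2 fun hd =>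
      hxz ((Nat.prime_dvd_prime_iff_eq (hg j) hx).1 hd).symm]
    simp
  set c := (univ.filter fun i => g i = z).card with hc
  have hz0 : (z : ℚ) ≠ 0 := by exact_mod_cast (hg j).ne_zero
  have e : (c : ℚ) = z * (∑ i, (f i : ℚ)⁻¹ - ∑ i ∈ univ.filter fun i => ¬ g i = z, (g i : ℚ)⁻¹) := by
    rw [h, ← sum_filter_add_sum_filter_not univ (fun i => g i = z), add_sub_cancel_right,
      sum_congr rfl (g := fun _ => (z : ℚ)⁻¹) fun i hi => by rw [(mem_filter.1 hi).2], sum_const,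
      nsmul_eq_mul]
    field_simp
    rfl
  have n2 : padicNorm z (c : ℚ) < 1 := by
    rw [e, padicNorm.mul]
    refine mul_lt_one_of_nonneg_of_lt_one_left (padicNorm.nonneg _)
      padicNorm.padicNorm_p_lt_one_of_prime (padicNorm.sub.trans (max_le ?_ ?_))
    · exact padicNorm.sum_le' (fun i _ => n1 _ (hf i) (hne i)) zero_le_one
    · exact padicNorm.sum_le' (fun i hi => n1 _ (hg i) (mem_filter.1 hi).2) zero_le_one
  have c1 : 0 < c := card_pos.2 ⟨j, by simp [hz]⟩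
  have c2 : c ≤ k := (card_filter_le _ _).trans (by simp)
  have := Nat.le_of_dvd c1 ((padicNorm.nat_lt_one_iff c).1 n2)
  have := hk j
  omega

theorem mod_inj {p : ℕ} [Fact p.Prime] {k : ℕ} (hk : 1 ≤ k) {X : Finset ℕ}
    (hX : ∀ x ∈ X, x.Prime ∧ k < x ∧ k * x ^ (2 * k - 1) < p) (f g : Fin k → ℕ)
    (hf : ∀ i, f i ∈ X) (hg : ∀ i, g i ∈ X)
    (h : ∑ i, (f i : ZMod p)⁻¹ = ∑ i, (g i : ZMod p)⁻¹) (j : Fin k) : ∃ i, f i = g j := by
  obtain ⟨M, hM, hmax⟩ := X.exists_max_image id ⟨_, hg j⟩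
  have nz : ∀ x ∈ X, (x : ZMod p) ≠ 0 := fun x hx h0 => by
    have h1 := Nat.le_of_dvd (hX x hx).1.pos ((ZMod.natCast_eq_zero_iff x p).1 h0)
    have h2 : x ≤ x ^ (2 * k - 1) := Nat.le_self_pow (by omega) x
    have h3 := Nat.le_mul_of_pos_left (x ^ (2 * k - 1)) (show 0 < k by omega)
    have := (hX x hx).2.2
    omega
  have e : NN f g = NN g f := by
    have h := (ZMod.natCast_eq_natCast_iff' (NN f g) (NN g f) p).1 (by
      rw [NN_cast f g _ fun i => nz _ (hf i), NN_cast g f _ fun i => nz _ (hg i), h,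
        mul_comm (∏ j, (f j : ZMod p))])
    rwa [Nat.mod_eq_of_lt ((NN_le hk f g (fun i => hmax _ (hf i)) fun i => hmax _ (hg i)).trans_lt
      (hX M hM).2.2), Nat.mod_eq_of_lt ((NN_le hk g f (fun i => hmax _ (hg i))
      fun i => hmax _ (hf i)).trans_lt (hX M hM).2.2)] at h
  have q0 : ∀ x ∈ X, (x : ℚ) ≠ 0 := fun x hx => by exact_mod_cast (hX x hx).1.ne_zero
  refine rat_inj f g (fun i => (hX _ (hf i)).1) (fun i => (hX _ (hg i)).1)
    (fun i => (hX _ (hg i)).2.1) ?_ j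
  have e' := congrArg (Nat.cast : ℕ → ℚ) e
  rw [NN_cast f g _ fun i => q0 _ (hf i), NN_cast g f _ fun i => q0 _ (hg i),
    mul_comm (∏ j, (f j : ℚ))] at e'
  exact mul_right_cancel₀ (mul_ne_zero (prod_ne_zero_iff.2 fun i _ => q0 _ (hg i))
    (prod_ne_zero_iff.2 fun i _ => q0 _ (hf i))) e'

variable {p : ℕ} [Fact p.Prime]

/-- Weighted number of representations as a sum of `k` inverses. -/
noncomputable def rr (p : ℕ) [Fact p.Prime] (k : ℕ) (X : Finset ℕ) (α : ℕ → ℂ) (t : ZMod p) : ℂ :=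
  ∑ f ∈ (Fintype.piFinset fun _ : Fin k => X).filter (fun f => ∑ i, (f i : ZMod p)⁻¹ = t),
    ∏ i, α (f i)

theorem ee_sum {ι : Type*} (s : Finset ι) (u : ι → ZMod p) :
    ee p (∑ i ∈ s, u i) = ∏ i ∈ s, ee p (u i) := by
  classical
  induction s using Finset.induction_on with
  | empty => simp [ee]
  | insert a s ha ih => rw [sum_insert ha, prod_insert ha, ← ih, ee, AddChar.map_add_eq_mul]; rfl

theorem pow_expand (k : ℕ) (X : Finset ℕ) (α : ℕ → ℂ) (c : ZMod p) :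
    (∑ x ∈ X, α x * ee p (c * (x : ZMod p)⁻¹)) ^ k = ∑ t, rr p k X α t * ee p (c * t) := by
  rw [sum_pow', ← sum_fiberwise_of_maps_to (g := fun f : Fin k → ℕ => ∑ i, (f i : ZMod p)⁻¹)
    (t := univ) fun _ _ => mem_univ _]
  refine sum_congr rfl fun t _ => ?_
  rw [rr, sum_mul]
  refine sum_congr rfl fun f hf => ?_
  rw [prod_mul_distrib, ← (mem_filter.1 hf).2, mul_sum]
  rw [ee_sum]

theorem sum_rr (k : ℕ) (X : Finset ℕ) (α : ℕ → ℂ) (u : ZMod p → ℝ) {M : ℝ}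
    (hu0 : ∀ t, 0 ≤ u t)
    (hu : ∀ f ∈ Fintype.piFinset fun _ : Fin k => X, u (∑ i, (f i : ZMod p)⁻¹) ≤ M) :
    ∑ t, ‖rr p k X α t‖ * u t ≤ (∑ x ∈ X, ‖α x‖) ^ k * M := by
  rw [sum_pow', sum_mul, ← sum_fiberwise_of_maps_to
    (g := fun f : Fin k → ℕ => ∑ i, (f i : ZMod p)⁻¹) (t := univ) fun _ _ => mem_univ _]
  refine sum_le_sum fun t _ => ?_
  refine (mul_le_mul_of_nonneg_right (norm_sum_le _ _) (hu0 t)).trans ?_
  rw [sum_mul]
  refine sum_le_sum fun f hf => ?_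
  rw [norm_prod, ← (mem_filter.1 hf).2]
  exact mul_le_mul_of_nonneg_left (hu f (mem_filter.1 hf).1) (prod_nonneg fun _ _ => norm_nonneg _)

theorem energy {k : ℕ} (hk : 1 ≤ k) {X : Finset ℕ} {α : ℕ → ℂ} {a A : ℝ} (ha : 0 ≤ a)
    (hX : ∀ x ∈ X, x.Prime ∧ k < x ∧ k * x ^ (2 * k - 1) < p ∧ ‖α x‖ ≤ a)
    (hA : ∑ x ∈ X, ‖α x‖ ≤ A) : ∑ t, ‖rr p k X α t‖ ^ 2 ≤ A ^ k * (k * a) ^ k := by
  simp only [sq]
  refine (sum_rr k X α _ (M := (k * a) ^ k) (fun _ => norm_nonneg _) fun f hf => ?_).trans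
    (by gcongr)
  refine (norm_sum_le _ _).trans ((sum_le_card_nsmul _ _ (a ^ k) fun g hg => ?_).trans ?_)
  · rw [norm_prod]
    refine (prod_le_prod (g := fun _ => a) (fun _ _ => norm_nonneg _) fun i _ =>
      (hX _ (Fintype.mem_piFinset.1 (mem_filter.1 hg).1 i)).2.2.2).trans (by simp)
  · rw [nsmul_eq_mul, mul_pow]
    gcongr
    rw [← Nat.cast_pow, Nat.cast_le]
    refine (card_le_card (t := Fintype.piFinset fun _ : Fin k => univ.image f)
      fun g hg => Fintype.mem_piFinset.2 fun j => ?_).trans ?_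
    · obtain ⟨i, hi⟩ := mod_inj hk (fun x hx => ⟨(hX x hx).1, (hX x hx).2.1, (hX x hx).2.2.1⟩) f g
        (Fintype.mem_piFinset.1 hf) (Fintype.mem_piFinset.1 (mem_filter.1 hg).1)
        (mem_filter.1 hg).2.symm j
      exact mem_image.2 ⟨i, mem_univ _, hi⟩
    · rw [Fintype.card_piFinset_const]
      exact Nat.pow_le_pow_left (card_image_le.trans (by simp)) _

theorem parseval (r : ZMod p → ℂ) {b : ZMod p} (hb : b ≠ 0) :
    ∑ t, ‖∑ s, r s * ee p (b * t * s)‖ ^ 2 = p * ∑ s, ‖r s‖ ^ 2 := by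
  have h : ∀ t, ((‖∑ s, r s * ee p (b * t * s)‖ : ℂ)) ^ 2 = ∑ s, ∑ s', r s * (starRingEnd ℂ) (r s')
      * ZMod.stdAddChar (t * (b * (s - s'))) := fun t => by
    rw [← Complex.mul_conj', map_sum, sum_mul_sum]
    refine sum_congr rfl fun s _ => sum_congr rfl fun s' _ => ?_
    rw [map_mul, ee, ee, ← AddChar.map_neg_eq_conj, mul_mul_mul_comm, ← AddChar.map_add_eq_mul]
    congr 2
    ring
  apply Complex.ofReal_injective
  push_cast
  rw [sum_congr rfl fun t _ => h t, sum_comm, mul_sum]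
  refine sum_congr rfl fun s _ => ?_
  rw [sum_comm, sum_eq_single s (fun s' _ hs => by
    rw [← mul_sum, AddChar.sum_mulShift _ (ZMod.isPrimitive_stdAddChar p),
      if_neg (mul_ne_zero hb (sub_ne_zero.2 hs.symm))]; simp) (by simp)]
  simp [Complex.mul_conj']

theorem pow_mean {ι : Type*} (s : Finset ι) (w z : ι → ℝ) (hw : ∀ i ∈ s, 0 ≤ w i)
    (hz : ∀ i ∈ s, 0 ≤ z i) {W : ℝ} (hW : ∑ i ∈ s, w i ≤ W) (n : ℕ) :
    (∑ i ∈ s, w i * z i) ^ (n + 1) ≤ W ^ n * ∑ i ∈ s, w i * z i ^ (n + 1) := by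
  have h0 := sum_nonneg hw
  have h1 : 0 ≤ ∑ i ∈ s, w i * z i ^ (n + 1) :=
    sum_nonneg fun i hi => mul_nonneg (hw i hi) (pow_nonneg (hz i hi) _)
  refine le_trans ?_ (mul_le_mul_of_nonneg_right (pow_le_pow_left₀ h0 hW n) h1)
  rcases h0.eq_or_lt with h | h
  · have := (sum_eq_zero_iff_of_nonneg hw).1 h.symm
    rw [sum_eq_zero fun i hi => by rw [this i hi, zero_mul], zero_pow (by omega)]
    positivity
  have := pow_arith_mean_le_arith_mean_pow s (fun i => w i / ∑ i ∈ s, w i) z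
    (fun i hi => div_nonneg (hw i hi) h0) (by rw [← sum_div, div_self h.ne']) hz (n + 1)
  simp only [div_mul_eq_mul_div, ← sum_div] at this
  rw [div_pow, div_le_iff₀ (by positivity)] at this
  refine this.trans (le_of_eq ?_)
  field_simp
  ring

theorem bil : BilStmt := by
  intro p _ b k l X Y α β a₀ b₀ A B hb hk hl ha₀ hb₀ hX hY hA hB
  obtain ⟨k, rfl⟩ : ∃ j, k = j + 1 := ⟨k - 1, by omega⟩
  obtain ⟨l, rfl⟩ : ∃ j, l = j + 1 := ⟨l - 1, by omega⟩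
  set G : ℕ → ℂ := fun y => ∑ x ∈ X, α x * ee p (b * (y : ZMod p)⁻¹ * (x : ZMod p)⁻¹) with hG
  have hex : ∀ y, ∃ c : ℂ, ‖c‖ = ‖β y‖ ∧ c * G y ^ (k + 1) = (‖β y‖ * ‖G y‖ ^ (k + 1) : ℝ) :=
    fun y => by
    obtain ⟨c, h1, h2⟩ := Complex.exists_norm_mul_eq_self ((starRingEnd ℂ) (G y ^ (k + 1)))
    refine ⟨‖β y‖ * c, by simp [h1], ?_⟩
    have h3 := congrArg (fun z => z * (starRingEnd ℂ) c) h2
    have h4 : c * (starRingEnd ℂ) c = 1 := by rw [Complex.mul_conj', h1]; simp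
    have h5 := congrArg (starRingEnd ℂ) h3
    simp only [map_mul, Complex.conj_conj, Complex.conj_ofReal, mul_comm] at h5
    push_cast
    rw [RCLike.norm_conj, norm_pow] at h5
    push_cast at h5
    linear_combination (‖β y‖ : ℂ) * (-h5 + (‖G y‖ : ℂ) ^ (k + 1) * h4)
  choose γ hγ1 hγ2 using hex
  set g : ZMod p → ℂ := fun t => ∑ y ∈ Y, γ y * ee p (b * t * (y : ZMod p)⁻¹) with hg
  have hA0 : 0 ≤ A := (sum_nonneg fun _ _ => norm_nonneg _).trans hA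
  have hB0 : 0 ≤ B := (sum_nonneg fun _ _ => norm_nonneg _).trans hB
  have s1 : ‖∑ x ∈ X, ∑ y ∈ Y, α x * β y * ee p (b * (x : ZMod p)⁻¹ * (y : ZMod p)⁻¹)‖ ^ (k + 1)
      ≤ B ^ k * ∑ t, ‖rr p (k + 1) X α t‖ * ‖g t‖ := by
    have e1 : ∑ x ∈ X, ∑ y ∈ Y, α x * β y * ee p (b * (x : ZMod p)⁻¹ * (y : ZMod p)⁻¹)
        = ∑ y ∈ Y, β y * G y := by
      rw [sum_comm]
      refine sum_congr rfl fun y _ => ?_
      rw [hG, mul_sum]
      exact sum_congr rfl fun x _ => by rw [mul_right_comm b]; ring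
    have e2 : ((∑ y ∈ Y, ‖β y‖ * ‖G y‖ ^ (k + 1) : ℝ) : ℂ) = ∑ t, rr p (k + 1) X α t * g t := by
      rw [Complex.ofReal_sum, sum_congr rfl fun y _ => (hγ2 y).symm]
      simp only [hG, hg, pow_expand, mul_sum]
      rw [sum_comm]
      exact sum_congr rfl fun t _ => sum_congr rfl fun y _ => by rw [mul_right_comm b]; ring
    rw [e1]
    refine (pow_le_pow_left₀ (norm_nonneg _) (norm_sum_le _ _) _).trans ?_
    simp only [norm_mul]
    refine (pow_mean Y _ _ (fun _ _ => norm_nonneg _) (fun _ _ => norm_nonneg _) hB k).trans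
      (mul_le_mul_of_nonneg_left ?_ (by positivity))
    refine (le_abs_self _).trans ?_
    rw [← Real.norm_eq_abs, ← Complex.norm_real, e2]
    exact (norm_sum_le _ _).trans (by simp only [norm_mul, le_refl])
  have s2 : (∑ t, ‖rr p (k + 1) X α t‖ * ‖g t‖) ^ (l + 1)
      ≤ (A ^ (k + 1)) ^ l * ∑ t, ‖rr p (k + 1) X α t‖ * ‖g t‖ ^ (l + 1) := by
    refine pow_mean _ _ _ (fun _ _ => norm_nonneg _) (fun _ _ => norm_nonneg _) ?_ l
    have := sum_rr (p := p) (k + 1) X α (fun _ => 1) (M := 1) (fun _ => zero_le_one)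
      fun _ _ => le_rfl
    simp only [mul_one] at this
    exact this.trans (by gcongr)
  have s3 : (∑ t, ‖rr p (k + 1) X α t‖ * ‖g t‖ ^ (l + 1)) ^ 2
      ≤ A ^ (k + 1) * ((k + 1 : ℕ) * a₀) ^ (k + 1)
        * (p * (B ^ (l + 1) * ((l + 1 : ℕ) * b₀) ^ (l + 1))) := by
    refine (sum_mul_sq_le_sq_mul_sq _ _ _).trans (mul_le_mul (energy hk ha₀ hX hA) ?_
      (sum_nonneg fun _ _ => by positivity) (by positivity))
    simp only [← norm_pow, hg, pow_expand]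
    simp only [norm_pow]
    rw [parseval _ hb]
    exact mul_le_mul_of_nonneg_left (energy hl hb₀ (fun y hy => by rw [hγ1]; exact hY y hy)
      (by simpa only [hγ1] using hB)) (by positivity)
  rw [show 2 * (k + 1) * (l + 1) - (k + 1) = (k + 1) * l * 2 + (k + 1) by
      apply Nat.sub_eq_of_eq_add; ring,
    show 2 * (k + 1) * (l + 1) - (l + 1) = k * (l + 1) * 2 + (l + 1) by
      apply Nat.sub_eq_of_eq_add; ring,
    show 2 * (k + 1) * (l + 1) = (k + 1) * (l + 1) * 2 by ring, pow_mul, pow_mul]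
  calc _ ≤ ((B ^ k * ∑ t, ‖rr p (k + 1) X α t‖ * ‖g t‖) ^ (l + 1)) ^ 2 := by gcongr
    _ ≤ ((B ^ k) ^ (l + 1) * ((A ^ (k + 1)) ^ l
          * ∑ t, ‖rr p (k + 1) X α t‖ * ‖g t‖ ^ (l + 1))) ^ 2 := by rw [mul_pow]; gcongr
    _ ≤ ((B ^ k) ^ (l + 1)) ^ 2 * (((A ^ (k + 1)) ^ l) ^ 2 * (A ^ (k + 1)
          * ((k + 1 : ℕ) * a₀) ^ (k + 1) * (p * (B ^ (l + 1) * ((l + 1 : ℕ) * b₀) ^ (l + 1))))) := by
        rw [mul_pow, mul_pow]; gcongr
    _ = _ := by ring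

end Pool.Agent.MP_a9857c_nt.H82.Bil
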