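import Mathlib

set_option autoImplicit false

open Finset Real

namespace Pool.Agent.MP_a9857c_nt.H82

/-- The sum `S(h,k)`. -/
def Shk (h k : ℕ) : ℤ := ∑ j ∈ Icc 1 (k - 1), (-1) ^ (j + 1 + h * j / k)

/-- The sum `S(k)`. -/
def S (k : ℕ) : ℤ := ∑ h ∈ Icc 1 (k - 1), Shk h k

/-- Cotangent weight, close to `1 / q`. -/
noncomputable def kk (p q : ℕ) : ℝ := π / (2 * p) / tan (π * q / (2 * p))

/-- Parity of the least residue. -/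
noncomputable def ff (p : ℕ) (x : ZMod p) : ℝ := if x = 0 then 0 else (-1) ^ x.val

/-- Odd numbers below `p`. -/
def Od (p : ℕ) : Finset ℕ := (range p).filter Odd

/-- The additive character. -/
noncomputable def ee (p : ℕ) [Fact p.Prime] (x : ZMod p) : ℂ := ZMod.stdAddChar x

/-- Inner sum. -/
noncomputable def FF (p q : ℕ) : ℝ := ∑ w ∈ Od p, kk p w * ff p ((w : ZMod p) * (q : ZMod p)⁻¹)

/-- `1 + log p`. -/
noncomputable def HH (p : ℕ) : ℝ := 1 + log p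

/-- Number of members of `P` dividing `m`. -/
def om (P : Finset ℕ) (m : ℕ) : ℕ := (P.filter (fun x => x ∣ m)).card

open Classical in
/-- Primes in the `k`-th good range. -/
noncomputable def II (p K k : ℕ) : Finset ℕ :=
  (range p).filter (fun x => x.Prime ∧ (p : ℝ) * exp (log p / (8 * K)) ≤ (x : ℝ) ^ (2 * k) ∧
    k * x ^ (2 * k - 1) < p)

def FourierStmt : Prop :=
  ∀ (p : ℕ) [Fact p.Prime], 2 < p → ∀ x : ZMod p,
    ff p x = 4 / π * ∑ v ∈ Od p, kk p v * (ee p ((v : ZMod p) * x * (2 : ZMod p)⁻¹)).im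

def IdStmt : Prop :=
  ∀ (p : ℕ) [Fact p.Prime], 2 < p →
    (S p : ℝ) = -(8 * p / π ^ 2) * ∑ q ∈ Od p, kk p q * FF p q

def MainTermStmt : Prop :=
  ∀ p y : ℕ, Odd p → 2 ≤ y → y ≤ p →
    |∑ w ∈ Od p, kk p w - log p / 2| ≤ 2 ∧
    |∑ q ∈ (Od p).filter (fun q => q ∈ Nat.smoothNumbers y), kk p q / q - π ^ 2 / 8| ≤
      2 / y + 2 * HH p / p

def PerStmt : Prop :=
  ∀ (p : ℕ) [Fact p.Prime], 2 < p → ∀ q ∈ Od p,
    |FF p q + (∑ w ∈ Od p, kk p w) / q| ≤ 3 + 2 * log q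

def SmoothStmt : Prop :=
  ∃ (C : ℝ) (d : ℕ), ∀ J N : ℕ, 1 ≤ J →
    ∑ q ∈ (range N).filter (fun q => q ∈ Nat.smoothNumbers (2 ^ J)), (1 + log q) / q ≤ C * J ^ d

open Classical in
def ConcStmt : Prop :=
  ∀ (p : ℕ) [Fact p.Prime] (r : ZMod p) (y : ℕ) (δ : ℝ), r ≠ 0 → 1 ≤ y → 0 < δ → δ ≤ 1 →
    ∑ q ∈ (Ico 1 p).filter (fun q => q ∉ Nat.smoothNumbers y ∧
        ∃ u : ℤ, |(u : ℝ)| ≤ δ * p ∧ (u : ZMod p) * (q : ZMod p) = r), (1 : ℝ) / q ≤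
      9 * HH p ^ 2 * (1 / y + δ * HH p)

def TailStmt : Prop :=
  ∀ (p : ℕ) [Fact p.Prime] (y W : ℕ) (δ : ℝ), 2 < p → 1 ≤ y → 1 ≤ W → 0 < δ → δ ≤ 1 →
    ∑ q ∈ (Od p).filter (fun q => q ∉ Nat.smoothNumbers y), kk p q * ∑ v ∈ Od p, kk p v *
        ‖∑ w ∈ (Od p).filter (fun w => W < w), (kk p w : ℂ) *
          ee p ((w : ZMod p) * ((v : ZMod p) * (q : ZMod p)⁻¹ * (2 : ZMod p)⁻¹))‖ ≤
      HH p ^ 2 / (W * δ) + 9 * HH p ^ 4 * (1 / y + δ * HH p)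

def BilStmt : Prop :=
  ∀ (p : ℕ) [Fact p.Prime] (b : ZMod p) (k l : ℕ) (X Y : Finset ℕ) (α β : ℕ → ℂ) (a₀ b₀ A B : ℝ),
    b ≠ 0 → 1 ≤ k → 1 ≤ l → 0 ≤ a₀ → 0 ≤ b₀ →
    (∀ x ∈ X, x.Prime ∧ k < x ∧ k * x ^ (2 * k - 1) < p ∧ ‖α x‖ ≤ a₀) →
    (∀ y ∈ Y, y.Prime ∧ l < y ∧ l * y ^ (2 * l - 1) < p ∧ ‖β y‖ ≤ b₀) →
    ∑ x ∈ X, ‖α x‖ ≤ A → ∑ y ∈ Y, ‖β y‖ ≤ B →
    ‖∑ x ∈ X, ∑ y ∈ Y, α x * β y * ee p (b * (x : ZMod p)⁻¹ * (y : ZMod p)⁻¹)‖ ^ (2 * k * l) ≤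
      p * (A ^ (2 * k * l - k) * (k * a₀) ^ k) * (B ^ (2 * k * l - l) * (l * b₀) ^ l)

def MainBilStmt : Prop :=
  ∀ (p : ℕ) [Fact p.Prime] (b : ZMod p) (K k l m : ℕ), b ≠ 0 → 2 ≤ K → (K : ℝ) ^ 8 ≤ log p →
    1 ≤ k → k ≤ K → 1 ≤ l → l ≤ K → 1 ≤ m →
    ‖∑ x ∈ II p K k, ∑ y ∈ II p K l, ((max (1 - (x * y * m : ℝ) / p) 0 / (x * y) : ℝ) : ℂ) *
        ee p (b * (x : ZMod p)⁻¹ * (y : ZMod p)⁻¹)‖ ≤
      HH p ^ 3 * K * exp (-(log p / (16 * (K : ℝ) ^ 3)))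

def SigmaStmt : Prop :=
  ∃ K₀ : ℕ, ∀ p K k : ℕ, K₀ ≤ K → (K : ℝ) ^ 8 ≤ log p → 1 ≤ k → k ≤ K →
    1 / (64 * (k : ℝ)) ≤ ∑ x ∈ II p K k, (1 : ℝ) / x

def ExcStmt : Prop :=
  ∀ (T : Finset ℕ) (I : ℕ → Finset ℕ) (β : ℕ → ℝ) (N : ℕ), 1 ≤ N → (∀ t ∈ T, 0 ≤ β t) →
    (∀ t ∈ T, ∀ x ∈ I t, x.Prime ∧ log x ≤ β t) → (T : Set ℕ).PairwiseDisjoint I →
    (∏ t ∈ T, (1 + ∑ x ∈ I t, (1 : ℝ) / x)) *
        ∑ q ∈ (Ico 1 N).filter (fun q => om (T.biUnion I) q = 0), (1 : ℝ) / q ≤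
      1 + log N + ∑ t ∈ T, β t

def RamStmt : Prop :=
  ∀ (P Q : Finset ℕ) (a : ℕ → ℂ) (N : ℕ), (∀ x ∈ P, x.Prime) → (∀ y ∈ Q, y.Prime) →
    Disjoint P Q → (∀ q, ‖a q‖ ≤ 1 / q) → (∀ q, N ≤ q → a q = 0) →
    ‖∑ q ∈ Ico 1 N, a q - ∑ x ∈ P, ∑ y ∈ Q, ∑ m ∈ Ico 1 N,
        a (x * y * m) / (((om P m : ℂ) + 1) * ((om Q m : ℂ) + 1))‖ ≤
      ∑ q ∈ (Ico 1 N).filter (fun q => om P q = 0), (1 : ℝ) / q +
      ∑ q ∈ (Ico 1 N).filter (fun q => om Q q = 0), (1 : ℝ) / q +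
      ((∑ x ∈ P, (1 : ℝ) / x ^ 2) * (∑ y ∈ Q, (1 : ℝ) / y) +
        (∑ x ∈ P, (1 : ℝ) / x) * (∑ y ∈ Q, (1 : ℝ) / y ^ 2)) * (1 + log N)

def KloStmt : Prop :=
  ∀ ε : ℝ, 0 < ε → ∃ p₀ : ℕ, ∀ (p : ℕ) [Fact p.Prime], p₀ ≤ p → ∀ a : ZMod p, a ≠ 0 →
    ‖∑ q ∈ Od p, ((1 / q - 1 / p : ℝ) : ℂ) * ee p (a * (q : ZMod p)⁻¹)‖ * log (log p) ^ 2 ≤
      ε * log p

/-! Basic facts. -/

theorem mem_Od {p q : ℕ} : q ∈ Od p ↔ q < p ∧ Odd q := by simp [Od]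

theorem Od_pos {p q : ℕ} (h : q ∈ Od p) : 1 ≤ q := (mem_Od.mp h).2.pos

theorem Od_subset (p : ℕ) : Od p ⊆ Ico 1 p := fun _ h =>
  mem_Ico.mpr ⟨Od_pos h, (mem_Od.mp h).1⟩

theorem norm_ee (p : ℕ) [Fact p.Prime] (x : ZMod p) : ‖ee p x‖ = 1 := by
  simp [ee, ZMod.stdAddChar]

theorem angle_mem {p q : ℕ} (h1 : 1 ≤ q) (h2 : q < p) :
    0 < π * q / (2 * p) ∧ π * q / (2 * p) < π / 2 := by
  have hq : (0 : ℝ) < q := by exact_mod_cast h1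
  have hp : (q : ℝ) < p := by exact_mod_cast h2
  have hp0 : (0 : ℝ) < p := hq.trans hp
  refine ⟨by positivity, ?_⟩
  rw [div_lt_div_iff₀ (by positivity) (by positivity)]
  nlinarith [pi_pos]

theorem kk_nonneg {p q : ℕ} (h1 : 1 ≤ q) (h2 : q < p) : 0 ≤ kk p q := by
  obtain ⟨a1, a2⟩ := angle_mem h1 h2
  have := tan_pos_of_pos_of_lt_pi_div_two a1 a2
  unfold kk
  positivity

theorem kk_le {p q : ℕ} (h1 : 1 ≤ q) (h2 : q < p) : kk p q ≤ 1 / q := by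
  obtain ⟨a1, a2⟩ := angle_mem h1 h2
  have ht := (lt_tan a1 a2).le
  have hq : (0 : ℝ) < q := by exact_mod_cast h1
  have hp : (0 : ℝ) < p := by exact_mod_cast (by omega : 0 < p)
  unfold kk
  calc π / (2 * p) / tan (π * q / (2 * p)) ≤ π / (2 * p) / (π * q / (2 * p)) :=
        div_le_div_of_nonneg_left (by positivity) a1 ht
    _ = 1 / q := by field_simp

theorem le_kk {p q : ℕ} (h1 : 1 ≤ q) (h2 : q < p) : 1 / (q : ℝ) - 2 / p ≤ kk p q := by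
  obtain ⟨a1, a2⟩ := angle_mem h1 h2
  have hq : (0 : ℝ) < q := by exact_mod_cast h1
  have hp : (0 : ℝ) < p := by exact_mod_cast (by omega : 0 < p)
  set θ := π * q / (2 * p) with hθ
  have hs : 0 < sin θ := sin_pos_of_pos_of_lt_pi a1 (by linarith [pi_pos])
  have hc : 0 < cos θ := cos_pos_of_mem_Ioo ⟨by linarith [pi_pos], a2⟩
  have h3 : sin θ ≤ θ := sin_le a1.le
  have h4 : 1 - θ ≤ cos θ := by
    have := one_sub_sq_div_two_le_cos (x := θ)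
    nlinarith [pi_lt_four]
  have e1 : kk p q = θ / sin θ * cos θ / q := by
    unfold kk
    rw [← hθ, tan_eq_sin_div_cos, hθ]
    field_simp
  have e2 : 1 ≤ θ / sin θ := (one_le_div hs).mpr h3
  have e3 : 1 - θ ≤ θ / sin θ * cos θ := by nlinarith
  have e4 : θ / q ≤ 2 / p := by
    rw [hθ, div_le_div_iff₀ hq hp]
    field_simp
    nlinarith [pi_lt_four]
  rw [e1]
  calc 1 / (q : ℝ) - 2 / p ≤ (1 - θ) / q := by rw [sub_div]; linarith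
    _ ≤ θ / sin θ * cos θ / q := div_le_div_of_nonneg_right e3 hq.le

theorem kk_anti {p q r : ℕ} (h1 : 1 ≤ q) (h2 : q ≤ r) (h3 : r < p) : kk p r ≤ kk p q := by
  obtain ⟨a1, a2⟩ := angle_mem h1 (lt_of_le_of_lt h2 h3)
  obtain ⟨b1, b2⟩ := angle_mem (h1.trans h2) h3
  have hp : (0 : ℝ) < p := by exact_mod_cast (by omega : 0 < p)
  have hqr : (q : ℝ) ≤ r := by exact_mod_cast h2
  have hle : π * q / (2 * p) ≤ π * r / (2 * p) := by gcongr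
  have ht := strictMonoOn_tan.monotoneOn ⟨by linarith [pi_pos], a2⟩ ⟨by linarith [pi_pos], b2⟩ hle
  unfold kk
  exact div_le_div_of_nonneg_left (by positivity) (tan_pos_of_pos_of_lt_pi_div_two a1 a2) ht

/-- Harmonic bound. -/
theorem sum_inv_le (N : ℕ) : ∑ q ∈ Ico 1 N, (1 : ℝ) / q ≤ 1 + log N := by
  rcases Nat.eq_zero_or_pos N with rfl | hN
  · simp
  have h := harmonic_le_one_add_log N
  rw [harmonic_eq_sum_Icc] at h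
  push_cast at h
  refine le_trans ?_ h
  simp only [one_div]
  exact sum_le_sum_of_subset_of_nonneg Ico_subset_Icc_self (fun _ _ _ => by positivity)

theorem sum_kk_le (p : ℕ) : ∑ q ∈ Od p, kk p q ≤ HH p :=
  (sum_le_sum fun _ h => kk_le (Od_pos h) (mem_Od.mp h).1).trans
    ((sum_le_sum_of_subset_of_nonneg (Od_subset p) (fun _ _ _ => by positivity)).trans
      (sum_inv_le p))

/-- Abel's inequality for an antitone nonnegative weight. -/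
theorem abel_le (a : ℕ → ℝ) (z : ℕ → ℂ) (M : ℝ) (n : ℕ) (h0 : ∀ i, i < n → 0 ≤ a i)
    (h1 : ∀ i, i + 1 < n → a (i + 1) ≤ a i) (hM : ∀ j, j ≤ n → ‖∑ i ∈ range j, z i‖ ≤ M)
    (ha : 0 ≤ a 0) : ‖∑ i ∈ range n, (a i : ℂ) * z i‖ ≤ a 0 * M := by
  have key : ∀ j, j < n → ‖∑ i ∈ range (j + 1), (a i : ℂ) * z i -
      (a j : ℂ) * ∑ i ∈ range (j + 1), z i‖ ≤ (a 0 - a j) * M := by
    intro j
    induction j with
    | zero => intro _; simp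
    | succ j ih =>
      intro hj
      have e : ∑ i ∈ range (j + 1 + 1), (a i : ℂ) * z i -
          (a (j + 1) : ℂ) * ∑ i ∈ range (j + 1 + 1), z i =
          (∑ i ∈ range (j + 1), (a i : ℂ) * z i - (a j : ℂ) * ∑ i ∈ range (j + 1), z i) +
            ((a j - a (j + 1) : ℝ) : ℂ) * ∑ i ∈ range (j + 1), z i := by
        rw [sum_range_succ _ (j + 1), sum_range_succ z (j + 1)]
        push_cast
        ring
      rw [e]
      refine (norm_add_le _ _).trans ?_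
      have d := h1 j hj
      have n1 : ‖((a j - a (j + 1) : ℝ) : ℂ) * ∑ i ∈ range (j + 1), z i‖ ≤
          (a j - a (j + 1)) * M := by
        rw [norm_mul, Complex.norm_real, Real.norm_of_nonneg (by linarith)]
        exact mul_le_mul_of_nonneg_left (hM _ (by omega)) (by linarith)
      have := ih (by omega)
      linarith
  rcases Nat.eq_zero_or_pos n with rfl | hn
  · have := hM 0 le_rfl
    simp only [range_zero, sum_empty, norm_zero] at this ⊢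
    positivity
  obtain ⟨j, rfl⟩ : ∃ j, n = j + 1 := ⟨n - 1, by omega⟩
  have k1 := key j (by omega)
  have k2 : ‖(a j : ℂ) * ∑ i ∈ range (j + 1), z i‖ ≤ a j * M := by
    rw [norm_mul, Complex.norm_real, Real.norm_of_nonneg (h0 j (by omega))]
    exact mul_le_mul_of_nonneg_left (hM _ le_rfl) (h0 j (by omega))
  have k3 := norm_add_le (∑ i ∈ range (j + 1), (a i : ℂ) * z i -
      (a j : ℂ) * ∑ i ∈ range (j + 1), z i) ((a j : ℂ) * ∑ i ∈ range (j + 1), z i)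
  rw [sub_add_cancel] at k3
  linarith

end Pool.Agent.MP_a9857c_nt.H82
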