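import Mathlib
import Pool.Agent.MP_a9857c_nt.H82.Defs

set_option autoImplicit false

open Finset Real

namespace Pool.Agent.MP_a9857c_nt.H82.Conc

theorem two_pow_card_le (n : ℕ) (hn : n ≠ 0) : 2 ^ n.primeFactors.card ≤ n := by
  have h1 : 2 ^ n.primeFactors.card ≤ ∏ x ∈ n.primeFactors, x :=
    Finset.pow_card_le_prod _ _ _ (fun x hx => (Nat.prime_of_mem_primeFactors hx).two_le)
  exact h1.trans (Nat.le_of_dvd (Nat.pos_of_ne_zero hn) (Nat.prod_primeFactors_dvd n))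

theorem card_le (p n : ℕ) (hp : 1 ≤ p) (hn : n ≤ 2 * p ^ 2) :
    (n.primeFactors.card : ℝ) ≤ 3 * HH p := by
  have hp1 : (1 : ℝ) ≤ p := by exact_mod_cast hp
  have hl : 0 ≤ log (p : ℝ) := log_nonneg hp1
  rcases Nat.eq_zero_or_pos n with rfl | h0
  · simp only [Nat.primeFactors_zero, card_empty, Nat.cast_zero, HH]
    linarith
  have h1 : ((2 : ℝ)) ^ n.primeFactors.card ≤ 2 * (p : ℝ) ^ 2 := by
    exact_mod_cast (two_pow_card_le n h0.ne').trans hn
  have h2 := log_le_log (by positivity) h1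
  rw [log_pow, log_mul (by norm_num) (by positivity), log_pow] at h2
  have h3 := log_two_gt_d9
  have h4 := log_two_lt_d9
  have h5 : (0 : ℝ) ≤ n.primeFactors.card := by positivity
  unfold HH
  push_cast at h2
  nlinarith

/-- The weight of the quotient `a`. -/
noncomputable def ww (y : ℕ) (δ : ℝ) (a : ℤ) : ℝ :=
  if a.natAbs ≤ 1 then 1 / y else δ / ((a.natAbs - 1 : ℕ) : ℝ)

theorem ww_nonneg (y : ℕ) (δ : ℝ) (hδ : 0 ≤ δ) (a : ℤ) : 0 ≤ ww y δ a := by
  unfold ww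
  split_ifs <;> positivity

theorem sum_ww_aux (y : ℕ) (δ : ℝ) (n : ℕ) :
    ∑ a ∈ Icc (-((n + 1 : ℕ) : ℤ)) ((n + 1 : ℕ) : ℤ), ww y δ a =
      3 / y + 2 * δ * ∑ j ∈ Ico 1 (n + 1), (1 : ℝ) / j := by
  induction n with
  | zero =>
    have : Icc (-((0 + 1 : ℕ) : ℤ)) ((0 + 1 : ℕ) : ℤ) = {-1, 0, 1} := by decide
    rw [this, sum_insert (by decide), sum_insert (by decide), sum_singleton]
    simp [ww]
    ring
  | succ n ih =>
    have e : Icc (-((n + 1 + 1 : ℕ) : ℤ)) ((n + 1 + 1 : ℕ) : ℤ) =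
        insert (-((n + 1 + 1 : ℕ) : ℤ)) (insert ((n + 1 + 1 : ℕ) : ℤ)
          (Icc (-((n + 1 : ℕ) : ℤ)) ((n + 1 : ℕ) : ℤ))) := by
      ext a
      simp only [mem_Icc, mem_insert]
      omega
    rw [e, sum_insert (by simp only [mem_Icc, mem_insert]; omega),
      sum_insert (by simp only [mem_Icc]; omega), ih, sum_Ico_succ_top (by omega : 1 ≤ n + 1)]
    have w1 : ww y δ (-((n + 1 + 1 : ℕ) : ℤ)) = δ / ((n + 1 : ℕ) : ℝ) := by
      unfold ww
      rw [Int.natAbs_neg, Int.natAbs_natCast, if_neg (by omega)]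
      rfl
    have w2 : ww y δ ((n + 1 + 1 : ℕ) : ℤ) = δ / ((n + 1 : ℕ) : ℝ) := by
      unfold ww
      rw [Int.natAbs_natCast, if_neg (by omega)]
      rfl
    rw [w1, w2]
    ring

theorem sum_ww (y : ℕ) (δ : ℝ) (hδ : 0 ≤ δ) (p : ℕ) (hp : 1 ≤ p) :
    ∑ a ∈ Icc (-(p : ℤ)) (p : ℤ), ww y δ a ≤ 3 * (1 / y + δ * HH p) := by
  obtain ⟨n, rfl⟩ : ∃ n, p = n + 1 := ⟨p - 1, by omega⟩
  rw [sum_ww_aux]
  have h1 := sum_inv_le (n + 1)
  have h2 : 0 ≤ ∑ j ∈ Ico 1 (n + 1), (1 : ℝ) / j := sum_nonneg fun _ _ => by positivity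
  unfold HH
  have h3 := mul_le_mul_of_nonneg_left h1 hδ
  have h4 := mul_nonneg hδ h2
  have e : (3 : ℝ) / y = 3 * (1 / y) := by ring
  nlinarith

open Classical in
theorem conc : ConcStmt := by
  intro p hp r y δ hr hy hδ hδ1
  have hp2 : 2 ≤ p := hp.out.two_le
  have hpR : (2 : ℝ) ≤ p := by exact_mod_cast hp2
  set M : ℕ → ℕ := fun m => (r * (m : ZMod p)⁻¹).val with hM
  set T : Finset (Σ _ : ℕ × ℤ, ℕ) := (Ico 1 p ×ˢ Icc (-(p : ℤ)) p).sigma
    (fun t => ((M t.1 : ℤ) + t.2 * p).natAbs.primeFactors) with hT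
  set T' := T.filter (fun t => (1 : ℝ) / t.2 ≤ ww y δ t.1.2) with hT'
  have hsub : (Ico 1 p).filter (fun q => q ∉ Nat.smoothNumbers y ∧
        ∃ u : ℤ, |(u : ℝ)| ≤ δ * p ∧ (u : ZMod p) * (q : ZMod p) = r) ⊆
      T'.image (fun t => t.1.1 * t.2) := by
    intro q hq
    obtain ⟨hq1, hns, u, hu, hur⟩ := mem_filter.mp hq
    obtain ⟨q1, q2⟩ := mem_Ico.mp hq1
    rw [Nat.mem_smoothNumbers'] at hns
    push Not at hns
    obtain ⟨x, hx, ⟨m, rfl⟩, hxy⟩ := hns
    have hm0 : 0 < m := Nat.pos_of_ne_zero (by rintro rfl; simp at q1)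
    have hmp : m < p := lt_of_le_of_lt (Nat.le_mul_of_pos_left m hx.pos) q2
    have hxp : x < p := lt_of_le_of_lt (Nat.le_mul_of_pos_right x hm0) q2
    have hmz : (m : ZMod p) ≠ 0 := by
      rw [Ne, ZMod.natCast_eq_zero_iff]
      exact fun h => absurd (Nat.le_of_dvd hm0 h) (by omega)
    have hux : ((u * x : ℤ) : ZMod p) = ((M m : ℤ) : ZMod p) := by
      simp only [hM]
      push_cast
      rw [ZMod.natCast_zmod_val, ← hur]
      push_cast
      field_simp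
    obtain ⟨a, ha⟩ : ∃ a : ℤ, u * x = M m + a * p := by
      obtain ⟨c, hc⟩ := (ZMod.intCast_eq_intCast_iff_dvd_sub _ _ p).mp hux.symm
      exact ⟨c, by linarith⟩
    have hM1 : M m < p := ZMod.val_lt _
    have hM0 : M m ≠ 0 := by
      simp only [hM]
      rw [Ne, ZMod.val_eq_zero]
      exact mul_ne_zero hr (inv_ne_zero hmz)
    have hne : (M m : ℤ) + a * p ≠ 0 := by
      intro h
      have hd : (p : ℤ) ∣ (M m : ℤ) := ⟨-a, by linarith⟩
      have := Nat.le_of_dvd (Nat.pos_of_ne_zero hM0) (Int.natCast_dvd_natCast.mp hd)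
      omega
    have hx0 : (0 : ℝ) < x := by exact_mod_cast hx.pos
    have haR : |(a : ℝ)| - 1 < δ * x := by
      have e : (a : ℝ) * p = u * x - M m := by
        have : ((u * x : ℤ) : ℝ) = ((M m + a * p : ℤ) : ℝ) := by rw [ha]
        push_cast at this
        linarith
      have h1 : |(a : ℝ)| * p ≤ |(u : ℝ)| * x + M m := by
        calc |(a : ℝ)| * p = |(a : ℝ) * p| := by rw [abs_mul, Nat.abs_cast]
          _ = |(u : ℝ) * x - M m| := by rw [e]
          _ ≤ |(u : ℝ) * x| + |(M m : ℝ)| := abs_sub _ _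
          _ = |(u : ℝ)| * x + M m := by rw [abs_mul, Nat.abs_cast, Nat.abs_cast]
      have h2 : (M m : ℝ) < p := by exact_mod_cast hM1
      have h3 : |(u : ℝ)| * x ≤ δ * p * x := mul_le_mul_of_nonneg_right hu hx0.le
      by_contra hc
      push Not at hc
      have h4 : δ * x * p ≤ (|(a : ℝ)| - 1) * p := mul_le_mul_of_nonneg_right hc (by linarith)
      nlinarith
    have hap : a.natAbs ≤ p := by
      have h2 : (x : ℝ) + 1 ≤ p := by exact_mod_cast hxp
      have h3 : δ * x ≤ x := by nlinarith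
      have h4 : ((a.natAbs : ℕ) : ℝ) ≤ p := by
        rw [Nat.cast_natAbs, Int.cast_abs]
        linarith
      exact_mod_cast h4
    refine mem_image.mpr ⟨⟨(m, a), x⟩, mem_filter.mpr ⟨mem_sigma.mpr ⟨?_, ?_⟩, ?_⟩, mul_comm _ _⟩
    · exact mem_product.mpr ⟨mem_Ico.mpr ⟨hm0, hmp⟩, mem_Icc.mpr (show -(p : ℤ) ≤ a ∧ a ≤ p by constructor <;> omega)⟩
    · refine Nat.mem_primeFactors.mpr ⟨hx, ?_, Int.natAbs_ne_zero.mpr hne⟩
      show x ∣ ((M m : ℤ) + a * p).natAbs
      rw [← ha, Int.natAbs_mul, Int.natAbs_natCast]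
      exact Dvd.intro_left _ rfl
    · show (1 : ℝ) / x ≤ ww y δ a
      unfold ww
      split_ifs with h
      · exact one_div_le_one_div_of_le (by exact_mod_cast hy) (by exact_mod_cast hxy)
      · have e : ((a.natAbs - 1 : ℕ) : ℝ) = |(a : ℝ)| - 1 := by
          rw [Nat.cast_sub (by omega), Nat.cast_natAbs, Int.cast_abs, Nat.cast_one]
        have h0 : (0 : ℝ) < ((a.natAbs - 1 : ℕ) : ℝ) := by exact_mod_cast (by omega : 0 < a.natAbs - 1)
        rw [div_le_div_iff₀ hx0 h0, e]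
        linarith
  have hH : 0 ≤ HH p := by
    unfold HH
    have := log_nonneg (by linarith : (1 : ℝ) ≤ p)
    linarith
  calc _ ≤ ∑ q ∈ T'.image (fun t => t.1.1 * t.2), (1 : ℝ) / q :=
        sum_le_sum_of_subset_of_nonneg hsub (fun _ _ _ => by positivity)
    _ ≤ ∑ t ∈ T', (1 : ℝ) / ((t.1.1 * t.2 : ℕ) : ℝ) :=
        sum_image_le_of_nonneg (fun _ _ => by positivity)
    _ ≤ ∑ t ∈ T', (1 : ℝ) / t.1.1 * ww y δ t.1.2 := by
        refine sum_le_sum fun t ht => ?_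
        have h := (mem_filter.mp ht).2
        push_cast
        rw [← one_div_mul_one_div]
        exact mul_le_mul_of_nonneg_left h (by positivity)
    _ ≤ ∑ t ∈ T, (1 : ℝ) / t.1.1 * ww y δ t.1.2 :=
        sum_le_sum_of_subset_of_nonneg (filter_subset _ _)
          (fun _ _ _ => mul_nonneg (by positivity) (ww_nonneg _ _ hδ.le _))
    _ ≤ ∑ t ∈ Ico 1 p ×ˢ Icc (-(p : ℤ)) p, 3 * HH p * ((1 : ℝ) / t.1 * ww y δ t.2) := by
        rw [hT, sum_sigma]
        refine sum_le_sum fun t ht => ?_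
        obtain ⟨_, h2⟩ := mem_product.mp ht
        obtain ⟨h3, h4⟩ := mem_Icc.mp h2
        simp only [sum_const, nsmul_eq_mul]
        refine mul_le_mul_of_nonneg_right (card_le p _ (by omega) ?_)
          (mul_nonneg (by positivity) (ww_nonneg _ _ hδ.le _))
        have hM1 : M t.1 < p := ZMod.val_lt _
        have h5 : t.2.natAbs ≤ p := by omega
        calc _ ≤ (M t.1 : ℤ).natAbs + (t.2 * p).natAbs := Int.natAbs_add_le _ _
          _ = M t.1 + t.2.natAbs * p := by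
              rw [Int.natAbs_mul, Int.natAbs_natCast, Int.natAbs_natCast]
          _ ≤ p * p + p * p := by
              have := Nat.mul_le_mul_right p h5
              nlinarith
          _ = 2 * p ^ 2 := by ring
    _ = 3 * HH p * ((∑ m ∈ Ico 1 p, (1 : ℝ) / m) * ∑ a ∈ Icc (-(p : ℤ)) p, ww y δ a) := by
        rw [← mul_sum, sum_mul_sum, sum_product]
    _ ≤ 3 * HH p * (HH p * (3 * (1 / y + δ * HH p))) := by
        refine mul_le_mul_of_nonneg_left ?_ (by positivity)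
        exact mul_le_mul (sum_inv_le p) (sum_ww y δ hδ.le p (by omega))
          (sum_nonneg fun _ _ => ww_nonneg _ _ hδ.le _) hH
    _ = _ := by ring

end Pool.Agent.MP_a9857c_nt.H82.Conc
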