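import Pool.Agent.MP_a9857c_nt.H82.Defs

set_option autoImplicit false

open Finset Real Filter

namespace Pool.Agent.MP_a9857c_nt.H82.Final

theorem cast_ne {p q : ℕ} (h : q ∈ Od p) : (q : ZMod p) ≠ 0 := by
  rw [Ne, ZMod.natCast_eq_zero_iff]
  exact Nat.not_dvd_of_pos_of_lt (Od_pos h) (mem_Od.mp h).1

theorem kk0 {p q : ℕ} (h : q ∈ Od p) : 0 ≤ kk p q := kk_nonneg (Od_pos h) (mem_Od.mp h).1

theorem kk1 {p q : ℕ} (h : q ∈ Od p) : kk p q ≤ 1 / q := kk_le (Od_pos h) (mem_Od.mp h).1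

/-- Weighted sum over the smooth members. -/
theorem smooth_le {p y : ℕ} {E : ℝ}
    (hE : ∑ q ∈ (range p).filter (fun q => q ∈ Nat.smoothNumbers y), (1 + log q) / q ≤ E) :
    ∑ q ∈ (Od p).filter (fun q => q ∈ Nat.smoothNumbers y), kk p q * (1 + log q) ≤ E := by
  refine le_trans ?_ hE
  refine (sum_le_sum (g := fun q : ℕ => (1 + log q) / q) fun q hq => ?_).trans
    (sum_le_sum_of_subset_of_nonneg ?_ fun q _ _ => ?_)
  · have h1 := kk1 (mem_filter.mp hq).1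
    have h2 : 0 ≤ 1 + log q := by linarith [log_natCast_nonneg q]
    calc kk p q * (1 + log q) ≤ 1 / q * (1 + log q) := mul_le_mul_of_nonneg_right h1 h2
      _ = _ := by ring
  · intro q hq
    obtain ⟨h1, h2⟩ := mem_filter.mp hq
    exact mem_filter.mpr ⟨mem_range.mpr (mem_Od.mp h1).1, h2⟩
  · have h2 : 0 ≤ 1 + log q := by linarith [log_natCast_nonneg q]
    positivity

theorem smooth_part (hP : PerStmt) (p : ℕ) [Fact p.Prime] (hp : 2 < p) {y : ℕ} {E : ℝ}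
    (hE : ∑ q ∈ (range p).filter (fun q => q ∈ Nat.smoothNumbers y), (1 + log q) / q ≤ E) :
    |∑ q ∈ (Od p).filter (fun q => q ∈ Nat.smoothNumbers y), kk p q * FF p q +
      (∑ w ∈ Od p, kk p w) *
        ∑ q ∈ (Od p).filter (fun q => q ∈ Nat.smoothNumbers y), kk p q / q| ≤ 3 * E := by
  have h1 := smooth_le hE
  rw [mul_sum, ← sum_add_distrib]
  refine (abs_sum_le_sum_abs _ _).trans (le_trans ?_ (mul_le_mul_of_nonneg_left h1 (by norm_num)))
  rw [mul_sum]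
  refine sum_le_sum fun q hq => ?_
  have hq' := (mem_filter.mp hq).1
  have e : kk p q * FF p q + (∑ w ∈ Od p, kk p w) * (kk p q / q) =
      kk p q * (FF p q + (∑ w ∈ Od p, kk p w) / q) := by ring
  rw [e, abs_mul, abs_of_nonneg (kk0 hq')]
  have h2 := hP p hp q hq'
  have h3 := log_natCast_nonneg q
  have h4 := kk0 hq'
  nlinarith

theorem klo_ns (p : ℕ) [Fact p.Prime] (a : ZMod p) {y : ℕ} {E M : ℝ}
    (hE : ∑ q ∈ (range p).filter (fun q => q ∈ Nat.smoothNumbers y), (1 + log q) / q ≤ E)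
    (hM : ‖∑ q ∈ Od p, ((1 / q - 1 / p : ℝ) : ℂ) * ee p (a * (q : ZMod p)⁻¹)‖ ≤ M) :
    ‖∑ q ∈ (Od p).filter (fun q => q ∉ Nat.smoothNumbers y),
      (kk p q : ℂ) * ee p (a * (q : ZMod p)⁻¹)‖ ≤ M + 1 + E := by
  have hp : (0 : ℝ) < p := by exact_mod_cast (Fact.out : p.Prime).pos
  have e1 := sum_filter_add_sum_filter_not (Od p) (fun q => q ∈ Nat.smoothNumbers y)
    (fun q => (kk p q : ℂ) * ee p (a * (q : ZMod p)⁻¹))
  have e2 : ∑ q ∈ Od p, (kk p q : ℂ) * ee p (a * (q : ZMod p)⁻¹) =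
      ∑ q ∈ Od p, ((1 / q - 1 / p : ℝ) : ℂ) * ee p (a * (q : ZMod p)⁻¹) +
      ∑ q ∈ Od p, ((kk p q - (1 / q - 1 / p) : ℝ) : ℂ) * ee p (a * (q : ZMod p)⁻¹) := by
    rw [← sum_add_distrib]
    refine sum_congr rfl fun q _ => ?_
    rw [← add_mul, ← Complex.ofReal_add, add_sub_cancel]
  have b1 : ‖∑ q ∈ Od p, ((kk p q - (1 / q - 1 / p) : ℝ) : ℂ) * ee p (a * (q : ZMod p)⁻¹)‖ ≤ 1 := by
    refine (norm_sum_le_of_le _ (n := fun _ => (1 : ℝ) / p) fun q hq => ?_).trans ?_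
    · rw [norm_mul, norm_ee, mul_one, Complex.norm_real, Real.norm_eq_abs, abs_le]
      have h1 := kk1 hq
      have h2 := le_kk (Od_pos hq) (mem_Od.mp hq).1
      have h3 : (2 : ℝ) / p = 1 / p + 1 / p := by ring
      constructor <;> linarith
    · rw [sum_const, nsmul_eq_mul, mul_one_div, div_le_one hp]
      have := card_filter_le (range p) Odd
      rw [card_range] at this
      exact_mod_cast this
  have b2 : ‖∑ q ∈ (Od p).filter (fun q => q ∈ Nat.smoothNumbers y),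
      (kk p q : ℂ) * ee p (a * (q : ZMod p)⁻¹)‖ ≤ E := by
    refine (norm_sum_le_of_le _ fun q hq => ?_).trans (smooth_le hE)
    have h4 := kk0 (mem_filter.mp hq).1
    have h3 := log_natCast_nonneg q
    rw [norm_mul, norm_ee, mul_one, Complex.norm_real, Real.norm_of_nonneg h4]
    nlinarith
  rw [eq_sub_of_add_eq' e1, e2]
  exact (norm_sub_le _ _).trans (add_le_add ((norm_add_le _ _).trans (add_le_add hM b1)) b2)

theorem split (p : ℕ) [Fact p.Prime] (c : ZMod p) (W : ℕ) :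
    ‖∑ w ∈ Od p, ∑ v ∈ Od p, (kk p w : ℂ) * (kk p v : ℂ) * ee p ((v : ZMod p) * (w * c) * 2⁻¹) -
      ∑ w ∈ (Od p).filter (fun w => ¬ W < w), ∑ v ∈ (Od p).filter (fun w => ¬ W < w),
        (kk p w : ℂ) * (kk p v : ℂ) * ee p ((v : ZMod p) * w * 2⁻¹ * c)‖ ≤
      2 * ∑ v ∈ Od p, kk p v * ‖∑ w ∈ (Od p).filter (fun w => W < w), (kk p w : ℂ) *
          ee p ((w : ZMod p) * ((v : ZMod p) * c * (2 : ZMod p)⁻¹))‖ := by
  set B := (Od p).filter (fun w => W < w)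
  set A := (Od p).filter (fun w => ¬ W < w)
  set t : ℕ → ℂ := fun v => ∑ w ∈ B, (kk p w : ℂ) *
          ee p ((w : ZMod p) * ((v : ZMod p) * c * (2 : ZMod p)⁻¹)) with ht
  have e1 : ∑ w ∈ Od p, ∑ v ∈ Od p,
      (kk p w : ℂ) * (kk p v : ℂ) * ee p ((v : ZMod p) * (w * c) * 2⁻¹) =
      ∑ v ∈ Od p, (kk p v : ℂ) * t v + (∑ w ∈ A, (kk p w : ℂ) * t w +
        ∑ w ∈ A, ∑ v ∈ A, (kk p w : ℂ) * (kk p v : ℂ) * ee p ((v : ZMod p) * w * 2⁻¹ * c)) := by
    rw [← sum_filter_add_sum_filter_not (Od p) (fun w => W < w)]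
    refine congrArg₂ (· + ·) ?_ ?_
    · rw [sum_comm]
      refine sum_congr rfl fun v _ => ?_
      rw [ht, mul_sum]
      refine sum_congr rfl fun w _ => ?_
      rw [show (v : ZMod p) * (w * c) * 2⁻¹ = w * (v * c * 2⁻¹) by ring]
      ring
    · rw [← sum_add_distrib]
      refine sum_congr rfl fun w _ => ?_
      rw [← sum_filter_add_sum_filter_not (Od p) (fun w => W < w)]
      refine congrArg₂ (· + ·) ?_ ?_
      · rw [ht, mul_sum]
        refine sum_congr rfl fun v _ => ?_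
        rw [show (v : ZMod p) * (w * c) * 2⁻¹ = v * (w * c * 2⁻¹) by ring]
        ring
      · refine sum_congr rfl fun v _ => ?_
        rw [show (v : ZMod p) * (w * c) * 2⁻¹ = v * w * 2⁻¹ * c by ring]
  have b1 : ∀ s : Finset ℕ, s ⊆ Od p →
      ‖∑ v ∈ s, (kk p v : ℂ) * t v‖ ≤ ∑ v ∈ Od p, kk p v * ‖t v‖ := by
    intro s hs
    refine (norm_sum_le_of_le _ (n := fun v => kk p v * ‖t v‖) fun v hv => ?_).trans
      (sum_le_sum_of_subset_of_nonneg hs fun v hv _ => mul_nonneg (kk0 hv) (norm_nonneg _))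
    rw [norm_mul, Complex.norm_real, Real.norm_of_nonneg (kk0 (hs hv))]
  rw [e1, ← add_assoc, add_sub_cancel_right]
  have := b1 _ subset_rfl
  have := b1 A (filter_subset _ _)
  have := norm_add_le (∑ v ∈ Od p, (kk p v : ℂ) * t v) (∑ w ∈ A, (kk p w : ℂ) * t w)
  linarith

theorem ns_part (hF : FourierStmt) (p : ℕ) [Fact p.Prime] (hp : 2 < p) (N : Finset ℕ)
    (hN : N ⊆ Od p) (W : ℕ) {M T : ℝ} (hM0 : 0 ≤ M)
    (hM : ∀ a : ZMod p, a ≠ 0 → ‖∑ q ∈ N, (kk p q : ℂ) * ee p (a * (q : ZMod p)⁻¹)‖ ≤ M)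
    (hT : ∑ q ∈ N, kk p q * ∑ v ∈ Od p, kk p v *
        ‖∑ w ∈ (Od p).filter (fun w => W < w), (kk p w : ℂ) *
          ee p ((w : ZMod p) * ((v : ZMod p) * (q : ZMod p)⁻¹ * (2 : ZMod p)⁻¹))‖ ≤ T) :
    |∑ q ∈ N, kk p q * FF p q| ≤ 2 * (2 * T + (1 + log (W + 1)) ^ 2 * M) := by
  set A := (Od p).filter (fun w => ¬ W < w) with hA
  set Z : ℕ → ℂ := fun q => ∑ w ∈ Od p, ∑ v ∈ Od p,
    (kk p w : ℂ) * (kk p v : ℂ) * ee p ((v : ZMod p) * (w * (q : ZMod p)⁻¹) * 2⁻¹) with hZ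
  set Y : ℕ → ℂ := fun q => ∑ w ∈ A, ∑ v ∈ A,
    (kk p w : ℂ) * (kk p v : ℂ) * ee p ((v : ZMod p) * w * 2⁻¹ * (q : ZMod p)⁻¹) with hY
  have e1 : ∑ q ∈ N, kk p q * FF p q = 4 / π * (∑ q ∈ N, (kk p q : ℂ) * Z q).im := by
    rw [Complex.im_sum, mul_sum]
    refine sum_congr rfl fun q _ => ?_
    rw [Complex.im_ofReal_mul, hZ, FF, Complex.im_sum, mul_left_comm, mul_sum _ _ (4 / π)]
    refine congrArg _ (sum_congr rfl fun w _ => ?_)
    rw [hF p hp, Complex.im_sum, mul_left_comm, mul_sum _ _ (kk p w)]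
    refine congrArg _ (sum_congr rfl fun v _ => ?_)
    rw [mul_assoc (kk p w : ℂ), Complex.im_ofReal_mul, Complex.im_ofReal_mul]
  have h2 : (2 : ZMod p) ≠ 0 := by
    have : ((2 : ℕ) : ZMod p) ≠ 0 := by
      rw [Ne, ZMod.natCast_eq_zero_iff]
      exact Nat.not_dvd_of_pos_of_lt (by norm_num) hp
    exact_mod_cast this
  have hA1 : ∑ w ∈ A, kk p w ≤ 1 + log (W + 1) := by
    have a1 := sum_inv_le (W + 1)
    push_cast at a1
    refine le_trans ?_ a1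
    refine (sum_le_sum fun w hw => kk1 (mem_filter.mp hw).1).trans
      (sum_le_sum_of_subset_of_nonneg ?_ fun _ _ _ => by positivity)
    intro w hw
    obtain ⟨w1, w2⟩ := mem_filter.mp hw
    exact mem_Ico.mpr ⟨Od_pos w1, by omega⟩
  have hA0 : 0 ≤ ∑ w ∈ A, kk p w := sum_nonneg fun w hw => kk0 (mem_filter.mp hw).1
  have b1 : ‖∑ q ∈ N, (kk p q : ℂ) * Y q‖ ≤ (1 + log (W + 1)) ^ 2 * M := by
    have e2 : ∑ q ∈ N, (kk p q : ℂ) * Y q = ∑ w ∈ A, ∑ v ∈ A, (kk p w : ℂ) * (kk p v : ℂ) *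
        ∑ q ∈ N, (kk p q : ℂ) * ee p ((v : ZMod p) * w * 2⁻¹ * (q : ZMod p)⁻¹) := by
      simp only [hY, mul_sum]
      refine sum_comm.trans (sum_congr rfl fun w _ => sum_comm.trans
        (sum_congr rfl fun v _ => sum_congr rfl fun q _ => by ring))
    rw [e2]
    calc _ ≤ ∑ w ∈ A, ∑ v ∈ A, kk p w * kk p v * M := by
          refine norm_sum_le_of_le _ fun w hw => norm_sum_le_of_le _ fun v hv => ?_
          have w0 := (mem_filter.mp hw).1
          have v0 := (mem_filter.mp hv).1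
          rw [norm_mul, norm_mul, Complex.norm_real, Complex.norm_real,
            Real.norm_of_nonneg (kk0 w0), Real.norm_of_nonneg (kk0 v0)]
          exact mul_le_mul_of_nonneg_left
            (hM _ (mul_ne_zero (mul_ne_zero (cast_ne v0) (cast_ne w0)) (inv_ne_zero h2)))
            (mul_nonneg (kk0 w0) (kk0 v0))
      _ = (∑ w ∈ A, kk p w) ^ 2 * M := by
          rw [sq, sum_mul_sum, sum_mul]
          exact sum_congr rfl fun w _ => by rw [sum_mul]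
      _ ≤ _ := by gcongr
  have b2 : ‖∑ q ∈ N, (kk p q : ℂ) * (Z q - Y q)‖ ≤ 2 * T := by
    refine le_trans ?_ (mul_le_mul_of_nonneg_left hT (by norm_num))
    rw [mul_sum]
    refine norm_sum_le_of_le _ fun q hq => ?_
    rw [norm_mul, Complex.norm_real, Real.norm_of_nonneg (kk0 (hN hq)), mul_left_comm]
    exact mul_le_mul_of_nonneg_left (split p _ W) (kk0 (hN hq))
  have e3 : ∑ q ∈ N, (kk p q : ℂ) * Z q =
      ∑ q ∈ N, (kk p q : ℂ) * (Z q - Y q) + ∑ q ∈ N, (kk p q : ℂ) * Y q := by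
    rw [← sum_add_distrib]
    exact sum_congr rfl fun q _ => by ring
  have b3 : |(∑ q ∈ N, (kk p q : ℂ) * Z q).im| ≤ 2 * T + (1 + log (W + 1)) ^ 2 * M := by
    refine (Complex.abs_im_le_norm _).trans ?_
    rw [e3]
    exact (norm_add_le _ _).trans (add_le_add b2 b1)
  have b4 : |4 / π| ≤ 2 := by
    rw [abs_of_nonneg (by positivity), div_le_iff₀ pi_pos]
    linarith [pi_gt_three]
  rw [e1, abs_mul]
  exact mul_le_mul b4 b3 (abs_nonneg _) (by norm_num)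

/-- The explicit estimate for one prime. -/
theorem one (hF : FourierStmt) (hI : IdStmt) (hMT : MainTermStmt) (hP : PerStmt) (hT : TailStmt)
    {C : ℝ} {d : ℕ} (hC0 : 0 ≤ C) (hC : ∀ J N : ℕ, 1 ≤ J →
      ∑ q ∈ (range N).filter (fun q => q ∈ Nat.smoothNumbers (2 ^ J)), (1 + log q) / q ≤
        C * J ^ d)
    (p : ℕ) [Fact p.Prime] (hp : 2 < p) (hl : 1 ≤ log (log p)) (hL : 1 ≤ log p)
    (hy : 2 * HH p ^ 4 ≤ p) {η : ℝ} (hη : 0 ≤ η)
    (hK : ∀ a : ZMod p, a ≠ 0 →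
      ‖∑ q ∈ Od p, ((1 / q - 1 / p : ℝ) : ℂ) * ee p (a * (q : ZMod p)⁻¹)‖ * log (log p) ^ 2 ≤
        η * log p) :
    |(S p : ℝ) / (p * log p) - 1 / 2| ≤
      722 * η + (812 + 725 * C * 13 ^ d) * (log (log p) ^ (d + 2) / log p) := by
  have hp0 : (0 : ℝ) < p := by exact_mod_cast (by omega : 0 < p)
  set L := log p with hLdef
  set l := log L with hldef
  set H := HH p with hHdef
  have hH : H = 1 + L := rfl
  have hH2 : 2 ≤ H := by linarith
  have hH1 : 1 ≤ H := by linarith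
  have hlH : log H ≤ 2 * l := by
    have a1 : log H ≤ log (2 * L) := log_le_log (by linarith) (by linarith)
    rw [log_mul (by norm_num) (by linarith)] at a1
    linarith [log_two_lt_d9]
  obtain ⟨n, n1, n2⟩ := exists_nat_pow_near (one_le_pow₀ hH1 (n := 4)) (one_lt_two (α := ℝ))
  set J := n + 1 with hJ
  have y1 : H ^ 4 ≤ ((2 ^ J : ℕ) : ℝ) := by
    push_cast
    exact n2.le
  have y2 : ((2 ^ J : ℕ) : ℝ) ≤ p := by
    push_cast
    rw [hJ, pow_succ]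
    linarith
  have y3 : 2 ≤ 2 ^ J := by
    rw [hJ, pow_succ]
    exact Nat.le_mul_of_pos_left _ (by positivity)
  have hJl : (J : ℝ) ≤ 13 * l := by
    have a1 := log_le_log (by positivity) n1
    rw [log_pow, log_pow] at a1
    push_cast at a1
    have a2 : (0 : ℝ) ≤ n := Nat.cast_nonneg n
    have a3 := log_two_gt_d9
    rw [hJ]
    push_cast
    nlinarith
  set W := ⌈H ^ 7⌉₊ with hW
  have w1 : H ^ 7 ≤ W := Nat.le_ceil _
  have w0 : 1 ≤ H ^ 7 := one_le_pow₀ hH1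
  have w2 : (W : ℝ) + 1 ≤ H ^ 9 := by
    have a1 := Nat.ceil_lt_add_one (show 0 ≤ H ^ 7 by positivity)
    have a2 : H ^ 9 = H ^ 7 * (H * H) := by ring
    have a3 : 4 ≤ H * H := by nlinarith
    nlinarith
  have w3 : 1 ≤ W := by exact_mod_cast w0.trans w1
  have w4 : 1 + log (W + 1) ≤ 19 * l := by
    have a1 := log_le_log (by positivity) w2
    rw [log_pow] at a1
    push_cast at a1
    linarith
  have w5 : 0 ≤ 1 + log ((W : ℝ) + 1) := by
    have := log_nonneg (show (1 : ℝ) ≤ W + 1 by linarith [Nat.cast_nonneg (α := ℝ) W])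
    linarith
  have t1 := hT p (2 ^ J) W (1 / H ^ 5) hp (by omega) w3 (by positivity)
    (by rw [div_le_one (by positivity)]; exact one_le_pow₀ hH1)
  have t2 : H ^ 2 / (W * (1 / H ^ 5)) + 9 * H ^ 4 * (1 / ((2 ^ J : ℕ) : ℝ) + 1 / H ^ 5 * H) ≤ 19 := by
    have a1 : H ^ 2 / (W * (1 / H ^ 5)) ≤ 1 := by
      rw [div_le_one (by positivity), mul_one_div, le_div_iff₀ (by positivity)]
      exact (show H ^ 2 * H ^ 5 = H ^ 7 by ring).le.trans w1
    have a2 : H ^ 4 * (1 / ((2 ^ J : ℕ) : ℝ)) ≤ 1 := by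
      rw [mul_one_div, div_le_one (by positivity)]
      exact y1
    have a3 : H ^ 4 * (1 / H ^ 5 * H) = 1 := by field_simp
    have a4 : 9 * H ^ 4 * (1 / ((2 ^ J : ℕ) : ℝ) + 1 / H ^ 5 * H) =
      9 * (H ^ 4 * (1 / ((2 ^ J : ℕ) : ℝ))) + 9 * (H ^ 4 * (1 / H ^ 5 * H)) := by ring
    linarith
  set E := C * 13 ^ d * l ^ d with hEdef
  have hE0 : 0 ≤ E := by positivity
  have hE := (hC J p (by omega)).trans (show C * (J : ℝ) ^ d ≤ E by
    rw [hEdef, mul_assoc, ← mul_pow]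
    gcongr)
  have s1 := smooth_part hP p hp hE
  have l0 : 0 < l ^ 2 := by positivity
  have s2 := ns_part hF p hp _ (filter_subset _ _) W (M := η * L / l ^ 2 + 1 + E) (by positivity)
    (fun a ha => klo_ns p a hE ((le_div_iff₀ l0).mpr (hK a ha))) (t1.trans t2)
  obtain ⟨m1, m2⟩ := hMT p (2 ^ J) ((Fact.out : p.Prime).odd_of_ne_two (by omega)) y3
    (by exact_mod_cast y2)
  have i1 := hI p hp
  rw [← sum_filter_add_sum_filter_not (Od p) (fun q => q ∈ Nat.smoothNumbers (2 ^ J))] at i1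
  set X := ∑ q ∈ (Od p).filter (fun q => q ∈ Nat.smoothNumbers (2 ^ J)), kk p q * FF p q
  set Y := ∑ q ∈ (Od p).filter (fun q => q ∉ Nat.smoothNumbers (2 ^ J)), kk p q * FF p q
  set K₀ := ∑ w ∈ Od p, kk p w
  set M₀ := ∑ q ∈ (Od p).filter (fun q => q ∈ Nat.smoothNumbers (2 ^ J)), kk p q / q
  have s3 : |Y| ≤ 76 + 722 * (η * L) + 722 * l ^ 2 * (1 + E) := by
    refine s2.trans ?_
    have a1 : (1 + log (W + 1)) ^ 2 * (η * L / l ^ 2 + 1 + E) ≤
        (19 * l) ^ 2 * (η * L / l ^ 2 + 1 + E) := by gcongr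
    have a2 : (19 * l) ^ 2 * (η * L / l ^ 2 + 1 + E) =
        361 * (η * L) + 361 * l ^ 2 * (1 + E) := by
      field_simp
      ring
    linarith
  have H4 : H * H ≤ H ^ 4 := by
    rw [← sq]
    exact pow_le_pow_right₀ hH1 (by norm_num)
  have m3 : L * (2 / ((2 ^ J : ℕ) : ℝ) + 2 * H / p) ≤ 3 := by
    have a1 : L * (2 / ((2 ^ J : ℕ) : ℝ)) ≤ 2 := by
      rw [← mul_div_assoc, div_le_iff₀ (by positivity)]
      nlinarith
    have a2 : L * (2 * H / p) ≤ 1 := by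
      rw [← mul_div_assoc, div_le_one hp0]
      nlinarith
    linarith
  have m4 : |M₀ - π ^ 2 / 8| ≤ 3 := by
    have : 0 ≤ 2 / ((2 ^ J : ℕ) : ℝ) + 2 * H / p := by positivity
    nlinarith
  have pi2 : π ^ 2 ≤ 16 := by nlinarith [pi_lt_four, pi_pos]
  have pi3 : 8 ≤ π ^ 2 := by nlinarith [pi_gt_three]
  have m5 : |K₀ * M₀ - L * π ^ 2 / 16| ≤ 14 := by
    have e : K₀ * M₀ - L * π ^ 2 / 16 = (K₀ - L / 2) * M₀ + L / 2 * (M₀ - π ^ 2 / 8) := by ring
    have a1 : |M₀| ≤ 5 := by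
      rw [abs_le] at m4 ⊢
      constructor <;> linarith [m4.1, m4.2]
    have a2 : |(K₀ - L / 2) * M₀| ≤ 2 * 5 := by
      rw [abs_mul]
      exact mul_le_mul m1 a1 (abs_nonneg _) (by norm_num)
    have a3 : |L / 2 * (M₀ - π ^ 2 / 8)| ≤ 2 := by
      rw [abs_mul, abs_of_nonneg (by linarith : 0 ≤ L / 2)]
      have := mul_le_mul_of_nonneg_left m2 (by linarith : 0 ≤ L / 2)
      linarith
    rw [e]
    linarith [abs_add_le ((K₀ - L / 2) * M₀) (L / 2 * (M₀ - π ^ 2 / 8))]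
  have e1 : (S p : ℝ) / (p * L) - 1 / 2 =
      8 / π ^ 2 * ((K₀ * M₀ - L * π ^ 2 / 16 - (X + K₀ * M₀) - Y) / L) := by
    rw [i1]
    field_simp
    ring
  have f1 : |K₀ * M₀ - L * π ^ 2 / 16 - (X + K₀ * M₀) - Y| ≤
      722 * (η * L) + (812 + 725 * C * 13 ^ d) * l ^ (d + 2) := by
    have a1 := abs_sub (K₀ * M₀ - L * π ^ 2 / 16 - (X + K₀ * M₀)) Y
    have a2 := abs_sub (K₀ * M₀ - L * π ^ 2 / 16) (X + K₀ * M₀)
    have a3 : 1 ≤ l ^ 2 := one_le_pow₀ hl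
    have a4 : l ^ 2 ≤ l ^ (d + 2) := pow_le_pow_right₀ hl (by omega)
    have a5 : l ^ 2 * E = C * 13 ^ d * l ^ (d + 2) := by rw [hEdef]; ring
    have a6 : E ≤ l ^ 2 * E := le_mul_of_one_le_left hE0 a3
    nlinarith
  rw [e1, abs_mul, abs_div _ L, abs_of_nonneg (by linarith : 0 ≤ L),
    abs_of_nonneg (by positivity : 0 ≤ 8 / π ^ 2)]
  have f2 : 8 / π ^ 2 ≤ 1 := by rw [div_le_one (by positivity)]; exact pi3
  calc _ ≤ 1 * ((722 * (η * L) + (812 + 725 * C * 13 ^ d) * l ^ (d + 2)) / L) := by gcongr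
    _ = _ := by field_simp

theorem final (hF : FourierStmt) (hI : IdStmt) (hMT : MainTermStmt) (hP : PerStmt)
    (hS : SmoothStmt) (hT : TailStmt) (hK : KloStmt) (ε : ℝ) (hε : 0 < ε) :
    ∃ p₀ : ℕ, ∀ p : ℕ, p.Prime → p₀ ≤ p → |(S p : ℝ) / (p * log p) - 1 / 2| ≤ ε := by
  obtain ⟨C, d, hC⟩ := hS
  obtain ⟨p₁, hp₁⟩ := hK (ε / 1444) (by positivity)
  have hlog : Tendsto (fun p : ℕ => log p) atTop atTop :=
    tendsto_log_atTop.comp tendsto_natCast_atTop_atTop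
  have t1 : Tendsto (fun p : ℕ => (812 + 725 * |C| * 13 ^ d) * (log (log p) ^ (d + 2) / log p))
      atTop (nhds 0) := by
    have := (((isLittleO_pow_log_id_atTop (n := d + 2)).tendsto_div_nhds_zero).comp hlog).const_mul
      (812 + 725 * |C| * 13 ^ d)
    rw [mul_zero] at this
    exact this
  have t2 : Tendsto (fun p : ℕ => log p ^ 4 / p) atTop (nhds 0) :=
    ((isLittleO_pow_log_id_atTop (n := 4)).tendsto_div_nhds_zero).comp
      tendsto_natCast_atTop_atTop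
  have ev := (t1.eventually (ge_mem_nhds (show 0 < ε / 2 by positivity))).and
    ((t2.eventually (ge_mem_nhds (show (0 : ℝ) < 1 / 32 by norm_num))).and
      ((hlog.eventually_ge_atTop 1).and
        (((tendsto_log_atTop.comp hlog).eventually_ge_atTop 1).and (eventually_ge_atTop 3))))
  obtain ⟨p₂, hp₂⟩ := eventually_atTop.mp ev
  refine ⟨max p₁ p₂, fun p hp hle => ?_⟩
  have := Fact.mk hp
  obtain ⟨a1, a2, a3, a4, a5⟩ := hp₂ p ((le_max_right _ _).trans hle)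
  have hp0 : (0 : ℝ) < p := by exact_mod_cast hp.pos
  have a6 : 2 * HH p ^ 4 ≤ p := by
    rw [div_le_iff₀ hp0] at a2
    have : HH p ^ 4 ≤ (2 * log p) ^ 4 := by
      unfold HH
      exact pow_le_pow_left₀ (by linarith) (by linarith) 4
    linarith
  have := one hF hI hMT hP hT (abs_nonneg C) (d := d) (fun J N hJ => (hC J N hJ).trans
    (mul_le_mul_of_nonneg_right (le_abs_self C) (by positivity))) p (by omega) a4 a3 a6
    (η := ε / 1444) (by positivity) (hp₁ p ((le_max_left _ _).trans hle))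
  linarith

end Pool.Agent.MP_a9857c_nt.H82.Final
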