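import Mathlib
import Pool.Agent.MP_a9857c_nt.H82.Defs

set_option autoImplicit false

open Finset Real

namespace Pool.Agent.MP_a9857c_nt.H82.Fourier

theorem sum_Od (n : ℕ) (f : ℕ → ℝ) :
    ∑ v ∈ Od (2 * n + 1), f v = ∑ i ∈ range n, f (2 * i + 1) := by
  induction n with
  | zero => simp [Od, sum_filter]
  | succ n ih =>
    rw [sum_range_succ, ← ih]
    unfold Od
    rw [sum_filter, sum_filter, show 2 * (n + 1) + 1 = 2 * n + 1 + 1 + 1 by ring,
      sum_range_succ, sum_range_succ]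
    have h1 : Odd (2 * n + 1) := ⟨n, rfl⟩
    have h2 : ¬ Odd (2 * n + 1 + 1) := by
      rw [Nat.not_odd_iff_even]
      exact ⟨n + 1, by ring⟩
    simp [h1, h2]

theorem cos_sum (n : ℕ) (t : ℝ) :
    2 * sin t * ∑ i ∈ range n, cos ((2 * i + 1 : ℕ) * t) = sin (2 * n * t) := by
  induction n with
  | zero => simp
  | succ n ih =>
    rw [sum_range_succ, mul_add, ih]
    have e1 : (2 * ((n + 1 : ℕ) : ℝ) * t) = ((2 * n + 1 : ℕ) : ℝ) * t + t := by
      push_cast; ring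
    have e2 : (2 * (n : ℝ) * t) = ((2 * n + 1 : ℕ) : ℝ) * t - t := by
      push_cast; ring
    rw [e1, e2, sin_add, sin_sub]
    ring

/-- The cosine sum over odd numbers. -/
theorem cos_Od (n j : ℕ) (h1 : 1 ≤ j) (h2 : j < 2 * n + 1) :
    ∑ v ∈ Od (2 * n + 1), cos (π * v * j / ((2 * n + 1 : ℕ) : ℝ)) = -(-1) ^ j / 2 := by
  rw [sum_Od]
  have hp : (0 : ℝ) < ((2 * n + 1 : ℕ) : ℝ) := by exact_mod_cast Nat.succ_pos _
  set t : ℝ := π * j / ((2 * n + 1 : ℕ) : ℝ) with ht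
  have hj0 : (0 : ℝ) < j := by exact_mod_cast h1
  have hj1 : (j : ℝ) < ((2 * n + 1 : ℕ) : ℝ) := by exact_mod_cast h2
  have hs : 0 < sin t := by
    apply sin_pos_of_pos_of_lt_pi
    · rw [ht]; positivity
    · rw [ht, div_lt_iff₀ hp]
      nlinarith [pi_pos]
  have e : ∀ i ∈ range n, cos (π * ((2 * i + 1 : ℕ) : ℝ) * j / ((2 * n + 1 : ℕ) : ℝ)) =
      cos ((2 * i + 1 : ℕ) * t) := by
    intro i _
    rw [ht]
    ring_nf
  rw [sum_congr rfl e]
  have k := cos_sum n t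
  have e2 : 2 * (n : ℝ) * t = j * π - t := by
    rw [ht]
    field_simp
    push_cast
    ring
  rw [e2, sin_nat_mul_pi_sub] at k
  have k2 : sin t * (2 * ∑ i ∈ range n, cos ((2 * i + 1 : ℕ) * t) + (-1) ^ j) = 0 := by
    linarith
  rcases mul_eq_zero.mp k2 with h | h
  · exact absurd h hs.ne'
  · linarith

theorem step (θ : ℝ) (j : ℕ) (hs : sin (θ / 2) ≠ 0) (_hc : cos (θ / 2) ≠ 0) :
    1 / tan (θ / 2) * sin (θ * (j + 1 : ℕ)) =
      1 / tan (θ / 2) * sin (θ * j) + (cos (θ * (j + 1 : ℕ)) + cos (θ * j)) := by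
  have k : ∀ a : ℝ, 1 / tan (θ / 2) * sin (a + θ / 2) =
      1 / tan (θ / 2) * sin (a - θ / 2) + (cos (a + θ / 2) + cos (a - θ / 2)) := by
    intro a
    rw [sin_add, sin_sub, cos_add, cos_sub, tan_eq_sin_div_cos]
    field_simp
    ring
  have e1 : θ * ((j + 1 : ℕ) : ℝ) = (θ * j + θ / 2) + θ / 2 := by push_cast; ring
  have k2 := k (θ * j + θ / 2)
  rw [← e1, add_sub_cancel_right] at k2
  exact k2

theorem cot_sum (n j : ℕ) (h1 : 1 ≤ j) (h2 : j < 2 * n + 1) :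
    ∑ v ∈ Od (2 * n + 1), 1 / tan (π * v / (2 * ((2 * n + 1 : ℕ) : ℝ))) *
      sin (π * v * j / ((2 * n + 1 : ℕ) : ℝ)) = ((2 * n + 1 : ℕ) : ℝ) / 2 := by
  have hp : (0 : ℝ) < ((2 * n + 1 : ℕ) : ℝ) := by exact_mod_cast Nat.succ_pos _
  have st : ∀ i : ℕ, ∑ v ∈ Od (2 * n + 1), 1 / tan (π * v / (2 * ((2 * n + 1 : ℕ) : ℝ))) *
      sin (π * v * (i + 1 : ℕ) / ((2 * n + 1 : ℕ) : ℝ)) =
      ∑ v ∈ Od (2 * n + 1), 1 / tan (π * v / (2 * ((2 * n + 1 : ℕ) : ℝ))) *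
        sin (π * v * i / ((2 * n + 1 : ℕ) : ℝ)) +
      (∑ v ∈ Od (2 * n + 1), cos (π * v * (i + 1 : ℕ) / ((2 * n + 1 : ℕ) : ℝ)) +
        ∑ v ∈ Od (2 * n + 1), cos (π * v * i / ((2 * n + 1 : ℕ) : ℝ))) := by
    intro i
    rw [← sum_add_distrib, ← sum_add_distrib]
    refine sum_congr rfl fun v hv => ?_
    obtain ⟨a1, a2⟩ := angle_mem (Od_pos hv) (mem_Od.mp hv).1
    have e0 : π * v / (2 * ((2 * n + 1 : ℕ) : ℝ)) = π * v / ((2 * n + 1 : ℕ) : ℝ) / 2 := by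
      field_simp
    rw [e0] at a1 a2 ⊢
    have k := step (π * v / ((2 * n + 1 : ℕ) : ℝ)) i
      (sin_pos_of_pos_of_lt_pi a1 (by linarith [pi_pos])).ne'
      (cos_pos_of_mem_Ioo ⟨by linarith [pi_pos], a2⟩).ne'
    have e1 : ∀ r : ℝ, π * v * r / ((2 * n + 1 : ℕ) : ℝ) = π * v / ((2 * n + 1 : ℕ) : ℝ) * r :=
      fun r => by ring
    rw [e1, e1]
    exact k
  induction j, h1 using Nat.le_induction with
  | base =>
    have k := st 0
    rw [cos_Od n (0 + 1) le_rfl h2] at k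
    simp only [Nat.cast_zero, mul_zero, zero_div, sin_zero, sum_const_zero, cos_zero] at k
    rw [sum_Od n (fun _ => (1 : ℝ))] at k
    rw [zero_add 1] at k
    rw [k]
    simp
    ring
  | succ j h1 ih =>
    rw [st j, ih (by omega), cos_Od n (j + 1) (by omega) h2, cos_Od n j h1 (by omega)]
    ring

theorem im_ee (n : ℕ) [Fact (2 * n + 1).Prime] (v : ℕ) (hv : Odd v) (x : ZMod (2 * n + 1)) :
    (ee (2 * n + 1) ((v : ZMod (2 * n + 1)) * x * (2 : ZMod (2 * n + 1))⁻¹)).im =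
      (-1) ^ x.val * sin (π * v * x.val / ((2 * n + 1 : ℕ) : ℝ)) := by
  have hp : (0 : ℝ) < ((2 * n + 1 : ℕ) : ℝ) := by exact_mod_cast Nat.succ_pos _
  have h2 : (2 : ZMod (2 * n + 1))⁻¹ = ((n + 1 : ℕ) : ZMod (2 * n + 1)) := by
    apply inv_eq_of_mul_eq_one_right
    have h0 : ((2 * n + 1 : ℕ) : ZMod (2 * n + 1)) = 0 := ZMod.natCast_self _
    push_cast at h0 ⊢
    linear_combination h0
  have h3 : (v : ZMod (2 * n + 1)) * x * (2 : ZMod (2 * n + 1))⁻¹ =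
      (((v * x.val * (n + 1) : ℕ) : ℤ) : ZMod (2 * n + 1)) := by
    rw [h2]
    push_cast
    rw [ZMod.natCast_zmod_val]
  rw [h3, ee, ZMod.stdAddChar_coe]
  have h4 : (2 * π * Complex.I * (((v * x.val * (n + 1) : ℕ) : ℤ) : ℂ) /
      ((2 * n + 1 : ℕ) : ℂ)) =
      ((π * v * x.val / ((2 * n + 1 : ℕ) : ℝ) + ((v * x.val : ℕ) : ℝ) * π : ℝ) : ℂ) *
        Complex.I := by
    have hc : ((2 * n + 1 : ℕ) : ℂ) ≠ 0 := Nat.cast_ne_zero.mpr (Nat.succ_ne_zero (2 * n))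
    push_cast at hc ⊢
    field_simp
    ring
  rw [h4, Complex.exp_ofReal_mul_I_im, sin_add_nat_mul_pi, pow_mul, hv.neg_one_pow]

theorem fourier : FourierStmt := by
  intro p hp h2 x
  obtain ⟨n, rfl⟩ : ∃ n, p = 2 * n + 1 := hp.out.odd_of_ne_two (by omega)
  have hq : (0 : ℝ) < ((2 * n + 1 : ℕ) : ℝ) := by exact_mod_cast Nat.succ_pos _
  have e : ∀ v ∈ Od (2 * n + 1), kk (2 * n + 1) v *
      (ee (2 * n + 1) ((v : ZMod (2 * n + 1)) * x * (2 : ZMod (2 * n + 1))⁻¹)).im =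
      π / (2 * ((2 * n + 1 : ℕ) : ℝ)) * (-1) ^ x.val *
        (1 / tan (π * v / (2 * ((2 * n + 1 : ℕ) : ℝ))) *
          sin (π * v * x.val / ((2 * n + 1 : ℕ) : ℝ))) := by
    intro v hv
    rw [im_ee n v (mem_Od.mp hv).2 x]
    unfold kk
    ring
  rw [sum_congr rfl e, ← mul_sum]
  unfold ff
  split_ifs with hx
  · subst hx
    simp
  · have h1 : 1 ≤ x.val := Nat.one_le_iff_ne_zero.mpr fun h => hx ((ZMod.val_eq_zero x).mp h)
    rw [cot_sum n x.val h1 (ZMod.val_lt x)]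
    have := pi_pos
    field_simp
    ring

section Id

variable {p : ℕ} [hp : Fact p.Prime]

theorem ff_neg (h2 : 2 < p) (x : ZMod p) : ff p (-x) = -ff p x := by
  unfold ff
  by_cases hx : x = 0
  · simp [hx]
  · have hx' : -x ≠ 0 := neg_ne_zero.mpr hx
    rw [if_neg hx, if_neg hx', ZMod.neg_val, if_neg hx]
    have hodd : Odd p := hp.out.odd_of_ne_two (by omega)
    have hl := (ZMod.val_lt x).le
    have e : (-1 : ℝ) ^ (p - x.val) * (-1) ^ x.val = -1 := by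
      rw [← pow_add, Nat.sub_add_cancel hl, hodd.neg_one_pow]
    have e2 : (-1 : ℝ) ^ x.val * (-1) ^ x.val = 1 := by
      rw [← mul_pow]; simp
    linear_combination (-1 : ℝ) ^ x.val * e - (-1 : ℝ) ^ (p - x.val) * e2

theorem sum_ff (h2 : 2 < p) : ∑ x : ZMod p, ff p x = 0 := by
  have e : ∑ x : ZMod p, ff p (-x) = ∑ x : ZMod p, ff p x :=
    Fintype.sum_equiv (Equiv.neg _) _ _ fun _ => rfl
  simp only [ff_neg h2, sum_neg_distrib] at e
  linarith

theorem ff_zero : ff p 0 = 0 := by simp [ff]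

theorem sum_ff_mul (h2 : 2 < p) (a : ZMod p) : ∑ x : ZMod p, ff p (x * a) = 0 := by
  by_cases ha : a = 0
  · simp [ha, ff_zero]
  · rw [← sum_ff h2]
    exact Fintype.sum_equiv (Equiv.mulRight₀ a ha) _ _ fun _ => rfl

theorem sum_ee (c : ZMod p) : ∑ j : ZMod p, (ee p (j * c)).re = if c = 0 then (p : ℝ) else 0 := by
  have k := AddChar.sum_mulShift c (ZMod.isPrimitive_stdAddChar p)
  rw [← Complex.re_sum]
  unfold ee
  rw [k]
  split_ifs <;> simp [ZMod.card]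

theorem im_mul (a b : ZMod p) :
    (ee p a).im * (ee p b).im = ((ee p (a - b)).re - (ee p (a + b)).re) / 2 := by
  unfold ee
  rw [sub_eq_add_neg a b, AddChar.map_add_eq_mul, AddChar.map_add_eq_mul, AddChar.map_neg_eq_conj]
  simp only [Complex.mul_re, Complex.conj_re, Complex.conj_im]
  ring

theorem orth (a b : ZMod p) : ∑ j : ZMod p, (ee p (j * a)).im * (ee p (j * b)).im =
    (p : ℝ) / 2 * ((if a = b then 1 else 0) - if a = -b then 1 else 0) := by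
  have e : ∀ j : ZMod p, (ee p (j * a)).im * (ee p (j * b)).im =
      ((ee p (j * (a - b))).re - (ee p (j * (a + b))).re) / 2 := by
    intro j
    rw [im_mul, mul_sub, mul_add]
  simp only [e]
  rw [← sum_div, sum_sub_distrib, sum_ee, sum_ee]
  simp only [sub_eq_zero, add_eq_zero_iff_eq_neg]
  split_ifs <;> ring

theorem sum_zmod (g : ZMod p → ℝ) (h0 : g 0 = 0) :
    ∑ j ∈ Icc 1 (p - 1), g (j : ZMod p) = ∑ x : ZMod p, g x := by
  have hp0 := hp.out.pos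
  rw [← Finset.sum_erase univ h0]
  refine sum_bij (fun j _ => (j : ZMod p)) ?_ ?_ ?_ (fun _ _ => rfl)
  · intro j hj
    obtain ⟨a, b⟩ := mem_Icc.mp hj
    refine mem_erase.mpr ⟨fun h => ?_, mem_univ _⟩
    have := Nat.le_of_dvd (by omega) ((ZMod.natCast_eq_zero_iff j p).mp h)
    omega
  · intro i hi j hj h
    obtain ⟨a, b⟩ := mem_Icc.mp hi
    obtain ⟨c, d⟩ := mem_Icc.mp hj
    have := congrArg ZMod.val h
    rwa [ZMod.val_cast_of_lt (by omega), ZMod.val_cast_of_lt (by omega)] at this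
  · intro x hx
    have hx0 := (mem_erase.mp hx).1
    have h1 : x.val ≠ 0 := fun h => hx0 ((ZMod.val_eq_zero x).mp h)
    have h3 := ZMod.val_lt x
    exact ⟨x.val, mem_Icc.mpr ⟨by omega, by omega⟩, ZMod.natCast_zmod_val x⟩

theorem cast_ne {j : ℕ} (hj : j ∈ Icc 1 (p - 1)) : (j : ZMod p) ≠ 0 := by
  have hp0 := hp.out.pos
  obtain ⟨a, b⟩ := mem_Icc.mp hj
  intro h
  have := Nat.le_of_dvd (by omega) ((ZMod.natCast_eq_zero_iff j p).mp h)
  omega

theorem ff_cast {j : ℕ} (hj : j ∈ Icc 1 (p - 1)) : ff p (j : ZMod p) = (-1) ^ j := by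
  have hp0 := hp.out.pos
  obtain ⟨a, b⟩ := mem_Icc.mp hj
  unfold ff
  rw [if_neg (cast_ne hj), ZMod.val_cast_of_lt (by omega)]

theorem term (h2 : 2 < p) {h j : ℕ} (hh : h ∈ Icc 1 (p - 1)) (hj : j ∈ Icc 1 (p - 1)) :
    (-1 : ℝ) ^ (j + 1 + h * j / p) =
      -((-1) ^ j * (-1) ^ (h * j) * ff p ((j : ZMod p) * (h : ZMod p))) := by
  have hodd : Odd p := hp.out.odd_of_ne_two (by omega)
  have hne : (j : ZMod p) * (h : ZMod p) ≠ 0 := mul_ne_zero (cast_ne hj) (cast_ne hh)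
  have hv : ((j : ZMod p) * (h : ZMod p)).val = h * j % p := by
    rw [← Nat.cast_mul, ZMod.val_natCast, mul_comm]
  unfold ff
  rw [if_neg hne, hv]
  have e : (-1 : ℝ) ^ (h * j) = (-1) ^ (h * j / p) * (-1) ^ (h * j % p) := by
    conv_lhs => rw [← Nat.div_add_mod (h * j) p]
    rw [pow_add, pow_mul, hodd.neg_one_pow]
  have e2 : (-1 : ℝ) ^ (h * j % p) * (-1) ^ (h * j % p) = 1 := by
    rw [← mul_pow]; simp
  rw [e, pow_add, pow_add]
  linear_combination (-1 : ℝ) ^ j * (-1) ^ (h * j / p) * e2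

theorem Shk_eq (h2 : 2 < p) {h : ℕ} (hh : h ∈ Icc 1 (p - 1)) :
    2 * (Shk h p : ℝ) = -((1 + ff p (h : ZMod p)) *
      ∑ x : ZMod p, ff p x * ff p (x * (h : ZMod p))) := by
  unfold Shk
  push_cast
  rw [sum_congr rfl fun j hj => term h2 hh hj, ff_cast hh]
  rcases Nat.even_or_odd h with he | ho
  · rw [← sum_zmod (fun x => ff p x * ff p (x * (h : ZMod p))) (by simp [ff_zero]),
      he.neg_one_pow, sum_neg_distrib]
    have e : ∀ j ∈ Icc 1 (p - 1), (-1 : ℝ) ^ j * (-1) ^ (h * j) * ff p ((j : ZMod p) * h) =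
        ff p (j : ZMod p) * ff p ((j : ZMod p) * h) := by
      intro j hj
      rw [ff_cast hj, pow_mul, he.neg_one_pow]
      simp
    rw [sum_congr rfl e]
    ring
  · have e : ∀ j ∈ Icc 1 (p - 1), -((-1 : ℝ) ^ j * (-1) ^ (h * j) * ff p ((j : ZMod p) * h)) =
        -ff p ((j : ZMod p) * h) := by
      intro j _
      rw [pow_mul, ho.neg_one_pow, ← mul_pow]
      simp
    rw [sum_congr rfl e, sum_neg_distrib,
      sum_zmod (fun x => ff p (x * (h : ZMod p))) (by simp [ff_zero]), sum_ff_mul h2,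
      ho.neg_one_pow]
    ring

theorem S_eq (h2 : 2 < p) :
    2 * (S p : ℝ) = -∑ h : ZMod p, ff p h * ∑ x : ZMod p, ff p x * ff p (x * h) := by
  unfold S
  push_cast
  rw [mul_sum, sum_congr rfl fun h hh => Shk_eq h2 hh, sum_neg_distrib,
    sum_zmod (fun h => (1 + ff p h) * ∑ x : ZMod p, ff p x * ff p (x * h)) (by simp [ff_zero])]
  simp only [add_mul, one_mul, sum_add_distrib]
  have e : ∑ h : ZMod p, ∑ x : ZMod p, ff p x * ff p (x * h) = 0 := by
    rw [sum_comm]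
    refine sum_eq_zero fun x _ => ?_
    rw [← mul_sum]
    simp only [mul_comm x]
    rw [sum_ff_mul h2, mul_zero]
  rw [e, zero_add]

theorem corr (h2 : 2 < p) (h : ZMod p) : ∑ x : ZMod p, ff p x * ff p (x * h) =
    8 * p / π ^ 2 * ∑ q ∈ Od p, ∑ w ∈ Od p, kk p q * kk p w *
      ((if h = (w : ZMod p) * (q : ZMod p)⁻¹ then 1 else 0) -
        if h = -((w : ZMod p) * (q : ZMod p)⁻¹) then 1 else 0) := by
  have h20 : (2 : ZMod p) ≠ 0 := by
    intro h0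
    have h1 : ((2 : ℕ) : ZMod p) = 0 := by exact_mod_cast h0
    have := Nat.le_of_dvd (by omega) ((ZMod.natCast_eq_zero_iff 2 p).mp h1)
    omega
  have e : ∀ x : ZMod p, ff p x * ff p (x * h) =
      16 / π ^ 2 * ∑ q ∈ Od p, ∑ w ∈ Od p, kk p q * kk p w *
        ((ee p (x * ((q : ZMod p) * h * (2 : ZMod p)⁻¹))).im *
          (ee p (x * ((w : ZMod p) * (2 : ZMod p)⁻¹))).im) := by
    intro x
    rw [fourier p h2 (x * h), fourier p h2 x]
    have e1 : ∑ q ∈ Od p, ∑ w ∈ Od p, kk p q * kk p w *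
        ((ee p (x * ((q : ZMod p) * h * (2 : ZMod p)⁻¹))).im *
          (ee p (x * ((w : ZMod p) * (2 : ZMod p)⁻¹))).im) =
        (∑ v ∈ Od p, kk p v * (ee p ((v : ZMod p) * (x * h) * (2 : ZMod p)⁻¹)).im) *
          ∑ v ∈ Od p, kk p v * (ee p ((v : ZMod p) * x * (2 : ZMod p)⁻¹)).im := by
      rw [sum_mul_sum]
      refine sum_congr rfl fun q _ => sum_congr rfl fun w _ => ?_
      rw [show x * ((q : ZMod p) * h * (2 : ZMod p)⁻¹) = (q : ZMod p) * (x * h) * 2⁻¹ by ring,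
        show x * ((w : ZMod p) * (2 : ZMod p)⁻¹) = (w : ZMod p) * x * 2⁻¹ by ring]
      ring
    rw [e1]
    ring
  simp only [e]
  rw [← mul_sum, sum_comm]
  have e2 : ∀ q ∈ Od p, ∑ x : ZMod p, ∑ w ∈ Od p, kk p q * kk p w *
        ((ee p (x * ((q : ZMod p) * h * (2 : ZMod p)⁻¹))).im *
          (ee p (x * ((w : ZMod p) * (2 : ZMod p)⁻¹))).im) =
      (p : ℝ) / 2 * ∑ w ∈ Od p, kk p q * kk p w *
      ((if h = (w : ZMod p) * (q : ZMod p)⁻¹ then 1 else 0) -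
        if h = -((w : ZMod p) * (q : ZMod p)⁻¹) then 1 else 0) := by
    intro q hq
    have hq0 : (q : ZMod p) ≠ 0 :=
      cast_ne (mem_Icc.mpr ⟨Od_pos hq, by have := (mem_Od.mp hq).1; omega⟩)
    rw [sum_comm, mul_sum]
    refine sum_congr rfl fun w _ => ?_
    rw [← mul_sum, orth]
    have i1 : (q : ZMod p) * h * (2 : ZMod p)⁻¹ = (w : ZMod p) * (2 : ZMod p)⁻¹ ↔
        h = (w : ZMod p) * (q : ZMod p)⁻¹ := by
      rw [mul_left_inj' (inv_ne_zero h20), eq_mul_inv_iff_mul_eq₀ hq0, mul_comm]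
    have i2 : (q : ZMod p) * h * (2 : ZMod p)⁻¹ = -((w : ZMod p) * (2 : ZMod p)⁻¹) ↔
        h = -((w : ZMod p) * (q : ZMod p)⁻¹) := by
      rw [← neg_mul, ← neg_mul, mul_left_inj' (inv_ne_zero h20), eq_mul_inv_iff_mul_eq₀ hq0,
        mul_comm]
    simp only [i1, i2]
    ring
  rw [sum_congr rfl e2, ← mul_sum]
  ring

end Id

theorem ident : IdStmt := by
  intro p hp h2
  have k := S_eq (p := p) h2
  simp only [corr h2] at k
  have e : ∑ h : ZMod p, ff p h * (8 * p / π ^ 2 * ∑ q ∈ Od p, ∑ w ∈ Od p, kk p q * kk p w *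
      ((if h = (w : ZMod p) * (q : ZMod p)⁻¹ then 1 else 0) -
        if h = -((w : ZMod p) * (q : ZMod p)⁻¹) then 1 else 0)) =
      2 * (8 * p / π ^ 2) * ∑ q ∈ Od p, kk p q * FF p q := by
    simp only [mul_sum]
    rw [sum_comm]
    refine sum_congr rfl fun q _ => ?_
    rw [sum_comm]
    unfold FF
    rw [mul_sum, mul_sum]
    refine sum_congr rfl fun w _ => ?_
    have e1 : ∀ h : ZMod p, ff p h * (8 * p / π ^ 2 * (kk p q * kk p w *
        ((if h = (w : ZMod p) * (q : ZMod p)⁻¹ then 1 else 0) -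
          if h = -((w : ZMod p) * (q : ZMod p)⁻¹) then 1 else 0))) =
        8 * p / π ^ 2 * (kk p q * kk p w) *
          ((if h = (w : ZMod p) * (q : ZMod p)⁻¹ then ff p h else 0) -
            if h = -((w : ZMod p) * (q : ZMod p)⁻¹) then ff p h else 0) := by
      intro h
      split_ifs <;> ring
    simp only [e1]
    rw [← mul_sum, sum_sub_distrib, sum_ite_eq', sum_ite_eq', if_pos (mem_univ _),
      if_pos (mem_univ _), ff_neg h2]
    ring
  rw [e] at k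
  linarith

end Pool.Agent.MP_a9857c_nt.H82.Fourier
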