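import Pool.Agent.MP_a9857c_nt.H82.Defs

set_option autoImplicit false

open Finset Real Filter

namespace Pool.Agent.MP_a9857c_nt.H82.Klo

theorem mem_II {p K k x : ℕ} : x ∈ II p K k ↔ x < p ∧ x.Prime ∧
    (p : ℝ) * exp (log p / (8 * K)) ≤ (x : ℝ) ^ (2 * k) ∧ k * x ^ (2 * k - 1) < p := by
  simp [II]

theorem II_low {p K k x : ℕ} (h : x ∈ II p K k) : p ≤ x ^ (2 * k) := by
  obtain ⟨-, -, h3, -⟩ := mem_II.mp h
  have h1 : 1 ≤ exp (log p / (8 * K)) :=
    one_le_exp (div_nonneg (log_natCast_nonneg p) (by positivity))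
  have h2 : (p : ℝ) ≤ (x : ℝ) ^ (2 * k) :=
    le_trans (le_mul_of_one_le_right (Nat.cast_nonneg p) h1) h3
  exact_mod_cast h2

theorem II_high {p K k x : ℕ} (hk : 1 ≤ k) (h : x ∈ II p K k) : x ^ (2 * k - 1) < p := by
  obtain ⟨-, -, -, h4⟩ := mem_II.mp h
  exact lt_of_le_of_lt (Nat.le_mul_of_pos_left _ hk) h4

theorem II_disj {p K k l : ℕ} (hk : 1 ≤ k) (hl : 1 ≤ l) (hne : k ≠ l) :
    Disjoint (II p K k) (II p K l) := by
  have key : ∀ k l : ℕ, 1 ≤ l → k < l → ∀ x, x ∈ II p K k → x ∈ II p K l → False := by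
    intro k l hl hkl x h1 h2
    have a1 := II_low h1
    have a2 := II_high hl h2
    have a3 : x ^ (2 * k) ≤ x ^ (2 * l - 1) :=
      Nat.pow_le_pow_right (mem_II.mp h1).2.1.pos (by omega)
    omega
  rw [disjoint_left]
  intro x h1 h2
  rcases lt_or_gt_of_ne hne with h | h
  · exact key k l hl h x h1 h2
  · exact key l k hk h x h2 h1

theorem II_log_le {p K k x : ℕ} (hk : 1 ≤ k) (h : x ∈ II p K k) : log x ≤ log p / k := by
  have hx := (mem_II.mp h).2.1.pos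
  have a1 : x ^ k ≤ p := (Nat.pow_le_pow_right hx (by omega)).trans (II_high hk h).le
  have a2 : ((x : ℝ)) ^ k ≤ p := by exact_mod_cast a1
  have a3 := log_le_log (by positivity) a2
  rw [log_pow] at a3
  rw [le_div_iff₀ (by exact_mod_cast hk)]
  linarith

theorem II_le_log {p K k x : ℕ} (hp : 0 < p) (hk : k ≤ K) (h : x ∈ II p K k) :
    log p ≤ 2 * K * log x := by
  have hx := (mem_II.mp h).2.1.pos
  have a1 : p ≤ x ^ (2 * K) := (II_low h).trans (Nat.pow_le_pow_right hx (by omega))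
  have a2 : (p : ℝ) ≤ (x : ℝ) ^ (2 * K) := by exact_mod_cast a1
  have a3 := log_le_log (by exact_mod_cast hp) a2
  rw [log_pow] at a3
  push_cast at a3
  exact a3

theorem II_odd {p K k x : ℕ} (hp : 0 < p) (hK : 2 ≤ K) (hL : (K : ℝ) ^ 8 ≤ log p) (hk : k ≤ K)
    (h : x ∈ II p K k) : Odd x := by
  refine (mem_II.mp h).2.1.odd_of_ne_two ?_
  rintro rfl
  have a1 := II_le_log hp hk h
  have a2 : log ((2 : ℕ) : ℝ) ≤ 1 := by
    have := log_two_lt_d9
    push_cast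
    linarith
  have hK' : (2 : ℝ) ≤ K := by exact_mod_cast hK
  have a3 : (2 : ℝ) ^ 7 ≤ (K : ℝ) ^ 7 := pow_le_pow_left₀ (by norm_num) hK' 7
  have a4 : (K : ℝ) ^ 8 = (K : ℝ) ^ 7 * K := by ring
  nlinarith

theorem prod_lower (R : ℕ) (T : Finset ℕ) (f : ℕ → ℕ) (hT : T = (range R).image f)
    (hf : Function.Injective f) (hle : ∀ i, 1 ≤ f i ∧ f i ≤ 2 * (i + 1)) (σ : ℕ → ℝ)
    (hσ : ∀ t ∈ T, 1 / (64 * (t : ℝ)) ≤ σ t) :
    exp (log (R + 1) / 256) ≤ ∏ t ∈ T, (1 + σ t) := by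
  have h1 : log (R + 1) ≤ ∑ i ∈ range R, (1 : ℝ) / (i + 1) := by
    have := log_add_one_le_harmonic R
    rw [harmonic] at this
    push_cast at this
    simpa [one_div] using this
  have h2 : exp (log (R + 1) / 256) ≤ exp (∑ i ∈ range R, (1 : ℝ) / (i + 1) / 256) := by
    rw [exp_le_exp, ← sum_div]
    linarith
  refine h2.trans ?_
  rw [exp_sum, hT, prod_image (fun a _ b _ h => hf h)]
  refine prod_le_prod (fun _ _ => (exp_pos _).le) ?_
  intro i hi
  have hi0 : (0 : ℝ) ≤ i := Nat.cast_nonneg i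
  have a1 := hσ (f i) (hT ▸ mem_image_of_mem f hi)
  have a2 : (1 : ℝ) ≤ f i := by exact_mod_cast (hle i).1
  have a3 : (f i : ℝ) ≤ 2 * (i + 1) := by exact_mod_cast (hle i).2
  have a4 : (1 : ℝ) / (i + 1) / 128 ≤ 1 / (64 * (f i : ℝ)) := by
    rw [div_div]
    exact one_div_le_one_div_of_le (by positivity) (by linarith)
  have a5 : (1 : ℝ) / (i + 1) ≤ 1 := by
    rw [div_le_one (by positivity)]
    linarith
  have a6 : (0 : ℝ) ≤ 1 / (i + 1) := by positivity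
  have a7 := exp_bound_div_one_sub_of_interval (x := (1 : ℝ) / (i + 1) / 256) (by positivity)
    (by linarith)
  have a8 : 1 / (1 - (1 : ℝ) / (i + 1) / 256) ≤ 1 + (1 : ℝ) / (i + 1) / 128 := by
    rw [div_le_iff₀ (by linarith)]
    nlinarith
  linarith

theorem exc_bound (hS : ExcStmt) {p R : ℕ} (hp : 1 ≤ p) (hL : 1 ≤ log p) (T : Finset ℕ)
    (f : ℕ → ℕ) (hT : T = (range R).image f) (hf : Function.Injective f)
    (hle : ∀ i, 1 ≤ f i ∧ f i ≤ 2 * (i + 1))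
    (hσ : ∀ t ∈ T, 1 / (64 * (t : ℝ)) ≤ ∑ x ∈ II p (2 * R) t, (1 : ℝ) / x) :
    ∑ q ∈ (Ico 1 p).filter (fun q => om (T.biUnion (II p (2 * R))) q = 0), (1 : ℝ) / q ≤
      3 * log p * (1 + log (2 * R + 2)) * exp (-(log (R + 1) / 256)) := by
  have hT1 : ∀ t ∈ T, 1 ≤ t ∧ t ≤ 2 * R := by
    intro t ht
    rw [hT] at ht
    obtain ⟨i, hi, rfl⟩ := mem_image.mp ht
    have := mem_range.mp hi
    have := hle i
    omega
  have h1 := hS T (II p (2 * R)) (fun k => log p / k) p hp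
    (fun t _ => div_nonneg (by linarith) (Nat.cast_nonneg t))
    (fun t ht x hx => ⟨(mem_II.mp hx).2.1, II_log_le (hT1 t ht).1 hx⟩)
    (fun a ha b hb hab => II_disj (hT1 a ha).1 (hT1 b hb).1 hab)
  have h2 := prod_lower R T f hT hf hle _ hσ
  have h3 : ∑ t ∈ T, log p / (t : ℝ) ≤ log p * (1 + log (2 * R + 2)) := by
    have a1 : ∑ t ∈ T, (1 : ℝ) / t ≤ ∑ t ∈ Ico 1 (2 * R + 2), (1 : ℝ) / t :=
      sum_le_sum_of_subset_of_nonneg (fun t ht => mem_Ico.mpr (by have := hT1 t ht; omega))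
        (fun _ _ _ => by positivity)
    have a2 := sum_inv_le (2 * R + 2)
    push_cast at a2
    calc ∑ t ∈ T, log p / (t : ℝ) = log p * ∑ t ∈ T, (1 : ℝ) / t := by
          rw [mul_sum]
          exact sum_congr rfl fun t _ => by ring
      _ ≤ log p * (1 + log (2 * R + 2)) := mul_le_mul_of_nonneg_left (a1.trans a2) (by linarith)
  have h4 : 0 ≤ log (2 * (R : ℝ) + 2) := log_nonneg (by linarith [Nat.cast_nonneg (α := ℝ) R])
  set E := ∑ q ∈ (Ico 1 p).filter (fun q => om (T.biUnion (II p (2 * R))) q = 0), (1 : ℝ) / q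
  have hE : 0 ≤ E := sum_nonneg fun _ _ => by positivity
  have h5 : exp (log (R + 1) / 256) * E ≤ 3 * log p * (1 + log (2 * R + 2)) := by
    have := mul_le_mul_of_nonneg_right h2 hE
    nlinarith
  rw [exp_neg, ← div_eq_mul_inv, le_div_iff₀ (exp_pos _)]
  linarith

theorem sq_bound {p K : ℕ} (hp : 0 < p) (hK : 1 ≤ K) (T : Finset ℕ) (hT : ∀ t ∈ T, t ≤ K) :
    ∑ x ∈ T.biUnion (II p K), (1 : ℝ) / x ≤ HH p ∧
    ∑ x ∈ T.biUnion (II p K), (1 : ℝ) / x ^ 2 ≤ HH p * exp (-(log p / (2 * K))) := by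
  have h1 : ∑ x ∈ T.biUnion (II p K), (1 : ℝ) / x ≤ HH p := by
    refine le_trans (sum_le_sum_of_subset_of_nonneg ?_ (fun _ _ _ => by positivity))
      (sum_inv_le p)
    intro x hx
    obtain ⟨t, -, hx⟩ := mem_biUnion.mp hx
    exact mem_Ico.mpr ⟨(mem_II.mp hx).2.1.pos, (mem_II.mp hx).1⟩
  refine ⟨h1, le_trans ?_ (mul_le_mul_of_nonneg_right h1 (exp_pos _).le)⟩
  rw [sum_mul]
  refine sum_le_sum fun x hx => ?_
  obtain ⟨t, ht, hx⟩ := mem_biUnion.mp hx
  have hx0 : (0 : ℝ) < x := by exact_mod_cast (mem_II.mp hx).2.1.pos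
  have hK' : (0 : ℝ) < K := by exact_mod_cast hK
  have a1 := II_le_log hp (hT t ht) hx
  have a2 : (1 : ℝ) / x ≤ exp (-(log p / (2 * K))) := by
    rw [one_div, ← exp_log hx0, ← exp_neg, exp_le_exp, neg_le_neg_iff,
      div_le_iff₀ (by positivity)]
    linarith
  calc (1 : ℝ) / x ^ 2 = 1 / x * (1 / x) := by ring
    _ ≤ _ := mul_le_mul_of_nonneg_left a2 (by positivity)

/-- The sequence to which the identity is applied. -/
noncomputable def aa (p : ℕ) [Fact p.Prime] (a : ZMod p) (q : ℕ) : ℂ :=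
  if q ∈ Od p then ((1 / q - 1 / p : ℝ) : ℂ) * ee p (a * (q : ZMod p)⁻¹) else 0

theorem aa_mul (p : ℕ) [Fact p.Prime] (a : ZMod p) {x y m : ℕ} (hx : Odd x) (hy : Odd y)
    (hm : 1 ≤ m) : aa p a (x * y * m) = (if Odd m then ((1 / m : ℝ) : ℂ) else 0) *
      (((max (1 - (x * y * m : ℝ) / p) 0 / (x * y) : ℝ) : ℂ) *
        ee p (a * (m : ZMod p)⁻¹ * (x : ZMod p)⁻¹ * (y : ZMod p)⁻¹)) := by
  have hp : (0 : ℝ) < p := by exact_mod_cast (Fact.out : p.Prime).pos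
  have hx0 : (0 : ℝ) < x := by exact_mod_cast hx.pos
  have hy0 : (0 : ℝ) < y := by exact_mod_cast hy.pos
  have hm0 : (0 : ℝ) < m := by exact_mod_cast hm
  unfold aa
  by_cases ho : Odd m
  · rw [if_pos ho]
    by_cases hlt : x * y * m < p
    · rw [if_pos (mem_Od.mpr ⟨hlt, (hx.mul hy).mul ho⟩)]
      have h1 : (x * y * m : ℝ) < p := by exact_mod_cast hlt
      have h2 : 0 ≤ 1 - (x * y * m : ℝ) / p := by
        rw [sub_nonneg, div_le_one hp]
        exact h1.le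
      have h3 : a * ((x * y * m : ℕ) : ZMod p)⁻¹ =
          a * (m : ZMod p)⁻¹ * (x : ZMod p)⁻¹ * (y : ZMod p)⁻¹ := by
        push_cast
        rw [mul_inv, mul_inv]
        ring
      have h4 : (1 / ((x * y * m : ℕ) : ℝ) - 1 / p : ℝ) =
          1 / m * ((1 - (x * y * m : ℝ) / p) / (x * y)) := by
        push_cast
        field_simp
      rw [max_eq_left h2, h3, h4, Complex.ofReal_mul, mul_assoc]
    · rw [if_neg (fun h => hlt (mem_Od.mp h).1)]
      have h1 : (p : ℝ) ≤ x * y * m := by exact_mod_cast not_lt.mp hlt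
      have h2 : 1 - (x * y * m : ℝ) / p ≤ 0 := by
        rw [sub_nonpos, one_le_div hp]
        exact h1
      rw [max_eq_right h2]
      simp
  · rw [if_neg ho, if_neg, zero_mul]
    intro h
    exact ho (Nat.Odd.of_mul_right (mem_Od.mp h).2)

theorem main_bound (hB : MainBilStmt) (p : ℕ) [Fact p.Prime] (a : ZMod p) (ha : a ≠ 0) (K : ℕ)
    (hK : 2 ≤ K) (hL : (K : ℝ) ^ 8 ≤ log p) (T U : Finset ℕ) (hT : T ⊆ Icc 1 K)
    (hU : U ⊆ Icc 1 K) (w : ℕ → ℂ) (hw : ∀ m, 1 ≤ ‖w m‖) :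
    ‖∑ x ∈ T.biUnion (II p K), ∑ y ∈ U.biUnion (II p K), ∑ m ∈ Ico 1 p,
        aa p a (x * y * m) / w m‖ ≤ HH p ^ 4 * (K : ℝ) ^ 3 * exp (-(log p / (16 * (K : ℝ) ^ 3))) := by
  have hp : 0 < p := (Fact.out : p.Prime).pos
  have hd : ∀ V : Finset ℕ, V ⊆ Icc 1 K → (V : Set ℕ).PairwiseDisjoint (II p K) :=
    fun V hV a ha b hb hab => II_disj (mem_Icc.mp (hV ha)).1 (mem_Icc.mp (hV hb)).1 hab
  set D := HH p ^ 3 * K * exp (-(log p / (16 * (K : ℝ) ^ 3))) with hD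
  have hH : 1 ≤ HH p := by
    unfold HH
    linarith [log_natCast_nonneg p]
  have hD0 : 0 ≤ D := by positivity
  have e1 : ∑ x ∈ T.biUnion (II p K), ∑ y ∈ U.biUnion (II p K), ∑ m ∈ Ico 1 p,
      aa p a (x * y * m) / w m = ∑ m ∈ Ico 1 p, ∑ k ∈ T, ∑ l ∈ U,
        (∑ x ∈ II p K k, ∑ y ∈ II p K l, aa p a (x * y * m)) / w m := by
    refine ((sum_congr rfl fun x _ => sum_comm).trans sum_comm).trans ?_
    refine sum_congr rfl fun m _ => ?_
    rw [sum_biUnion (hd T hT)]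
    refine sum_congr rfl fun k _ => ?_
    simp_rw [sum_biUnion (hd U hU)]
    rw [sum_comm]
    refine sum_congr rfl fun l _ => ?_
    simp_rw [sum_div]
  rw [e1]
  have hc : ∀ V : Finset ℕ, V ⊆ Icc 1 K → (V.card : ℝ) ≤ K := by
    intro V hV
    have := card_le_card hV
    rw [Nat.card_Icc] at this
    exact_mod_cast (by omega : V.card ≤ K)
  have e2 : ∀ m ∈ Ico 1 p, ∀ k ∈ T, ∀ l ∈ U,
      ‖(∑ x ∈ II p K k, ∑ y ∈ II p K l, aa p a (x * y * m)) / w m‖ ≤ 1 / m * D := by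
    intro m hm k hk l hl
    obtain ⟨m1, m2⟩ := mem_Ico.mp hm
    obtain ⟨k1, k2⟩ := mem_Icc.mp (hT hk)
    obtain ⟨l1, l2⟩ := mem_Icc.mp (hU hl)
    have hm0 : (m : ZMod p) ≠ 0 := by
      rw [Ne, ZMod.natCast_eq_zero_iff]
      exact Nat.not_dvd_of_pos_of_lt m1 m2
    have b1 := hB p (a * (m : ZMod p)⁻¹) K k l m (mul_ne_zero ha (inv_ne_zero hm0)) hK hL
      k1 k2 l1 l2 m1
    have b2 : ∑ x ∈ II p K k, ∑ y ∈ II p K l, aa p a (x * y * m) =
        (if Odd m then ((1 / m : ℝ) : ℂ) else 0) * ∑ x ∈ II p K k, ∑ y ∈ II p K l,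
          ((max (1 - (x * y * m : ℝ) / p) 0 / (x * y) : ℝ) : ℂ) *
            ee p (a * (m : ZMod p)⁻¹ * (x : ZMod p)⁻¹ * (y : ZMod p)⁻¹) := by
      rw [mul_sum]
      refine sum_congr rfl fun x hx => ?_
      rw [mul_sum]
      exact sum_congr rfl fun y hy =>
        aa_mul p a (II_odd hp hK hL k2 hx) (II_odd hp hK hL l2 hy) m1
    have b3 : ‖(if Odd m then ((1 / m : ℝ) : ℂ) else 0)‖ ≤ 1 / m := by
      split_ifs
      · rw [Complex.norm_real, Real.norm_of_nonneg (by positivity)]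
      · rw [norm_zero]
        positivity
    rw [norm_div, b2, norm_mul]
    exact (div_le_self (by positivity) (hw m)).trans
      (mul_le_mul b3 b1 (norm_nonneg _) (by positivity))
  have hK0 : (0 : ℝ) ≤ K := Nat.cast_nonneg K
  calc _ ≤ ∑ m ∈ Ico 1 p, (K : ℝ) * (K * (1 / m * D)) := by
        refine norm_sum_le_of_le _ fun m hm => ?_
        have hmD : 0 ≤ 1 / (m : ℝ) * D := by positivity
        refine (norm_sum_le_of_le _ (n := fun _ => (K : ℝ) * (1 / m * D)) fun k hk => ?_).trans ?_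
        · refine (norm_sum_le_of_le _ fun l hl => e2 m hm k hk l hl).trans ?_
          rw [sum_const, nsmul_eq_mul]
          exact mul_le_mul_of_nonneg_right (hc U hU) hmD
        · rw [sum_const, nsmul_eq_mul]
          exact mul_le_mul_of_nonneg_right (hc T hT) (by positivity)
    _ = (∑ m ∈ Ico 1 p, (1 : ℝ) / m) * (K * K * D) := by
        rw [sum_mul]
        exact sum_congr rfl fun m _ => by ring
    _ ≤ HH p * (K * K * D) := mul_le_mul_of_nonneg_right (sum_inv_le p) (by positivity)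
    _ = _ := by rw [hD]; ring

theorem klo_bound (hB : MainBilStmt) (hE : ExcStmt) (hR : RamStmt) (p : ℕ) [Fact p.Prime]
    (a : ZMod p) (ha : a ≠ 0) (R : ℕ) (hR1 : 1 ≤ R) (hL : ((2 * R : ℕ) : ℝ) ^ 8 ≤ log p)
    (hσ : ∀ k, 1 ≤ k → k ≤ 2 * R → 1 / (64 * (k : ℝ)) ≤ ∑ x ∈ II p (2 * R) k, (1 : ℝ) / x) :
    ‖∑ q ∈ Od p, ((1 / q - 1 / p : ℝ) : ℂ) * ee p (a * (q : ZMod p)⁻¹)‖ ≤
      6 * log p * (1 + log (2 * R + 2)) * exp (-(log (R + 1) / 256)) +
        48 * log p ^ 5 * exp (-(√(log p) / 16)) := by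
  have hp : 0 < p := (Fact.out : p.Prime).pos
  have hp' : (0 : ℝ) < p := by exact_mod_cast hp
  set K := 2 * R with hKdef
  have hK : 2 ≤ K := by omega
  have hK' : (2 : ℝ) ≤ K := by exact_mod_cast hK
  have hK1 : (1 : ℝ) ≤ K := by linarith
  have hL1 : 1 ≤ log p := (one_le_pow₀ hK1).trans hL
  set T := (range R).image (fun i => 2 * i + 1) with hT
  set U := (range R).image (fun i => 2 * i + 2) with hU
  have hT1 : T ⊆ Icc 1 K := by
    intro t ht
    obtain ⟨i, hi, rfl⟩ := mem_image.mp ht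
    have := mem_range.mp hi
    exact mem_Icc.mpr (by omega)
  have hU1 : U ⊆ Icc 1 K := by
    intro t ht
    obtain ⟨i, hi, rfl⟩ := mem_image.mp ht
    have := mem_range.mp hi
    exact mem_Icc.mpr (by omega)
  have hpr : ∀ V : Finset ℕ, ∀ x ∈ V.biUnion (II p K), x.Prime := by
    intro V x hx
    obtain ⟨t, -, hx⟩ := mem_biUnion.mp hx
    exact (mem_II.mp hx).2.1
  have hdis : Disjoint (T.biUnion (II p K)) (U.biUnion (II p K)) := by
    rw [disjoint_biUnion_left]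
    intro k hk
    rw [disjoint_biUnion_right]
    intro l hl
    refine II_disj (mem_Icc.mp (hT1 hk)).1 (mem_Icc.mp (hU1 hl)).1 ?_
    obtain ⟨i, -, rfl⟩ := mem_image.mp hk
    obtain ⟨j, -, rfl⟩ := mem_image.mp hl
    omega
  have h1 := hR _ _ (aa p a) p (hpr T) (hpr U) hdis (fun q => by
      unfold aa
      split_ifs with h
      · have q1 : (0 : ℝ) < q := by exact_mod_cast Od_pos h
        have q2 : (q : ℝ) ≤ p := by exact_mod_cast (mem_Od.mp h).1.le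
        have q3 := one_div_le_one_div_of_le q1 q2
        rw [norm_mul, norm_ee, mul_one, Complex.norm_real, Real.norm_of_nonneg (by linarith)]
        have : (0 : ℝ) ≤ 1 / p := by positivity
        linarith
      · rw [norm_zero]
        positivity)
    (fun q hq => if_neg fun h => absurd (mem_Od.mp h).1 (not_lt.mpr hq))
  have h2 := main_bound hB p a ha K hK hL T U hT1 hU1
    (fun m => ((om (T.biUnion (II p K)) m : ℂ) + 1) * ((om (U.biUnion (II p K)) m : ℂ) + 1))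
    (fun m => by
      have c : ∀ n : ℕ, 1 ≤ ‖(n : ℂ) + 1‖ := by
        intro n
        rw [← Nat.cast_succ, Complex.norm_natCast]
        exact_mod_cast Nat.succ_pos n
      rw [norm_mul]
      exact one_le_mul_of_one_le_of_one_le (c _) (c _))
  have h3 := exc_bound hE hp hL1 T _ hT (fun i j h => by simpa using h) (fun i => by omega)
    (fun t ht => hσ t (mem_Icc.mp (hT1 ht)).1 (mem_Icc.mp (hT1 ht)).2)
  have h4 := exc_bound hE hp hL1 U _ hU (fun i j h => by simpa using h) (fun i => by omega)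
    (fun t ht => hσ t (mem_Icc.mp (hU1 ht)).1 (mem_Icc.mp (hU1 ht)).2)
  obtain ⟨h5, h6⟩ := sq_bound hp (by omega : 1 ≤ K) T (fun t ht => (mem_Icc.mp (hT1 ht)).2)
  obtain ⟨h7, h8⟩ := sq_bound hp (by omega : 1 ≤ K) U (fun t ht => (mem_Icc.mp (hU1 ht)).2)
  have e1 : ∑ q ∈ Od p, ((1 / q - 1 / p : ℝ) : ℂ) * ee p (a * (q : ZMod p)⁻¹) =
      ∑ q ∈ Ico 1 p, aa p a q := by
    unfold aa
    rw [← sum_filter, filter_mem_eq_inter, inter_eq_right.mpr (Od_subset p)]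
  set X := exp (-(√(log p) / 16)) with hX
  have hX0 : 0 < X := exp_pos _
  have s0 : 0 < √(log p) := sqrt_pos.mpr (by linarith)
  have s1 : (K : ℝ) ^ 4 ≤ √(log p) := le_sqrt_of_sq_le (by rw [← pow_mul]; exact hL)
  have s2 : (K : ℝ) ^ 3 ≤ (K : ℝ) ^ 4 := pow_le_pow_right₀ hK1 (by norm_num)
  have s3 : √(log p) * √(log p) = log p := mul_self_sqrt (by linarith)
  have s4 : (K : ℝ) ≤ (K : ℝ) ^ 3 := le_self_pow₀ hK1 (by norm_num)
  have s5 : exp (-(log p / (16 * (K : ℝ) ^ 3))) ≤ X := by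
    rw [hX, exp_le_exp, neg_le_neg_iff, div_le_div_iff₀ (by norm_num) (by positivity)]
    nlinarith
  have s6 : exp (-(log p / (2 * (K : ℝ)))) ≤ X := by
    rw [hX, exp_le_exp, neg_le_neg_iff, div_le_div_iff₀ (by norm_num) (by positivity)]
    nlinarith
  have s7 : (K : ℝ) ^ 3 ≤ log p := (pow_le_pow_right₀ hK1 (by norm_num)).trans hL
  have hH : HH p ≤ 2 * log p := by
    unfold HH
    linarith
  have hH0 : 0 ≤ HH p := by
    unfold HH
    linarith
  have g1 : HH p ^ 4 * (K : ℝ) ^ 3 * exp (-(log p / (16 * (K : ℝ) ^ 3))) ≤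
      16 * log p ^ 5 * X := by
    calc _ ≤ (2 * log p) ^ 4 * log p * X := by gcongr
      _ = _ := by ring
  have g2 : ((∑ x ∈ T.biUnion (II p K), (1 : ℝ) / x ^ 2) * (∑ y ∈ U.biUnion (II p K), (1 : ℝ) / y) +
      (∑ x ∈ T.biUnion (II p K), (1 : ℝ) / x) * (∑ y ∈ U.biUnion (II p K), (1 : ℝ) / y ^ 2)) *
        (1 + log p) ≤ 16 * log p ^ 5 * X := by
    have n1 : 0 ≤ ∑ y ∈ U.biUnion (II p K), (1 : ℝ) / y := sum_nonneg fun _ _ => by positivity
    have n2 : 0 ≤ ∑ y ∈ U.biUnion (II p K), (1 : ℝ) / y ^ 2 :=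
      sum_nonneg fun _ _ => by positivity
    have n3 : log p ^ 3 ≤ log p ^ 5 := pow_le_pow_right₀ hL1 (by norm_num)
    calc _ ≤ ((2 * log p * X) * (2 * log p) + (2 * log p) * (2 * log p * X)) * (2 * log p) := by
          have c1 : HH p * exp (-(log p / (2 * (K : ℝ)))) ≤ 2 * log p * X := by gcongr
          gcongr
          · exact h6.trans c1
          · exact h7.trans hH
          · exact h5.trans hH
          · exact h8.trans c1
          · linarith
      _ = 16 * log p ^ 3 * X := by ring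
      _ ≤ _ := by gcongr
  have g3 : 0 ≤ log p ^ 5 * X := by positivity
  rw [e1]
  have t := norm_le_norm_sub_add (∑ q ∈ Ico 1 p, aa p a q)
    (∑ x ∈ T.biUnion (II p K), ∑ y ∈ U.biUnion (II p K), ∑ m ∈ Ico 1 p, aa p a (x * y * m) /
      (((om (T.biUnion (II p K)) m : ℂ) + 1) * ((om (U.biUnion (II p K)) m : ℂ) + 1)))
  linarith

theorem tend (n : ℕ) (c : ℝ) (hc : 0 < c) :
    Tendsto (fun u : ℝ => u ^ n * exp (-(u / c))) atTop (nhds 0) := by
  have h := (tendsto_pow_mul_exp_neg_atTop_nhds_zero n).comp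
    (tendsto_id.atTop_div_const hc)
  have h2 := h.const_mul (c ^ n)
  rw [mul_zero] at h2
  refine h2.congr fun u => ?_
  simp only [Function.comp, id, div_pow]
  field_simp

theorem params (ε : ℝ) (hε : 0 < ε) (K₀ : ℕ) : ∃ L₀ : ℝ, ∀ L : ℝ, L₀ ≤ L → ∃ R : ℕ,
    1 ≤ R ∧ K₀ ≤ 2 * R ∧ ((2 * R : ℕ) : ℝ) ^ 8 ≤ L ∧
    (6 * L * (1 + log (2 * R + 2)) * exp (-(log (R + 1) / 256)) +
      48 * L ^ 5 * exp (-(√L / 16))) * log L ^ 2 ≤ ε * L := by
  obtain ⟨u₀, hu⟩ := eventually_atTop.mp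
    ((tend 3 256 (by norm_num)).eventually (ge_mem_nhds (show 0 < ε / 3072 by positivity)))
  obtain ⟨v₀, hv⟩ := eventually_atTop.mp
    ((tend 12 16 (by norm_num)).eventually (ge_mem_nhds (show 0 < ε / 96 by positivity)))
  obtain ⟨R₀, hR₀⟩ := exists_nat_ge (exp (max u₀ 1))
  refine ⟨max (max (((2 * (R₀ + K₀ + 1) : ℕ) : ℝ) ^ 8) (v₀ ^ 2)) 1, fun L hL => ?_⟩
  have hL1 : 1 ≤ L := (le_max_right _ _).trans hL
  have hL2 : v₀ ^ 2 ≤ L := ((le_max_right _ _).trans (le_max_left _ _)).trans hL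
  have hL3 : ((2 * (R₀ + K₀ + 1) : ℕ) : ℝ) ^ 8 ≤ L :=
    ((le_max_left _ _).trans (le_max_left _ _)).trans hL
  have hex : ∃ n : ℕ, L < ((2 * (n + 1) : ℕ) : ℝ) ^ 8 := by
    obtain ⟨n, hn⟩ := exists_nat_gt L
    refine ⟨n, hn.trans_le ?_⟩
    have a1 : (n : ℝ) ≤ ((2 * (n + 1) : ℕ) : ℝ) := by exact_mod_cast (by omega)
    have a2 : (1 : ℝ) ≤ ((2 * (n + 1) : ℕ) : ℝ) := by exact_mod_cast (by omega)
    exact a1.trans (le_self_pow₀ a2 (by norm_num))
  set R := Nat.find hex with hR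
  have r1 : L < ((2 * (R + 1) : ℕ) : ℝ) ^ 8 := Nat.find_spec hex
  have r2 : R₀ + K₀ + 1 ≤ R := by
    by_contra hc
    have a1 : ((2 * (R + 1) : ℕ) : ℝ) ≤ ((2 * (R₀ + K₀ + 1) : ℕ) : ℝ) := by
      exact_mod_cast (by omega)
    have := pow_le_pow_left₀ (Nat.cast_nonneg _) a1 8
    linarith
  have r3 : ((2 * R : ℕ) : ℝ) ^ 8 ≤ L := by
    have := Nat.find_min hex (m := R - 1) (by omega)
    rw [show R - 1 + 1 = R by omega] at this
    exact not_lt.mp this
  refine ⟨R, by omega, by omega, r3, ?_⟩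
  have hR0 : (0 : ℝ) ≤ R := Nat.cast_nonneg R
  set u := log (2 * (R : ℝ) + 2) with hudef
  have u1 : max u₀ 1 ≤ u := by
    rw [hudef, le_log_iff_exp_le (by linarith)]
    have : (R₀ : ℝ) ≤ R := by exact_mod_cast (by omega)
    linarith
  have u2 : 1 ≤ u := (le_max_right _ _).trans u1
  have u3 := hu u ((le_max_left _ _).trans u1)
  have l0 : 0 ≤ log L := log_nonneg hL1
  have l1 : log L ≤ 8 * u := by
    have := log_le_log (by linarith) r1.le
    rw [log_pow] at this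
    push_cast at this
    rw [show 2 * ((R : ℝ) + 1) = 2 * R + 2 by ring] at this
    exact this
  have l2 : exp (-(log (R + 1) / 256)) ≤ 2 * exp (-(u / 256)) := by
    have a1 : u = log 2 + log (R + 1) := by
      rw [hudef, ← log_mul (by norm_num) (by linarith)]
      congr 1
      ring
    have a2 : 0 ≤ log 2 := log_nonneg (by norm_num)
    calc exp (-(log (R + 1) / 256)) ≤ exp (log 2 + -(u / 256)) := by
          rw [exp_le_exp]
          linarith
      _ = _ := by rw [exp_add, exp_log (by norm_num)]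
  have t1 : 6 * L * (1 + u) * exp (-(log (R + 1) / 256)) * log L ^ 2 ≤ ε / 2 * L := by
    calc _ ≤ 6 * L * (2 * u) * (2 * exp (-(u / 256))) * (8 * u) ^ 2 := by
          gcongr
          linarith
      _ = 1536 * (u ^ 3 * exp (-(u / 256))) * L := by ring
      _ ≤ 1536 * (ε / 3072) * L := by gcongr
      _ = _ := by ring
  have t2 : 48 * L ^ 5 * exp (-(√L / 16)) * log L ^ 2 ≤ ε / 2 * L := by
    have a1 := hv √L (le_sqrt_of_sq_le hL2)
    have a2 : √L ^ 12 = L ^ 6 := by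
      rw [show 12 = 2 * 6 by norm_num, pow_mul, sq_sqrt (by linarith)]
    have a3 : log L ≤ L := (log_le_sub_one_of_pos (by linarith)).trans (by linarith)
    rw [a2] at a1
    calc _ ≤ 48 * L ^ 5 * exp (-(√L / 16)) * L ^ 2 := by gcongr
      _ = 48 * (L ^ 6 * exp (-(√L / 16))) * L := by ring
      _ ≤ 48 * (ε / 96) * L := by gcongr
      _ = _ := by ring
  linarith

theorem klo (hB : MainBilStmt) (hS : SigmaStmt) (hE : ExcStmt) (hR : RamStmt) : KloStmt := by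
  intro ε hε
  obtain ⟨K₀, hK₀⟩ := hS
  obtain ⟨L₀, hL₀⟩ := params ε hε K₀
  obtain ⟨p₀, hp₀⟩ := exists_nat_ge (exp L₀)
  refine ⟨p₀, fun p _ hp a ha => ?_⟩
  have hp' : (0 : ℝ) < p := by exact_mod_cast (Fact.out : p.Prime).pos
  have h1 : L₀ ≤ log p := by
    rw [le_log_iff_exp_le hp']
    exact hp₀.trans (by exact_mod_cast hp)
  obtain ⟨R, r1, r2, r3, r4⟩ := hL₀ _ h1
  exact (mul_le_mul_of_nonneg_right (klo_bound hB hE hR p a ha R r1 r3
    (fun k k1 k2 => hK₀ p (2 * R) k r2 r3 k1 k2)) (sq_nonneg _)).trans r4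

end Pool.Agent.MP_a9857c_nt.H82.Klo
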