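import Pool.Agent.MP_a9857c_nt.H82.Defs

set_option autoImplicit false

open Finset Real

namespace Pool.Agent.MP_a9857c_nt.H82.MainBil

theorem tele (f : ℕ → ℝ) {a b : ℕ} (h : a ≤ b) :
    ∑ t ∈ Ico a b, (f t - f (t + 1)) = f a - f b := by
  induction b, h using Nat.le_induction with
  | base => simp
  | succ b h ih => rw [sum_Ico_succ_top h, ih]; ring

theorem step (t c : ℝ) (ht : 0 ≤ t) (hc : 0 ≤ c) :
    |t * (max (1 - t * c) 0 - max (1 - (t + 1) * c) 0)| ≤ 1 := by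
  have h0 := mul_nonneg ht hc
  rcases le_total (1 - t * c) 0 with h1 | h1
  · rw [max_eq_right h1, max_eq_right (by linarith)]; simp
  rw [max_eq_left h1]
  rcases le_total (1 - (t + 1) * c) 0 with h2 | h2
  · rw [max_eq_right h2, abs_of_nonneg (by nlinarith)]; nlinarith
  · rw [max_eq_left h2, abs_of_nonneg (by nlinarith)]; nlinarith

theorem mem_II {p K k x : ℕ} (hp : p.Prime) (hK : 2 ≤ K) (hL : (K : ℝ) ^ 8 ≤ log p) (hk : 1 ≤ k)
    (hkK : k ≤ K) (hx : x ∈ II p K k) : x ∈ Ico 1 p ∧ x.Prime ∧ k < x ∧ k * x ^ (2 * k - 1) < p ∧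
      1 / (x : ℝ) ≤ exp (-((log p + log p / (8 * K)) / (2 * k))) := by
  simp only [II, mem_filter, mem_range] at hx
  obtain ⟨h1, h2, h3, h4⟩ := hx
  have hK' : (2 : ℝ) ≤ K := by exact_mod_cast hK
  have hk' : (1 : ℝ) ≤ k := by exact_mod_cast hk
  have hkK' : (k : ℝ) ≤ K := by exact_mod_cast hkK
  have hp' : (0 : ℝ) < p := by exact_mod_cast hp.pos
  have hL0 : 0 ≤ log p := le_trans (by positivity) hL
  have h5 : exp ((log p + log p / (8 * K)) / (2 * k)) ≤ x := by
    refine le_of_pow_le_pow_left₀ (n := 2 * k) (by omega) (by positivity) ?_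
    rw [← exp_nat_mul, Nat.cast_mul, Nat.cast_ofNat, mul_div_cancel₀ _ (by positivity), exp_add,
      exp_log hp']
    exact h3
  refine ⟨mem_Ico.2 ⟨h2.pos, h1⟩, h2, ?_, h4, ?_⟩
  · have h6 : (k : ℝ) ≤ (log p + log p / (8 * K)) / (2 * k) := by
      rw [le_div_iff₀ (by positivity)]
      have : 0 ≤ log p / (8 * K) := by positivity
      have h7 : (2 : ℝ) ^ 6 ≤ (K : ℝ) ^ 6 := by gcongr
      have h8 : (k : ℝ) ^ 2 ≤ (K : ℝ) ^ 2 := by gcongr
      nlinarith [mul_le_mul_of_nonneg_left h7 (sq_nonneg (K : ℝ))]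
    have := add_one_le_exp ((log p + log p / (8 * K)) / (2 * k))
    exact_mod_cast (show (k : ℝ) < x by linarith)
  · rw [exp_neg, one_div]
    exact inv_anti₀ (exp_pos _) h5

theorem mainBil : BilStmt → MainBilStmt := by
  intro hB p hp b K k l m hb hK hL hk hkK hl hlK hm
  have hp' : (0 : ℝ) < p := by exact_mod_cast hp.out.pos
  have hK' : (2 : ℝ) ≤ K := by exact_mod_cast hK
  have hL0 : 0 ≤ log p := le_trans (by positivity) hL
  have hH : 1 ≤ HH p := by unfold HH; linarith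
  have hX := fun x => mem_II (x := x) hp.out hK hL hk hkK
  have hY := fun y => mem_II (x := y) hp.out hK hL hl hlK
  set g : ℕ → ℕ → ℝ := fun t y => max (1 - (t : ℝ) * ((y : ℝ) * m / p)) 0 with hg
  set α : ℕ → ℕ → ℂ := fun t x => if x ≤ t then ((1 / x : ℝ) : ℂ) else 0 with hα
  set β : ℕ → ℕ → ℂ := fun t y => (((t : ℝ) * (g t y - g (t + 1) y) / y : ℝ) : ℂ) with hβ
  have nα : ∀ t x, ‖α t x‖ ≤ 1 / x := fun t x => by
    simp only [hα]
    split_ifs
    · simp
    · simp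
  have nβ : ∀ t y, ‖β t y‖ ≤ 1 / y := fun t y => by
    simp only [hβ, hg, Complex.norm_real, Real.norm_eq_abs, abs_div, Nat.abs_cast, Nat.cast_succ]
    exact div_le_div_of_nonneg_right (step _ _ (by positivity) (by positivity)) (by positivity)
  have hsum : ∀ j, (∀ x ∈ II p K j, x ∈ Ico 1 p) → ∑ x ∈ II p K j, (1 : ℝ) / x ≤ HH p :=
    fun j h => (sum_le_sum_of_subset_of_nonneg h fun _ _ _ => by positivity).trans (sum_inv_le p)
  have key : ∀ t, ‖∑ x ∈ II p K k, ∑ y ∈ II p K l, α t x * β t y *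
      ee p (b * (x : ZMod p)⁻¹ * (y : ZMod p)⁻¹)‖ ≤
      HH p ^ 2 * K * exp (-(log p / (16 * (K : ℝ) ^ 3))) := by
    intro t
    have h := hB p b k l (II p K k) (II p K l) (α t) (β t) _ _ (HH p) (HH p) hb hk hl
      (exp_pos _).le (exp_pos _).le
      (fun x hx => ⟨(hX x hx).2.1, (hX x hx).2.2.1, (hX x hx).2.2.2.1,
        (nα t x).trans (hX x hx).2.2.2.2⟩)
      (fun y hy => ⟨(hY y hy).2.1, (hY y hy).2.2.1, (hY y hy).2.2.2.1,
        (nβ t y).trans (hY y hy).2.2.2.2⟩)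
      ((sum_le_sum fun x _ => nα t x).trans (hsum k fun x hx => (hX x hx).1))
      ((sum_le_sum fun y _ => nβ t y).trans (hsum l fun y hy => (hY y hy).1))
    have hkl : 1 ≤ k * l := Nat.mul_pos hk hl
    refine le_of_pow_le_pow_left₀ (n := 2 * k * l) (by nlinarith) (by positivity) (h.trans ?_)
    have hk' : (0 : ℝ) < k := by exact_mod_cast hk
    have hl' : (0 : ℝ) < l := by exact_mod_cast hl
    have hkK' : (k : ℝ) ≤ K := by exact_mod_cast hkK
    have hlK' : (l : ℝ) ≤ K := by exact_mod_cast hlK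
    have e : ∀ j : ℕ, (0 : ℝ) < j → exp (-((log p + log p / (8 * K)) / (2 * j))) ^ j =
        exp (-((log p + log p / (8 * K)) / 2)) := fun j hj => by
      rw [← exp_nat_mul]; congr 1; field_simp
    have e2 : p * exp (-((log p + log p / (8 * K)) / 2)) * exp (-((log p + log p / (8 * K)) / 2)) =
        exp (-(log p / (8 * K))) := by
      nth_rewrite 1 [← exp_log hp']
      rw [← exp_add, ← exp_add]; congr 1; ring
    have b1 : HH p ^ (2 * k * l - k) ≤ HH p ^ (2 * k * l) := pow_le_pow_right₀ hH (Nat.sub_le _ _)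
    have b2 : HH p ^ (2 * k * l - l) ≤ HH p ^ (2 * k * l) := pow_le_pow_right₀ hH (Nat.sub_le _ _)
    have b3 : (k : ℝ) ^ k * (l : ℝ) ^ l ≤ (K : ℝ) ^ (2 * k * l) := by
      calc (k : ℝ) ^ k * (l : ℝ) ^ l ≤ (K : ℝ) ^ k * (K : ℝ) ^ l := by gcongr
        _ = (K : ℝ) ^ (k + l) := (pow_add _ _ _).symm
        _ ≤ _ := pow_le_pow_right₀ (by linarith) (by nlinarith)
    have b4 : exp (-(log p / (8 * K))) ≤ exp (-(log p / (16 * (K : ℝ) ^ 3))) ^ (2 * k * l) := by
      rw [← exp_nat_mul, exp_le_exp, mul_neg, neg_le_neg_iff, ← mul_div_assoc,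
        div_le_div_iff₀ (by positivity) (by positivity)]
      push_cast
      have : (k : ℝ) * l ≤ K * K := by gcongr
      nlinarith [mul_le_mul_of_nonneg_left this (show 0 ≤ log p * K by positivity)]
    rw [mul_pow, mul_pow, e k hk', e l hl']
    calc _ = HH p ^ (2 * k * l - k) * HH p ^ (2 * k * l - l) * ((k : ℝ) ^ k * (l : ℝ) ^ l) *
          (p * exp (-((log p + log p / (8 * K)) / 2)) * exp (-((log p + log p / (8 * K)) / 2))) := by
          ring
      _ ≤ HH p ^ (2 * k * l) * HH p ^ (2 * k * l) * (K : ℝ) ^ (2 * k * l) *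
          exp (-(log p / (16 * (K : ℝ) ^ 3))) ^ (2 * k * l) := by
          rw [e2]; gcongr
      _ = _ := by rw [mul_pow, mul_pow, sq, mul_pow]
  have e : ∑ x ∈ II p K k, ∑ y ∈ II p K l,
      ((max (1 - (x * y * m : ℝ) / p) 0 / (x * y) : ℝ) : ℂ) *
        ee p (b * (x : ZMod p)⁻¹ * (y : ZMod p)⁻¹) = ∑ t ∈ Ico 1 p, ((1 / t : ℝ) : ℂ) *
      ∑ x ∈ II p K k, ∑ y ∈ II p K l, α t x * β t y *
        ee p (b * (x : ZMod p)⁻¹ * (y : ZMod p)⁻¹) := by
    simp only [mul_sum]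
    rw [sum_comm (s := Ico 1 p)]
    refine sum_congr rfl fun x hx => ?_
    rw [sum_comm (s := Ico 1 p)]
    refine sum_congr rfl fun y hy => ?_
    obtain ⟨x1, x2⟩ := mem_Ico.1 (hX x hx).1
    have y1 : (1 : ℝ) ≤ y := by exact_mod_cast (mem_Ico.1 (hY y hy).1).1
    have m1 : (1 : ℝ) ≤ m := by exact_mod_cast hm
    have h1 := tele (fun t => g t y) x2.le
    have h2 : g p y = 0 := by
      simp only [hg]
      rw [mul_div_cancel₀ _ hp'.ne']
      exact max_eq_right (by nlinarith)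
    have h3 : max (1 - (x * y * m : ℝ) / p) 0 = g x y := by
      simp only [hg, mul_assoc, mul_div_assoc]
    simp only [← mul_assoc, ← sum_mul]
    congr 1
    rw [h3, ← sub_zero (g x y), ← h2, ← h1, sum_div, Complex.ofReal_sum,
      ← sum_subset (Ico_subset_Ico x1 le_rfl)]
    · refine sum_congr rfl fun t ht => ?_
      have t1 : (t : ℂ) ≠ 0 := Nat.cast_ne_zero.2 (by have := (mem_Ico.1 ht).1; omega)
      simp only [hα, hβ, if_pos (mem_Ico.1 ht).1]
      push_cast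
      field_simp
    · intro t ht ht'
      have : ¬ x ≤ t := fun h => ht' (mem_Ico.2 ⟨h, (mem_Ico.1 ht).2⟩)
      simp [hα, this]
  rw [e]
  calc _ ≤ ∑ t ∈ Ico 1 p, (1 : ℝ) / t * (HH p ^ 2 * K * exp (-(log p / (16 * (K : ℝ) ^ 3)))) := by
        refine norm_sum_le_of_le _ fun t _ => ?_
        rw [norm_mul, Complex.norm_real, Real.norm_of_nonneg (by positivity)]
        exact mul_le_mul_of_nonneg_left (key t) (by positivity)
    _ ≤ HH p * (HH p ^ 2 * K * exp (-(log p / (16 * (K : ℝ) ^ 3)))) := by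
        rw [← sum_mul]
        exact mul_le_mul_of_nonneg_right (sum_inv_le p) (by positivity)
    _ = _ := by ring

end Pool.Agent.MP_a9857c_nt.H82.MainBil
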