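import Pool.Agent.MP_a9857c_nt.H82.Defs

set_option autoImplicit false

open Finset Real

namespace Pool.Agent.MP_a9857c_nt.H82.MainTerm

lemma sum_odd (f : ℕ → ℝ) (y : ℕ) :
    ∑ w ∈ (range y).filter Odd, f w = ∑ i ∈ range (y / 2), f (2 * i + 1) := by
  symm
  refine sum_bij (fun i _ => 2 * i + 1) (fun i hi => ?_) (fun i _ j _ h => by omega)
    (fun w hw => ?_) fun _ _ => rfl
  · simp only [mem_range, mem_filter] at hi ⊢
    exact ⟨by omega, odd_two_mul_add_one i⟩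
  · simp only [mem_range, mem_filter] at hw
    obtain ⟨h1, i, rfl⟩ := hw
    exact ⟨i, mem_range.2 (by omega), rfl⟩

lemma odd_harmonic (n : ℕ) :
    log (2 * n + 1) / 2 ≤ ∑ i ∈ range n, (1 : ℝ) / (2 * i + 1 : ℕ) ∧
      ∑ i ∈ range (n + 1), (1 : ℝ) / (2 * i + 1 : ℕ) ≤ 1 + log (2 * n + 1) / 2 := by
  induction n with
  | zero => simp
  | succ n ih =>
    have h1 : (0 : ℝ) < 2 * n + 1 := by positivity
    have h3 : (0 : ℝ) < 2 * (n + 1 : ℕ) + 1 := by positivity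
    have e1 := log_le_sub_one_of_pos (div_pos h3 h1)
    have e2 := log_le_sub_one_of_pos (div_pos h1 h3)
    rw [log_div h3.ne' h1.ne'] at e1
    rw [log_div h1.ne' h3.ne'] at e2
    have e3 : (2 * ((n + 1 : ℕ) : ℝ) + 1) / (2 * n + 1) - 1 = 2 * (1 / (2 * n + 1 : ℕ)) := by
      push_cast
      field_simp
      ring
    have e4 : (2 * n + 1) / (2 * ((n + 1 : ℕ) : ℝ) + 1) - 1 = -2 * (1 / (2 * (n + 1) + 1 : ℕ)) := by
      push_cast
      field_simp
      ring
    rw [sum_range_succ _ (n + 1)]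
    constructor
    · rw [sum_range_succ]
      linarith [ih.1]
    · linarith [ih.2]

lemma hasSum_odd : HasSum (fun i : ℕ => (1 : ℝ) / ((2 * i + 1 : ℕ) : ℝ) ^ 2) (π ^ 2 / 8) := by
  have h0 := hasSum_zeta_two
  have h1 : HasSum (fun i : ℕ => (1 : ℝ) / ((2 * i : ℕ) : ℝ) ^ 2) (1 / 4 * (π ^ 2 / 6)) := by
    have e : (fun i : ℕ => (1 : ℝ) / ((2 * i : ℕ) : ℝ) ^ 2) =
        fun i : ℕ => 1 / 4 * ((1 : ℝ) / (i : ℝ) ^ 2) := by
      funext i
      push_cast
      ring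
    rw [e]
    exact h0.mul_left _
  have h2 : Summable fun i : ℕ => (1 : ℝ) / ((2 * i + 1 : ℕ) : ℝ) ^ 2 :=
    h0.summable.comp_injective (i := fun i => 2 * i + 1) fun i j h => by
      simp only at h
      omega
  have h3 := (HasSum.even_add_odd (f := fun n : ℕ => (1 : ℝ) / (n : ℝ) ^ 2) h1 h2.hasSum).unique h0
  have h4 : ∑' i : ℕ, (1 : ℝ) / ((2 * i + 1 : ℕ) : ℝ) ^ 2 = π ^ 2 / 8 := by linarith
  exact h4 ▸ h2.hasSum

lemma odd_tail (m : ℕ) (hm : 1 ≤ m) :
    π ^ 2 / 8 ≤ ∑ i ∈ range m, (1 : ℝ) / ((2 * i + 1 : ℕ) : ℝ) ^ 2 + 1 / (4 * m) := by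
  have key : ∀ N, m ≤ N → ∑ i ∈ range N, (1 : ℝ) / ((2 * i + 1 : ℕ) : ℝ) ^ 2 ≤
      ∑ i ∈ range m, (1 : ℝ) / ((2 * i + 1 : ℕ) : ℝ) ^ 2 + 1 / (4 * m) - 1 / (4 * N) := by
    intro N hN
    induction N, hN using Nat.le_induction with
    | base => simp
    | succ N hN ih =>
      have h1 : (0 : ℝ) < N := by exact_mod_cast (by omega : 0 < N)
      have h2 : (1 : ℝ) / ((2 * N + 1 : ℕ) : ℝ) ^ 2 ≤ 1 / (4 * N) - 1 / (4 * (N + 1 : ℕ)) := by
        push_cast
        rw [div_sub_div _ _ (by positivity) (by positivity), div_le_div_iff₀ (by positivity)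
          (by positivity)]
        nlinarith
      rw [sum_range_succ]
      linarith
  refine le_of_tendsto hasSum_odd.tendsto_sum_nat (Filter.eventually_atTop.2 ⟨m, fun N hN => ?_⟩)
  have h1 : (0 : ℝ) ≤ 1 / (4 * N) := by positivity
  linarith [key N hN]

theorem mainTerm : MainTermStmt := by
  intro p y hp hy hyp
  obtain ⟨n, rfl⟩ := hp
  have hn : 1 ≤ n := by omega
  have hp0 : (0 : ℝ) < (2 * n + 1 : ℕ) := by positivity
  have hdiv : (2 * n + 1) / 2 = n := by omega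
  constructor
  · have h1 : ∑ w ∈ Od (2 * n + 1), kk (2 * n + 1) w ≤ ∑ w ∈ Od (2 * n + 1), (1 : ℝ) / w :=
      sum_le_sum fun w hw => kk_le (Od_pos hw) (mem_Od.1 hw).1
    have h2 : ∑ w ∈ Od (2 * n + 1), ((1 : ℝ) / w - 2 / (2 * n + 1 : ℕ)) ≤
        ∑ w ∈ Od (2 * n + 1), kk (2 * n + 1) w :=
      sum_le_sum fun w hw => le_kk (Od_pos hw) (mem_Od.1 hw).1
    rw [Od, sum_odd (fun w => (1 : ℝ) / w), hdiv] at h1
    rw [Od, sum_odd (fun w => (1 : ℝ) / w - 2 / (2 * n + 1 : ℕ)), hdiv, sum_sub_distrib,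
      sum_const, card_range, nsmul_eq_mul] at h2
    obtain ⟨h3, h4⟩ := odd_harmonic n
    rw [sum_range_succ] at h4
    have h5 : (0 : ℝ) ≤ 1 / (2 * n + 1 : ℕ) := by positivity
    have h6 : (n : ℝ) * (2 / (2 * n + 1 : ℕ)) ≤ 1 := by
      rw [← mul_div_assoc, div_le_one hp0]
      push_cast
      linarith
    have h7 : ((2 * n + 1 : ℕ) : ℝ) = 2 * n + 1 := by push_cast; ring
    rw [Od, h7, abs_le]
    constructor <;> linarith
  · set F := (Od (2 * n + 1)).filter (fun q => q ∈ Nat.smoothNumbers y) with hF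
    have hFO : F ⊆ Od (2 * n + 1) := filter_subset _ _
    have h1 : ∑ q ∈ F, kk (2 * n + 1) q / q ≤ π ^ 2 / 8 := by
      calc ∑ q ∈ F, kk (2 * n + 1) q / q ≤ ∑ q ∈ F, (1 : ℝ) / (q : ℝ) ^ 2 :=
            sum_le_sum fun q hq => by
              have := kk_le (Od_pos (hFO hq)) (mem_Od.1 (hFO hq)).1
              rw [sq, ← div_div]
              exact div_le_div_of_nonneg_right this (by positivity)
        _ ≤ ∑ q ∈ Od (2 * n + 1), (1 : ℝ) / (q : ℝ) ^ 2 :=
            sum_le_sum_of_subset_of_nonneg hFO fun _ _ _ => by positivity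
        _ ≤ π ^ 2 / 8 := by
            rw [Od, sum_odd (fun q => (1 : ℝ) / (q : ℝ) ^ 2)]
            exact sum_le_hasSum _ (fun _ _ => by positivity) hasSum_odd
    have h2 : ∑ q ∈ F, ((1 : ℝ) / (q : ℝ) ^ 2 - 2 / (2 * n + 1 : ℕ) * (1 / q)) ≤
        ∑ q ∈ F, kk (2 * n + 1) q / q := sum_le_sum fun q hq => by
      have h := le_kk (Od_pos (hFO hq)) (mem_Od.1 (hFO hq)).1
      have e : (1 : ℝ) / (q : ℝ) ^ 2 - 2 / (2 * n + 1 : ℕ) * (1 / q) =
          (1 / q - 2 / (2 * n + 1 : ℕ)) / q := by ring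
      rw [e]
      exact div_le_div_of_nonneg_right h (by positivity)
    rw [sum_sub_distrib, ← mul_sum] at h2
    have h3 : ∑ q ∈ F, (1 : ℝ) / q ≤ HH (2 * n + 1) :=
      (sum_le_sum_of_subset_of_nonneg (hFO.trans (Od_subset _)) fun _ _ _ => by positivity).trans
        (sum_inv_le _)
    have h4 : ∑ q ∈ (range y).filter Odd, (1 : ℝ) / (q : ℝ) ^ 2 ≤ ∑ q ∈ F, (1 : ℝ) / (q : ℝ) ^ 2 := by
      refine sum_le_sum_of_subset_of_nonneg (fun q hq => ?_) fun _ _ _ => by positivity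
      simp only [mem_filter, mem_range] at hq
      exact mem_filter.2 ⟨mem_Od.2 ⟨by omega, hq.2⟩, Nat.mem_smoothNumbers'.2 fun l _ hl =>
        (Nat.le_of_dvd hq.2.pos hl).trans_lt hq.1⟩
    rw [sum_odd (fun q => (1 : ℝ) / (q : ℝ) ^ 2)] at h4
    have h5 := odd_tail (y / 2) (by omega)
    have h6 : (1 : ℝ) / (4 * (y / 2 : ℕ)) ≤ 2 / y := by
      have e1 : (0 : ℝ) < (y / 2 : ℕ) := by exact_mod_cast (by omega : 0 < y / 2)
      have e2 : (0 : ℝ) < y := by exact_mod_cast (by omega : 0 < y)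
      have e3 : (y : ℝ) ≤ 8 * (y / 2 : ℕ) := by exact_mod_cast (by omega : y ≤ 8 * (y / 2))
      rw [div_le_div_iff₀ (by positivity) e2]
      linarith
    have h7 : 2 / ((2 * n + 1 : ℕ) : ℝ) * ∑ q ∈ F, (1 : ℝ) / q ≤
        2 * HH (2 * n + 1) / (2 * n + 1 : ℕ) := by
      rw [mul_div_right_comm]
      exact mul_le_mul_of_nonneg_left h3 (by positivity)
    have h8 : (0 : ℝ) ≤ 2 / ((2 * n + 1 : ℕ) : ℝ) * ∑ q ∈ F, (1 : ℝ) / q := by positivity
    have h9 : (0 : ℝ) ≤ 2 / y := by positivity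
    rw [abs_le]
    constructor <;> linarith

lemma block (J : ℕ) (hJ : 1 ≤ J) :
    ∑ l ∈ (Ico (2 ^ J) (2 ^ (J + 1))).filter Nat.Prime, (1 : ℝ) / l ≤ 4 * (1 / J) := by
  set B := (Ico (2 ^ J) (2 ^ (J + 1))).filter Nat.Prime with hB
  have h1 : (2 ^ J) ^ B.card ≤ ∏ l ∈ B, l :=
    pow_card_le_prod _ _ _ fun l hl => (mem_Ico.1 (mem_filter.1 hl).1).1
  have h2 : ∏ l ∈ B, l ≤ primorial (2 ^ (J + 1)) := by
    refine prod_le_prod_of_subset_of_one_le' (fun l hl => ?_) fun l hl _ =>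
      (mem_filter.1 hl).2.one_le
    obtain ⟨h3, h4⟩ := mem_filter.1 hl
    exact mem_filter.2 ⟨mem_range.2 (by have := (mem_Ico.1 h3).2; omega), h4⟩
  have h3 := (h1.trans h2).trans (primorial_le_four_pow _)
  rw [← pow_mul, show (4 : ℕ) = 2 ^ 2 by norm_num, ← pow_mul,
    Nat.pow_le_pow_iff_right (by norm_num)] at h3
  have h4 : (J : ℝ) * B.card ≤ 4 * 2 ^ J := by
    have : J * B.card ≤ 4 * 2 ^ J := by rw [pow_succ] at h3; omega
    exact_mod_cast this
  have h5 : ∑ l ∈ B, (1 : ℝ) / l ≤ B.card • ((1 : ℝ) / 2 ^ J) := by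
    refine sum_le_card_nsmul _ _ _ fun l hl => ?_
    have : (2 : ℝ) ^ J ≤ l := by exact_mod_cast (mem_Ico.1 (mem_filter.1 hl).1).1
    exact one_div_le_one_div_of_le (by positivity) this
  have hJ' : (0 : ℝ) < J := by exact_mod_cast hJ
  refine h5.trans ?_
  rw [nsmul_eq_mul, mul_one_div, mul_one_div, div_le_div_iff₀ (by positivity) hJ']
  linarith

lemma prime_recip (J : ℕ) (hJ : 1 ≤ J) :
    ∑ l ∈ (2 ^ J).primesBelow, (1 : ℝ) / (l : ℕ) ≤ 4 * ∑ j ∈ Ico 1 J, (1 : ℝ) / j := by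
  induction J, hJ using Nat.le_induction with
  | base => simp [Nat.primesBelow, filter_singleton, range_add_one, filter_insert, Nat.not_prime_one,
      Nat.not_prime_zero]
  | succ J hJ ih =>
    have e : (2 ^ (J + 1)).primesBelow =
        (2 ^ J).primesBelow ∪ (Ico (2 ^ J) (2 ^ (J + 1))).filter Nat.Prime := by
      ext l
      simp only [Nat.mem_primesBelow, mem_union, mem_filter, mem_Ico]
      have : 2 ^ J < 2 ^ (J + 1) := Nat.pow_lt_pow_right (by norm_num) (by omega)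
      constructor
      · rintro ⟨h1, h2⟩
        by_cases h : l < 2 ^ J
        · exact Or.inl ⟨h, h2⟩
        · exact Or.inr ⟨⟨by omega, h1⟩, h2⟩
      · rintro (⟨h1, h2⟩ | ⟨⟨-, h1⟩, h2⟩)
        · exact ⟨by omega, h2⟩
        · exact ⟨h1, h2⟩
    rw [e, sum_union, sum_Ico_succ_top hJ, mul_add]
    · exact add_le_add ih (block J hJ)
    · refine disjoint_left.2 fun l h1 h2 => ?_
      have := (Nat.mem_primesBelow.1 h1).1
      have := (mem_Ico.1 (mem_filter.1 h2).1).1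
      omega

theorem smooth : SmoothStmt := by
  refine ⟨5 * exp 12, 13, fun J N hJ => ?_⟩
  have hJ' : (1 : ℝ) ≤ J := by exact_mod_cast hJ
  set κ : ℝ := 1 / (4 * J) with hκ
  have hκ0 : 0 < κ := by positivity
  have hκ1 : κ < 1 := by
    rw [hκ, div_lt_one (by positivity)]
    linarith
  let f : ℕ →* ℝ :=
    { toFun := fun q => (q : ℝ) ^ (κ - 1)
      map_one' := by simp
      map_mul' := fun a b => by
        push_cast
        exact mul_rpow (by positivity) (by positivity) }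
  have hf : ∀ q, f q = (q : ℝ) ^ (κ - 1) := fun _ => rfl
  have hf0 : ∀ q, 0 ≤ f q := fun q => by rw [hf]; positivity
  have h1 := (EulerProduct.summable_and_hasSum_smoothNumbers_prod_primesBelow_geometric (f := f)
    (fun {l} hl => by
      rw [Real.norm_of_nonneg (hf0 l), hf]
      exact rpow_lt_one_of_one_lt_of_neg (by exact_mod_cast hl.one_lt) (by linarith)) (2 ^ J)).2
  have h2 : HasSum (Set.indicator (Nat.smoothNumbers (2 ^ J)) f)
      (∏ l ∈ (2 ^ J).primesBelow, (1 - f l)⁻¹) := hasSum_subtype_iff_indicator.1 h1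
  have h3 : ∑ q ∈ (range N).filter (fun q => q ∈ Nat.smoothNumbers (2 ^ J)), f q ≤
      ∏ l ∈ (2 ^ J).primesBelow, (1 - f l)⁻¹ := by
    refine le_trans (le_of_eq (sum_congr rfl fun q hq => ?_))
      (sum_le_hasSum _ (fun q _ => Set.indicator_nonneg (fun q _ => hf0 q) q) h2)
    rw [Set.indicator_of_mem (mem_filter.1 hq).2]
  have h4 : ∀ l ∈ (2 ^ J).primesBelow, 0 ≤ (1 - f l)⁻¹ ∧ (1 - f l)⁻¹ ≤ exp (3 * (1 / l)) := by
    intro l hl
    obtain ⟨e1, e2⟩ := Nat.mem_primesBelow.1 hl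
    have e3 : (2 : ℝ) ≤ l := by exact_mod_cast e2.two_le
    have e4 : (l : ℝ) ≤ 2 ^ J := by exact_mod_cast e1.le
    have e5 : (l : ℝ) ^ κ ≤ 6 / 5 := by
      refine le_of_pow_le_pow_left₀ (n := 4 * J) (by omega) (by norm_num) ?_
      rw [← rpow_natCast, ← rpow_mul (by positivity), hκ]
      push_cast
      rw [one_div_mul_cancel (by positivity), rpow_one, pow_mul]
      exact e4.trans (pow_le_pow_left₀ (by norm_num) (by norm_num) _)
    have e6 : f l ≤ 6 / 5 * (1 / l) := by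
      rw [hf, rpow_sub_one (by positivity), mul_one_div]
      exact div_le_div_of_nonneg_right e5 (by positivity)
    have e7 : (1 : ℝ) / l ≤ 1 / 2 := one_div_le_one_div_of_le (by norm_num) e3
    have e8 := hf0 l
    have e9 : 0 < 1 - f l := by linarith
    refine ⟨by positivity, le_trans ?_ (add_one_le_exp _)⟩
    rw [inv_eq_one_div, div_le_iff₀ e9]
    nlinarith
  have h5 : ∏ l ∈ (2 ^ J).primesBelow, (1 - f l)⁻¹ ≤ exp 12 * J ^ 12 := by
    refine (prod_le_prod (fun l hl => (h4 l hl).1) fun l hl => (h4 l hl).2).trans ?_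
    rw [← exp_sum, ← mul_sum]
    have e1 := prime_recip J hJ
    have e2 := sum_inv_le J
    have e3 : (J : ℝ) ^ 12 = exp (12 * log J) := by
      rw [show (12 : ℝ) * log J = (12 : ℕ) * log J by norm_num, exp_nat_mul, exp_log (by linarith)]
    rw [e3, ← exp_add]
    exact exp_le_exp.2 (by linarith)
  calc ∑ q ∈ (range N).filter (fun q => q ∈ Nat.smoothNumbers (2 ^ J)), (1 + log q) / q
      ≤ ∑ q ∈ (range N).filter (fun q => q ∈ Nat.smoothNumbers (2 ^ J)), 5 * J * f q := by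
        refine sum_le_sum fun q hq => ?_
        have e0 : q ≠ 0 := Nat.ne_zero_of_mem_smoothNumbers (mem_filter.1 hq).2
        have e1 : (1 : ℝ) ≤ q := by exact_mod_cast Nat.one_le_iff_ne_zero.2 e0
        have e2 := log_le_rpow_div (x := q) (by positivity) hκ0
        have e3 : 1 ≤ (q : ℝ) ^ κ := one_le_rpow e1 hκ0.le
        have e4 : (q : ℝ) ^ κ / κ = 4 * J * (q : ℝ) ^ κ := by
          rw [hκ]
          field_simp
        rw [hf, rpow_sub_one (by positivity), ← mul_div_assoc]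
        refine div_le_div_of_nonneg_right ?_ (by positivity)
        nlinarith
    _ ≤ 5 * J * (exp 12 * J ^ 12) := by
        rw [← mul_sum]
        exact mul_le_mul_of_nonneg_left (h3.trans h5) (by positivity)
    _ = 5 * exp 12 * J ^ 13 := by ring

end Pool.Agent.MP_a9857c_nt.H82.MainTerm
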