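import Pool.Agent.MP_a9857c_nt.H82.Defs

set_option autoImplicit false

open Finset Real

namespace Pool.Agent.MP_a9857c_nt.H82.Per

theorem Od_eq {p : ℕ} : Od p = (range (p / 2)).image (fun i => 2 * i + 1) := by
  ext w
  simp only [mem_Od, mem_image, mem_range]
  constructor
  · rintro ⟨h, i, rfl⟩
    exact ⟨i, by omega, rfl⟩
  · rintro ⟨i, hi, rfl⟩
    exact ⟨by omega, i, rfl⟩

theorem ff_eq (p : ℕ) [hp : Fact p.Prime] (h2 : 2 < p) {q w : ℕ} (hq : q ∈ Od p) (hw : w ∈ Od p) :
    ff p ((w : ZMod p) * (q : ZMod p)⁻¹) = -(-1) ^ (-(w : ZMod q) * (p : ZMod q)⁻¹).val := by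
  obtain ⟨hq1, hq2⟩ := mem_Od.1 hq
  obtain ⟨hw1, hw2⟩ := mem_Od.1 hw
  have hq0 : 0 < q := hq2.pos
  have : NeZero q := ⟨hq0.ne'⟩
  have hpo : Odd p := hp.out.odd_of_ne_two (by omega)
  set a := (-(w : ZMod q) * (p : ZMod q)⁻¹).val with ha
  have hcop : Nat.Coprime p q := (Nat.coprime_of_lt_prime hq0.ne' hq1 hp.out)
  have ha1 : a < q := ZMod.val_lt _
  have hdvd : q ∣ w + a * p := by
    rw [← ZMod.natCast_eq_zero_iff]
    push_cast
    rw [ha, ZMod.natCast_zmod_val, mul_assoc, mul_comm _ (p : ZMod q), ZMod.coe_mul_inv_eq_one p hcop]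
    ring
  obtain ⟨h, hh⟩ := hdvd
  have hlt : h < p := by
    have : q * h < q * p := by
      rw [← hh]
      have : (a + 1) * p ≤ q * p := Nat.mul_le_mul_right _ ha1
      nlinarith
    exact Nat.lt_of_mul_lt_mul_left this
  have hq3 : (q : ZMod p) ≠ 0 := by
    rw [Ne, ZMod.natCast_eq_zero_iff]
    exact Nat.not_dvd_of_pos_of_lt hq0 hq1
  have e : (w : ZMod p) * (q : ZMod p)⁻¹ = (h : ZMod p) := by
    have := congrArg (Nat.cast : ℕ → ZMod p) hh
    push_cast at this
    rw [ZMod.natCast_self, mul_zero, add_zero] at this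
    rw [this]
    field_simp
  have h0 : h ≠ 0 := by
    rintro rfl
    have := hw2.pos
    omega
  have e0 : (h : ZMod p) ≠ 0 := by
    rw [Ne, ZMod.natCast_eq_zero_iff]
    exact Nat.not_dvd_of_pos_of_lt (Nat.pos_of_ne_zero h0) hlt
  rw [e, ff, if_neg e0, ZMod.val_natCast_of_lt hlt]
  have k : ((-1 : ℝ) ^ q) ^ h = (-1) ^ w * ((-1) ^ p) ^ a := by
    rw [← pow_mul, ← pow_mul, ← pow_add, ← hh, mul_comm p a]
  rw [hq2.neg_one_pow, hw2.neg_one_pow, hpo.neg_one_pow] at k
  rw [k]; ring

theorem per : PerStmt := by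
  intro p hp h2 q hq
  obtain ⟨hq1, hq2⟩ := mem_Od.1 hq
  have hq0 : 0 < q := hq2.pos
  have hq0' : (0 : ℝ) < q := by exact_mod_cast hq0
  have hq1' : (1 : ℝ) ≤ q := by exact_mod_cast hq0
  have : NeZero q := ⟨hq0.ne'⟩
  have hcop : Nat.Coprime p q := (Nat.coprime_of_lt_prime hq0.ne' hq1 hp.out)
  set G : ZMod q → ℝ := fun t => -(-1) ^ t.val + 1 / q with hG
  set φ : ZMod q → ZMod q := fun s => -(2 * s + 1) * (p : ZMod q)⁻¹ with hφ
  set g : ℕ → ℝ := fun i => G (φ i) with hg
  have hrange : ∀ F : ZMod q → ℝ, ∑ i ∈ range q, F i = ∑ t, F t := by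
    intro F
    refine sum_bij' (fun i _ => (i : ZMod q)) (fun t _ => t.val) (by simp) ?_ ?_ (by simp) (by simp)
    · intro t _
      exact mem_range.2 (ZMod.val_lt t)
    · intro i hi
      exact ZMod.val_natCast_of_lt (mem_range.1 hi)
  have hG0 : ∑ t, G t = 0 := by
    rw [← hrange, sum_congr rfl (g := fun i => -(-1 : ℝ) ^ i + 1 / q) fun i hi => by
      simp only [hG, ZMod.val_natCast_of_lt (mem_range.1 hi)]]
    rw [sum_add_distrib, sum_neg_distrib, neg_one_geom_sum, if_neg (Nat.not_even_iff_odd.2 hq2)]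
    simp
  have hinj : Function.Injective φ := by
    intro s t hst
    have h1 := congrArg (fun u => (p : ZMod q) * u) hst
    simp only [hφ] at h1
    rw [mul_left_comm, mul_left_comm (p : ZMod q), ZMod.coe_mul_inv_eq_one p hcop] at h1
    have h3 : ((2 : ℕ) : ZMod q) * s = ((2 : ℕ) : ZMod q) * t := by
      push_cast
      linear_combination -h1
    have hu : IsUnit ((2 : ℕ) : ZMod q) :=
      (ZMod.isUnit_iff_coprime 2 q).2 (Nat.coprime_two_left.2 hq2)
    exact hu.mul_left_cancel h3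
  have hg0 : ∑ i ∈ range q, g i = 0 := by
    rw [hrange (fun s => G (φ s)), (Finite.injective_iff_bijective.1 hinj).sum_comp G, hG0]
  have hper : ∀ i, g (q + i) = g i := fun i => by simp [hg]
  have hb : ∀ i, |g i| ≤ 2 := by
    intro i
    have h1 : 1 / (q : ℝ) ≤ 1 := by rw [div_le_one hq0']; exact hq1'
    have h3 : 0 ≤ 1 / (q : ℝ) := by positivity
    simp only [hg, hG]
    rcases neg_one_pow_eq_or ℝ (φ i).val with h | h <;> rw [h, abs_le] <;> constructor <;> linarith
  have hP : ∀ n, |∑ i ∈ range n, g i| ≤ 2 * q := by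
    intro n
    induction n using Nat.strong_induction_on with
    | _ n ih =>
      by_cases h : n < q
      · refine (abs_sum_le_sum_abs _ _).trans ((sum_le_sum fun i _ => hb i).trans ?_)
        have : (n : ℝ) ≤ q := by exact_mod_cast h.le
        simp only [sum_const, card_range, nsmul_eq_mul]
        linarith
      · obtain ⟨m, rfl⟩ := Nat.exists_eq_add_of_le (not_lt.1 h)
        rw [sum_range_add, hg0, zero_add]
        simp only [hper]
        exact ih m (by omega)
  have e1 : FF p q + (∑ w ∈ Od p, kk p w) / q = ∑ i ∈ range (p / 2), kk p (2 * i + 1) * g i := by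
    rw [FF, sum_div, ← sum_add_distrib, sum_congr rfl (g := fun w => kk p w *
      (-(-1) ^ (-(w : ZMod q) * (p : ZMod q)⁻¹).val + 1 / q)) fun w hw => by
        rw [ff_eq p h2 hq hw]; ring]
    rw [Od_eq, sum_image fun i _ j _ h => by omega]
    refine sum_congr rfl fun i _ => ?_
    simp only [hg, hG, hφ]
    push_cast
    rfl
  have head : ∀ n ≤ q, n ≤ p / 2 → |∑ i ∈ range n, kk p (2 * i + 1) * g i| ≤ 2 + 2 * log q := by
    intro n hn hn'
    have h1 := harmonic_le_one_add_log q
    rw [harmonic] at h1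
    push_cast at h1
    calc |∑ i ∈ range n, kk p (2 * i + 1) * g i| ≤ ∑ i ∈ range n, |kk p (2 * i + 1) * g i| :=
          abs_sum_le_sum_abs _ _
      _ ≤ ∑ i ∈ range n, 2 * ((i : ℝ) + 1)⁻¹ := by
          refine sum_le_sum fun i hi => ?_
          have hi' := mem_range.1 hi
          have k1 := kk_nonneg (p := p) (q := 2 * i + 1) (by omega) (by omega)
          have k2 := kk_le (p := p) (q := 2 * i + 1) (by omega) (by omega)
          have k3 : 1 / ((2 * i + 1 : ℕ) : ℝ) ≤ ((i : ℝ) + 1)⁻¹ := by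
            rw [one_div]
            refine inv_anti₀ (by positivity) ?_
            push_cast
            have : (0 : ℝ) ≤ i := by positivity
            linarith
          rw [abs_mul, abs_of_nonneg k1, mul_comm]
          exact mul_le_mul (hb i) (k2.trans k3) k1 (by norm_num)
      _ ≤ ∑ i ∈ range q, 2 * ((i : ℝ) + 1)⁻¹ :=
          sum_le_sum_of_subset_of_nonneg (range_subset_range.2 hn) fun _ _ _ => by positivity
      _ ≤ 2 + 2 * log q := by rw [← mul_sum]; linarith
  rw [e1]
  by_cases h : p / 2 ≤ q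
  · linarith [head _ h le_rfl]
  obtain ⟨m, hm⟩ := Nat.exists_eq_add_of_le (not_le.1 h).le
  have hm0 : 0 < m := by omega
  have h1 := head q le_rfl (by omega)
  have h3 := abel_le (fun i => kk p (2 * (q + i) + 1)) (fun i => (g i : ℂ)) (2 * q) m
    (fun i hi => kk_nonneg (by omega) (by omega))
    (fun i hi => kk_anti (by omega) (by omega) (by omega))
    (fun j _ => by rw [← Complex.ofReal_sum, Complex.norm_real]; exact hP j)
    (kk_nonneg (by omega) (by omega))
  simp only [← Complex.ofReal_mul] at h3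
  rw [← Complex.ofReal_sum, Complex.norm_real, Real.norm_eq_abs] at h3
  have h4 := kk_le (p := p) (q := 2 * (q + 0) + 1) (by omega) (by omega)
  have h5 : kk p (2 * (q + 0) + 1) * (2 * q) ≤ 1 := by
    refine (mul_le_mul_of_nonneg_right h4 (by positivity)).trans ?_
    rw [one_div, inv_mul_le_iff₀ (by positivity)]
    push_cast
    linarith
  rw [hm, sum_range_add]
  simp only [hper]
  have := abs_add_le (∑ i ∈ range q, kk p (2 * i + 1) * g i)
    (∑ i ∈ range m, kk p (2 * (q + i) + 1) * g i)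
  linarith

end Pool.Agent.MP_a9857c_nt.H82.Per
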