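import Pool.Agent.MP_a9857c_nt.H82.Defs

set_option autoImplicit false

open Finset Real

namespace Pool.Agent.MP_a9857c_nt.H82.Ram

theorem sum_mul_eq (F : ℕ → ℂ) (N d : ℕ) (hd : 1 ≤ d) (hF : ∀ q, N ≤ q → F q = 0) :
    ∑ m ∈ Ico 1 N, F (d * m) = ∑ q ∈ Ico 1 N, if d ∣ q then F q else 0 := by
  rw [← sum_filter]
  refine sum_bij_ne_zero (fun m _ _ => d * m) (fun m hm h => ?_) (fun m _ _ m' _ _ h => ?_)
    (fun q hq h => ?_) fun _ _ _ => rfl
  · have h1 := (mem_Ico.1 hm).1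
    refine mem_filter.2 ⟨mem_Ico.2 ⟨Nat.mul_pos hd h1, ?_⟩, dvd_mul_right _ _⟩
    by_contra! h2
    exact h (hF _ h2)
  · exact Nat.eq_of_mul_eq_mul_left hd h
  · obtain ⟨hq1, m, rfl⟩ := mem_filter.1 hq
    obtain ⟨h1, h2⟩ := mem_Ico.1 hq1
    exact ⟨m, mem_Ico.2 ⟨Nat.pos_of_mul_pos_left h1, lt_of_le_of_lt (Nat.le_mul_of_pos_left _ hd) h2⟩,
      h, rfl⟩

theorem sum_dvd_le (N d : ℕ) (hd : 1 ≤ d) :
    ∑ m ∈ Ico 1 N, (if d ∣ m then (1 : ℝ) / m else 0) ≤ 1 / d * (1 + log N) := by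
  refine le_trans ?_ (mul_le_mul_of_nonneg_left (sum_inv_le N) (by positivity))
  rw [← sum_filter, mul_sum]
  have hs : (Ico 1 N).filter (fun m => d ∣ m) ⊆ (Ico 1 N).image fun k => d * k := by
    intro m hm
    obtain ⟨hm1, k, rfl⟩ := mem_filter.1 hm
    obtain ⟨h1, h2⟩ := mem_Ico.1 hm1
    exact mem_image.2 ⟨k, mem_Ico.2 ⟨Nat.pos_of_mul_pos_left h1,
      lt_of_le_of_lt (Nat.le_mul_of_pos_left _ hd) h2⟩, rfl⟩
  refine (sum_le_sum_of_subset_of_nonneg hs fun _ _ _ => by positivity).trans (le_of_eq ?_)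
  rw [sum_image fun _ _ _ _ h => Nat.eq_of_mul_eq_mul_left hd h]
  refine sum_congr rfl fun k _ => ?_
  push_cast
  rw [one_div_mul_one_div]

theorem om_mul {P : Finset ℕ} (hP : ∀ x ∈ P, x.Prime) {x y m : ℕ} (hx : x ∈ P) (hy : y.Prime)
    (hy' : y ∉ P) (hm : ¬ x ∣ m) : om P (x * y * m) = om P m + 1 := by
  unfold om
  rw [← card_insert_of_notMem (s := P.filter fun x => x ∣ m) (a := x) (by simp [hm])]
  congr 1
  ext z
  simp only [mem_filter, mem_insert]
  constructor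
  · rintro ⟨hz, h⟩
    rcases (hP z hz).dvd_mul.1 h with h | h
    · rcases (hP z hz).dvd_mul.1 h with h | h
      · exact Or.inl ((Nat.prime_dvd_prime_iff_eq (hP z hz) (hP x hx)).1 h)
      · exact absurd ((Nat.prime_dvd_prime_iff_eq (hP z hz) hy).1 h ▸ hz) hy'
    · exact Or.inr ⟨hz, h⟩
  · rintro (rfl | ⟨hz, h⟩)
    · exact ⟨hx, (dvd_mul_right _ _).mul_right _⟩
    · exact ⟨hz, h.mul_left _⟩

theorem inv_nat_mem (n : ℕ) : 0 ≤ 1 / (n : ℝ) ∧ 1 / (n : ℝ) ≤ 1 :=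
  ⟨by positivity, by rw [one_div]; exact Nat.cast_inv_le_one n⟩

theorem ram : RamStmt := by
  intro P Q a N hP hQ hPQ ha hN
  set F : ℕ → ℂ := fun q => a q / ((om P q : ℂ) * (om Q q : ℂ)) with hF
  have h1 : ∑ x ∈ P, ∑ y ∈ Q, ∑ m ∈ Ico 1 N, F (x * y * m) =
      ∑ q ∈ Ico 1 N, ((om P q : ℂ) * (om Q q : ℂ)) * F q := by
    have e : ∀ x ∈ P, ∀ y ∈ Q, ∑ m ∈ Ico 1 N, F (x * y * m) =
        ∑ q ∈ Ico 1 N, (if x ∣ q then 1 else 0) * (if y ∣ q then 1 else 0) * F q := by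
      intro x hx y hy
      rw [sum_mul_eq F N (x * y) (Nat.mul_pos (hP x hx).pos (hQ y hy).pos)
        fun q hq => by simp [hF, hN q hq]]
      refine sum_congr rfl fun q _ => ?_
      have hc : Nat.Coprime x y := (Nat.coprime_primes (hP x hx) (hQ y hy)).2
        fun h => disjoint_left.1 hPQ hx (h ▸ hy)
      by_cases h1 : x ∣ q
      · by_cases h2 : y ∣ q
        · simp [h1, h2, hc.mul_dvd_of_dvd_of_dvd h1 h2]
        · simp [h2, mt (dvd_of_mul_left_dvd (a := x)) h2]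
      · simp [h1, mt (dvd_of_mul_right_dvd (b := y)) h1]
    rw [sum_congr rfl fun x hx => sum_congr rfl (e x hx)]
    simp only [om, card_filter, Nat.cast_sum, Nat.cast_ite, Nat.cast_one, Nat.cast_zero, sum_mul_sum]
    simp only [sum_mul]
    exact (sum_congr rfl fun x _ => sum_comm).trans sum_comm
  have h2 : ‖∑ q ∈ Ico 1 N, a q - ∑ q ∈ Ico 1 N, ((om P q : ℂ) * (om Q q : ℂ)) * F q‖ ≤
      ∑ q ∈ (Ico 1 N).filter (fun q => om P q = 0), (1 : ℝ) / q +
      ∑ q ∈ (Ico 1 N).filter (fun q => om Q q = 0), (1 : ℝ) / q := by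
    rw [← sum_sub_distrib, sum_filter, sum_filter, ← sum_add_distrib]
    refine norm_sum_le_of_le _ fun q _ => ?_
    have h0 : (0 : ℝ) ≤ 1 / q := by positivity
    by_cases h1 : om P q = 0
    · rw [if_pos h1, h1, Nat.cast_zero, zero_mul, zero_mul, sub_zero]
      exact (ha q).trans (le_add_of_nonneg_right (by split_ifs <;> positivity))
    by_cases h2 : om Q q = 0
    · rw [if_neg h1, if_pos h2, h2, Nat.cast_zero, mul_zero, zero_mul, sub_zero, zero_add]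
      exact ha q
    rw [if_neg h1, if_neg h2, hF, mul_div_cancel₀ _
      (mul_ne_zero (Nat.cast_ne_zero.2 h1) (Nat.cast_ne_zero.2 h2))]
    simp
  have h3 : ‖∑ x ∈ P, ∑ y ∈ Q, ∑ m ∈ Ico 1 N, F (x * y * m) - ∑ x ∈ P, ∑ y ∈ Q, ∑ m ∈ Ico 1 N,
        a (x * y * m) / (((om P m : ℂ) + 1) * ((om Q m : ℂ) + 1))‖ ≤
      ((∑ x ∈ P, (1 : ℝ) / x ^ 2) * (∑ y ∈ Q, (1 : ℝ) / y) +
        (∑ x ∈ P, (1 : ℝ) / x) * (∑ y ∈ Q, (1 : ℝ) / y ^ 2)) * (1 + log N) := by
    simp only [← sum_sub_distrib, sum_mul_sum, ← sum_add_distrib]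
    simp only [sum_mul]
    refine norm_sum_le_of_le _ fun x hx => norm_sum_le_of_le _ fun y hy => ?_
    have hx0 := (hP x hx).pos
    have hy0 := (hQ y hy).pos
    have e : ((1 : ℝ) / x ^ 2 * (1 / y) + 1 / x * (1 / y ^ 2)) * (1 + log N) =
        1 / (x * y) * (1 / x * (1 + log N) + 1 / y * (1 + log N)) := by
      field_simp
    rw [e]
    refine le_trans ?_ (mul_le_mul_of_nonneg_left (add_le_add (sum_dvd_le N x hx0)
      (sum_dvd_le N y hy0)) (by positivity))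
    rw [← sum_add_distrib, mul_sum]
    refine norm_sum_le_of_le _ fun m _ => ?_
    by_cases hm : x ∣ m ∨ y ∣ m
    · have e2 : F (x * y * m) - a (x * y * m) / (((om P m : ℂ) + 1) * ((om Q m : ℂ) + 1)) =
          a (x * y * m) * ((1 / ((om P (x * y * m) * om Q (x * y * m) : ℕ) : ℝ) -
            1 / (((om P m + 1) * (om Q m + 1) : ℕ) : ℝ) : ℝ) : ℂ) := by
        simp only [hF]
        push_cast
        ring
      have b1 := inv_nat_mem (om P (x * y * m) * om Q (x * y * m))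
      have b2 := inv_nat_mem ((om P m + 1) * (om Q m + 1))
      rw [e2, norm_mul, Complex.norm_real, Real.norm_eq_abs]
      refine (mul_le_of_le_one_right (norm_nonneg _)
        (abs_le.2 ⟨by linarith [b1.1, b2.2], by linarith [b1.2, b2.1]⟩)).trans ((ha _).trans ?_)
      push_cast
      rw [← one_div_mul_one_div]
      refine mul_le_mul_of_nonneg_left ?_ (by positivity)
      have h0 : (0 : ℝ) ≤ 1 / m := by positivity
      rcases hm with hm | hm
      · rw [if_pos hm]; exact le_add_of_nonneg_right (by split_ifs <;> positivity)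
      · rw [if_pos hm]; exact le_add_of_nonneg_left (by split_ifs <;> positivity)
    · rw [not_or] at hm
      have e1 := om_mul hP hx (hQ y hy) (disjoint_right.1 hPQ hy) hm.1
      have e2 := om_mul hQ hy (hP x hx) (disjoint_left.1 hPQ hx) hm.2
      rw [mul_comm y x] at e2
      simp [hF, e1, e2, hm.1, hm.2]
  rw [← h1] at h2
  exact (norm_sub_le_norm_sub_add_norm_sub _ _ _).trans (add_le_add h2 h3)

end Pool.Agent.MP_a9857c_nt.H82.Ram
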