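import Mathlib
import Pool.Agent.MP_a9857c_nt.H82.Defs

set_option autoImplicit false

open Finset Real

namespace Pool.Agent.MP_a9857c_nt.H82.Sigma

open Pool.Agent.MP_a9857c_nt.H82

/-! The sieve-type inequality. -/

theorem om_eq_zero {P : Finset ℕ} {m : ℕ} : om P m = 0 ↔ ∀ x ∈ P, ¬ x ∣ m := by
  simp [om, Finset.filter_eq_empty_iff]

theorem step (A U : Finset ℕ) (B N : ℕ) (hB : 1 ≤ B) (hA : ∀ x ∈ A, x.Prime ∧ x ≤ B)
    (hU : ∀ y ∈ U, y.Prime) (hd : Disjoint A U) :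
    (1 + ∑ x ∈ A, (1 : ℝ) / x) *
        ∑ q ∈ (Ico 1 N).filter (fun q => om (A ∪ U) q = 0), (1 : ℝ) / q ≤
      ∑ q ∈ (Ico 1 (N * B)).filter (fun q => om U q = 0), (1 : ℝ) / q := by
  set F := (Ico 1 N).filter (fun q => om (A ∪ U) q = 0) with hF
  have h1A : 1 ∉ A := fun h => Nat.not_prime_one (hA 1 h).1
  have e1 : (1 + ∑ x ∈ A, (1 : ℝ) / x) = ∑ x ∈ insert 1 A, (1 : ℝ) / x := by
    rw [sum_insert h1A]; simp
  have hFm : ∀ q ∈ F, 1 ≤ q ∧ q < N ∧ (∀ x ∈ A, ¬ x ∣ q) ∧ ∀ y ∈ U, ¬ y ∣ q := by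
    intro q hq
    rw [hF, mem_filter, mem_Ico, om_eq_zero] at hq
    exact ⟨hq.1.1, hq.1.2, fun x hx => hq.2 x (mem_union_left _ hx),
      fun y hy => hq.2 y (mem_union_right _ hy)⟩
  have key : ∀ x x' q q' : ℕ, x ∈ A → x' ∈ insert 1 A → q' ∈ F → x * q = x' * q' → x = x' := by
    intro x x' q q' hx hx' hq' h
    have hp := (hA x hx).1
    have hdv : x ∣ x' * q' := ⟨q, h.symm⟩
    rcases (Nat.Prime.dvd_mul hp).mp hdv with h2 | h2
    · rcases mem_insert.mp hx' with rfl | h3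
      · exact absurd (Nat.dvd_one.mp h2) hp.ne_one
      · exact (Nat.prime_dvd_prime_iff_eq hp (hA x' h3).1).mp h2
    · exact absurd h2 ((hFm q' hq').2.2.1 x hx)
  have hinj : Set.InjOn (fun z : ℕ × ℕ => z.1 * z.2) ((insert 1 A ×ˢ F : Finset (ℕ × ℕ)) : Set (ℕ × ℕ)) := by
    rintro ⟨x, q⟩ hz ⟨x', q'⟩ hz' h
    simp only [coe_product, Set.mem_prod, mem_coe] at hz hz'
    simp only at h
    have hxx : x = x' := by
      rcases mem_insert.mp hz.1 with h1 | h1
      · rcases mem_insert.mp hz'.1 with h2 | h2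
        · rw [h1, h2]
        · exact (key x' x q' q h2 hz.1 hz.2 h.symm).symm
      · exact key x x' q q' h1 hz'.1 hz'.2 h
    subst hxx
    have hx0 : 0 < x := by
      rcases mem_insert.mp hz.1 with h1 | h1
      · omega
      · exact (hA x h1).1.pos
    have : q = q' := Nat.eq_of_mul_eq_mul_left hx0 h
    rw [this]
  rw [e1, sum_mul_sum, ← sum_product']
  have e2 : ∑ z ∈ insert 1 A ×ˢ F, (1 : ℝ) / (z.1 : ℝ) * (1 / (z.2 : ℝ)) =
      ∑ q ∈ (insert 1 A ×ˢ F).image (fun z : ℕ × ℕ => z.1 * z.2), (1 : ℝ) / q := by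
    rw [sum_image hinj]
    refine sum_congr rfl fun z _ => ?_
    push_cast
    rw [one_div_mul_one_div]
  rw [e2]
  refine sum_le_sum_of_subset_of_nonneg ?_ (fun _ _ _ => by positivity)
  intro r hr
  obtain ⟨⟨x, q⟩, hz, rfl⟩ := mem_image.mp hr
  rw [mem_product] at hz
  obtain ⟨q1, q2, -, q4⟩ := hFm q hz.2
  have hx : 1 ≤ x ∧ x ≤ B := by
    rcases mem_insert.mp hz.1 with h1 | h1
    · simp only at h1; omega
    · exact ⟨(hA x h1).1.pos, (hA x h1).2⟩
  rw [mem_filter, mem_Ico, om_eq_zero]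
  refine ⟨⟨Nat.mul_pos hx.1 q1, ?_⟩, ?_⟩
  · calc x * q ≤ B * q := Nat.mul_le_mul_right _ hx.2
      _ < B * N := Nat.mul_lt_mul_of_pos_left q2 hB
      _ = N * B := mul_comm _ _
  · intro y hy hdv
    rcases (Nat.Prime.dvd_mul (hU y hy)).mp hdv with h2 | h2
    · rcases mem_insert.mp hz.1 with h1 | h1
      · simp only at h1 h2
        rw [h1] at h2
        exact (hU y hy).ne_one (Nat.dvd_one.mp h2)
      · have : y = x := (Nat.prime_dvd_prime_iff_eq (hU y hy) (hA x h1).1).mp h2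
        exact Finset.disjoint_left.mp hd h1 (this ▸ hy)
    · exact q4 y hy h2

theorem exc : ExcStmt := by
  intro T I β
  induction T using Finset.induction_on with
  | empty =>
    intro N _ _ _ _
    have := sum_inv_le N
    simpa [om] using this
  | insert t T ht ih =>
    intro N hN hβ hI hd
    have hβt := hβ t (mem_insert_self _ _)
    set B := ⌊exp (β t)⌋₊ with hBdef
    have hB : 1 ≤ B := by
      rw [hBdef]
      exact Nat.le_floor (by simpa using one_le_exp hβt)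
    have hlogB : log B ≤ β t := by
      have h1 : (B : ℝ) ≤ exp (β t) := Nat.floor_le (exp_pos _).le
      have h2 : (0 : ℝ) < B := by exact_mod_cast hB
      exact (log_le_iff_le_exp h2).mpr h1
    have hA : ∀ x ∈ I t, x.Prime ∧ x ≤ B := by
      intro x hx
      obtain ⟨h1, h2⟩ := hI t (mem_insert_self _ _) x hx
      refine ⟨h1, Nat.le_floor ?_⟩
      have h3 : (0 : ℝ) < x := by exact_mod_cast h1.pos
      exact (log_le_iff_le_exp h3).mp h2
    have hU : ∀ y ∈ T.biUnion I, y.Prime := by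
      intro y hy
      obtain ⟨s, hs, hy⟩ := mem_biUnion.mp hy
      exact (hI s (mem_insert_of_mem hs) y hy).1
    have hdj : Disjoint (I t) (T.biUnion I) := by
      rw [Finset.disjoint_biUnion_right]
      intro s hs
      have hne : t ≠ s := fun h => ht (h ▸ hs)
      exact hd (by simp) (by simp [hs]) hne
    have h1 := step (I t) (T.biUnion I) B N hB hA hU hdj
    have h2 := ih (N * B) (Nat.mul_pos hN hB) (fun s hs => hβ s (mem_insert_of_mem hs))
      (fun s hs => hI s (mem_insert_of_mem hs)) (hd.subset (by simp))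
    rw [prod_insert ht, sum_insert ht, biUnion_insert]
    have hP : 0 ≤ ∏ s ∈ T, (1 + ∑ x ∈ I s, (1 : ℝ) / x) :=
      prod_nonneg fun s _ => by positivity
    have h3 := mul_le_mul_of_nonneg_left h1 hP
    have h4 : log ((N * B : ℕ) : ℝ) = log N + log B := by
      push_cast
      rw [log_mul (by positivity) (by positivity)]
    rw [h4] at h2
    calc _ = (∏ s ∈ T, (1 + ∑ x ∈ I s, (1 : ℝ) / x)) * ((1 + ∑ x ∈ I t, (1 : ℝ) / x) *
          ∑ q ∈ (Ico 1 N).filter (fun q => om (I t ∪ T.biUnion I) q = 0), (1 : ℝ) / q) := by ring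
      _ ≤ _ := by linarith

/-! Sums of reciprocals of primes over long ranges. -/

theorem theta_gap : ∃ n₀ : ℕ, ∀ n : ℕ, n₀ ≤ n →
    (n : ℝ) ≤ Chebyshev.theta ((4 * n : ℕ) : ℝ) - Chebyshev.theta n := by
  obtain ⟨C, hC⟩ := Chebyshev.psi_sub_theta_le_mul_sqrt
  refine ⟨⌈((6 + 2 * |C|) * 3) ^ 2⌉₊ + 1, fun n hn => ?_⟩
  have hn1 : (1 : ℝ) ≤ n := by
    have : 1 ≤ n := by omega
    exact_mod_cast this
  have hn2 : ((6 + 2 * |C|) * 3) ^ 2 ≤ (n : ℝ) := by
    have h1 : ⌈((6 + 2 * |C|) * 3) ^ 2⌉₊ ≤ n := by omega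
    exact (Nat.ceil_le).mp h1
  set s := √(n : ℝ) with hs
  have hs2 : s * s = n := mul_self_sqrt (by linarith)
  have hs0 : 0 ≤ s := sqrt_nonneg _
  have hs3 : (6 + 2 * |C|) * 3 ≤ s := by
    rw [hs]
    exact le_sqrt_of_sq_le hn2
  have h1 := Chebyshev.psi_ge (4 * n)
  have h2 := hC ((4 * n : ℕ) : ℝ)
  have h3 := Chebyshev.theta_le_log4_mul_x (x := n) (by linarith)
  have h4 : √((4 * n : ℕ) : ℝ) = 2 * s := by
    push_cast
    rw [show (4 : ℝ) * n = (2 * s) ^ 2 by nlinarith]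
    exact sqrt_sq (by positivity)
  have h5 : log (((4 * n : ℕ) : ℝ) + 1) ≤ 6 * s := by
    have hs1 : 0 < s := by nlinarith [abs_nonneg C]
    have a1 : ((4 * n : ℕ) : ℝ) + 1 ≤ (3 * s) ^ 2 := by push_cast; nlinarith
    have a2 : log (((4 * n : ℕ) : ℝ) + 1) ≤ log ((3 * s) ^ 2) := log_le_log (by positivity) a1
    have a3 : log ((3 * s) ^ 2) = 2 * log (3 * s) := by rw [log_pow]; norm_num
    have a4 := log_le_sub_one_of_pos (show 0 < 3 * s by positivity)
    linarith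
  have h6 : log 4 = 2 * log 2 := by
    rw [show (4 : ℝ) = 2 ^ 2 by norm_num, log_pow]; norm_num
  have h7 := log_two_gt_d9
  have h8 : C * (2 * s) ≤ 2 * |C| * s := by nlinarith [le_abs_self C]
  rw [h4] at h2
  rw [h6] at h3
  have h9 : ((4 * n : ℕ) : ℝ) = 4 * n := by push_cast; ring
  have h10 : (6 + 2 * |C|) * s * 3 ≤ n := by nlinarith
  have h11 : 0.6931471803 * (n : ℝ) ≤ log 2 * n := by nlinarith
  rw [h9] at h1 h2 h5 ⊢
  nlinarith

theorem block {n : ℕ} (hn : 1 ≤ n)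
    (h : (n : ℝ) ≤ Chebyshev.theta ((4 * n : ℕ) : ℝ) - Chebyshev.theta n) (b : ℝ)
    (hb : log ((4 * n : ℕ) : ℝ) ≤ b) :
    1 / (4 * b) ≤ ∑ x ∈ (Ioc n (4 * n)).filter Nat.Prime, (1 : ℝ) / x := by
  have hn1 : (1 : ℝ) ≤ n := by exact_mod_cast hn
  have e : Chebyshev.theta ((4 * n : ℕ) : ℝ) - Chebyshev.theta n =
      ∑ x ∈ (Ioc n (4 * n)).filter Nat.Prime, log x := by
    unfold Chebyshev.theta
    rw [Nat.floor_natCast, Nat.floor_natCast, sum_filter, sum_filter, sum_filter,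
      ← sum_Ioc_consecutive _ (Nat.zero_le n) (by omega : n ≤ 4 * n)]
    ring
  have hb0 : 0 < b := by
    have : 0 < log ((4 * n : ℕ) : ℝ) := log_pos (by push_cast; linarith)
    linarith
  rw [e] at h
  have h2 : ∑ x ∈ (Ioc n (4 * n)).filter Nat.Prime, log x ≤
      ∑ x ∈ (Ioc n (4 * n)).filter Nat.Prime, (4 * n * b) * ((1 : ℝ) / x) := by
    refine sum_le_sum fun x hx => ?_
    rw [mem_filter, mem_Ioc] at hx
    have x0 : (0 : ℝ) < x := by exact_mod_cast hx.2.pos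
    have x1 : (x : ℝ) ≤ ((4 * n : ℕ) : ℝ) := by exact_mod_cast hx.1.2
    have x2 : log x ≤ b := (log_le_log x0 x1).trans hb
    have x3 : 1 ≤ 4 * (n : ℝ) / x := by
      rw [one_le_div x0]; push_cast at x1; exact x1
    calc log x ≤ b * 1 := by linarith
      _ ≤ b * (4 * n / x) := by gcongr
      _ = _ := by ring
  rw [← mul_sum] at h2
  rw [div_le_iff₀ (by positivity)]
  have h3 : (n : ℝ) * 1 ≤ n * ((∑ x ∈ (Ioc n (4 * n)).filter Nat.Prime, (1 : ℝ) / x) * (4 * b)) := by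
    nlinarith
  exact le_of_mul_le_mul_left h3 (by linarith)

theorem chain {n₀ : ℕ} (h : ∀ n : ℕ, n₀ ≤ n →
    (n : ℝ) ≤ Chebyshev.theta ((4 * n : ℕ) : ℝ) - Chebyshev.theta n) {n : ℕ} (hn : 1 ≤ n)
    (hn0 : n₀ ≤ n) (b : ℝ) (m : ℕ) (hb : log ((4 ^ m * n : ℕ) : ℝ) ≤ b) :
    m / (4 * b) ≤ ∑ x ∈ (Ioc n (4 ^ m * n)).filter Nat.Prime, (1 : ℝ) / x := by
  induction m with
  | zero => simp
  | succ m ih =>
    have hp : 1 ≤ 4 ^ m := Nat.one_le_pow _ _ (by norm_num)
    have h1 : n ≤ 4 ^ m * n := Nat.le_mul_of_pos_left _ hp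
    have e : 4 ^ (m + 1) * n = 4 * (4 ^ m * n) := by ring
    rw [e] at hb ⊢
    have h2 : log ((4 ^ m * n : ℕ) : ℝ) ≤ b := by
      refine le_trans (log_le_log ?_ ?_) hb
      · exact_mod_cast (by omega : 0 < 4 ^ m * n)
      · exact_mod_cast (by omega : 4 ^ m * n ≤ 4 * (4 ^ m * n))
    have h3 := ih h2
    have h4 := block (n := 4 ^ m * n) (by omega) (h _ (by omega)) b hb
    rw [sum_filter] at h3 h4 ⊢
    rw [← sum_Ioc_consecutive _ h1 (by omega : 4 ^ m * n ≤ 4 * (4 ^ m * n))]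
    have e2 : ((m + 1 : ℕ) : ℝ) / (4 * b) = m / (4 * b) + 1 / (4 * b) := by
      push_cast; ring
    rw [e2]
    linarith

theorem range_bound : ∃ n₀ : ℕ, ∀ a b : ℝ, (n₀ : ℝ) ≤ a → 0 ≤ a → a + 3 ≤ b →
    ∃ s : Finset ℕ, (∀ x ∈ s, x.Prime ∧ exp a ≤ x ∧ (x : ℝ) ≤ exp b) ∧
      (b - a - 3) / (6 * b) ≤ ∑ x ∈ s, (1 : ℝ) / x := by
  obtain ⟨n₀, h⟩ := theta_gap
  refine ⟨n₀, fun a b h0 ha hab => ?_⟩
  set n := ⌈exp a⌉₊ with hn
  have e1 : exp a ≤ n := Nat.le_ceil _
  have e0 : 1 ≤ exp a := one_le_exp ha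
  have e2 : (n : ℝ) ≤ 2 * exp a := by
    have := Nat.ceil_lt_add_one (exp_pos a).le
    linarith
  have hn1 : 1 ≤ n := by
    have : (1 : ℝ) ≤ n := by linarith
    exact_mod_cast this
  have hn0 : n₀ ≤ n := by
    have := add_one_le_exp a
    have : (n₀ : ℝ) ≤ n := by linarith
    exact_mod_cast this
  have l2 := log_two_gt_d9
  have l3 := log_two_lt_d9
  set m := ⌊(b - a - log 2) / (2 * log 2)⌋₊ with hm
  have hq : 0 ≤ (b - a - log 2) / (2 * log 2) := div_nonneg (by linarith) (by linarith)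
  have m1 : (m : ℝ) * (2 * log 2) ≤ b - a - log 2 := by
    have := Nat.floor_le hq
    rwa [le_div_iff₀ (by linarith)] at this
  have m2 : b - a - log 2 < (m + 1) * (2 * log 2) := by
    have := Nat.lt_floor_add_one ((b - a - log 2) / (2 * log 2))
    rwa [div_lt_iff₀ (by linarith)] at this
  have hnpos : (0 : ℝ) < n := by linarith
  have hb : log ((4 ^ m * n : ℕ) : ℝ) ≤ b := by
    push_cast
    rw [log_mul (by positivity) hnpos.ne', log_pow,
      show (4 : ℝ) = 2 ^ 2 by norm_num, log_pow]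
    have a1 : log n ≤ log (2 * exp a) := log_le_log hnpos e2
    rw [log_mul (by norm_num) (exp_pos a).ne', log_exp] at a1
    push_cast
    linarith
  refine ⟨(Ioc n (4 ^ m * n)).filter Nat.Prime, fun x hx => ?_, ?_⟩
  · rw [mem_filter, mem_Ioc] at hx
    have x0 : (n : ℝ) ≤ x := by exact_mod_cast hx.1.1.le
    have x1 : (x : ℝ) ≤ ((4 ^ m * n : ℕ) : ℝ) := by exact_mod_cast hx.1.2
    refine ⟨hx.2, by linarith, ?_⟩
    have x2 : (0 : ℝ) < x := by linarith
    exact (log_le_iff_le_exp x2).mp ((log_le_log x2 x1).trans hb)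
  · refine le_trans ?_ (chain h hn1 hn0 b m hb)
    have hb0 : 0 < b := by linarith
    have m0 : (0 : ℝ) ≤ m := Nat.cast_nonneg _
    rw [div_le_div_iff₀ (by positivity) (by positivity)]
    have : (b - a - 3) * 4 ≤ m * 6 := by nlinarith
    nlinarith

theorem sigma : SigmaStmt := by
  obtain ⟨n₀, h⟩ := range_bound
  refine ⟨n₀ + 2, fun p K k hK hL hk hkK => ?_⟩
  set L := log (p : ℝ) with hLdef
  have K2 : (2 : ℝ) ≤ K := by exact_mod_cast (by omega : 2 ≤ K)
  have Kn : (n₀ : ℝ) ≤ K := by exact_mod_cast (by omega : n₀ ≤ K)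
  have k1 : (1 : ℝ) ≤ k := by exact_mod_cast hk
  have kK : (k : ℝ) ≤ K := by exact_mod_cast hkK
  have K6 : (64 : ℝ) ≤ (K : ℝ) ^ 6 := by
    calc (64 : ℝ) = 2 ^ 6 := by norm_num
      _ ≤ _ := by gcongr
  have hL1 : 64 * (K : ℝ) ^ 2 ≤ L := by
    calc 64 * (K : ℝ) ^ 2 ≤ (K : ℝ) ^ 6 * (K : ℝ) ^ 2 := by gcongr
      _ = (K : ℝ) ^ 8 := by ring
      _ ≤ L := hL
  have hL2 : 64 * (k : ℝ) ^ 2 ≤ L := le_trans (by gcongr) hL1
  have hL0 : 0 < L := by nlinarith
  have hp0 : (0 : ℝ) < p := by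
    rcases Nat.eq_zero_or_pos p with rfl | hp
    · simp at hLdef; linarith
    · exact_mod_cast hp
  have hpe : (p : ℝ) = exp L := (exp_log hp0).symm
  set a := (L + L / (8 * K)) / (2 * k) with ha
  set b := (L - log k - 1) / (2 * k - 1) with hb
  have hk0 : (0 : ℝ) < 2 * k - 1 := by linarith
  have lk : log k ≤ k - 1 := log_le_sub_one_of_pos (by linarith)
  have lk0 : 0 ≤ log (k : ℝ) := log_nonneg k1
  have a1 : (K : ℝ) ≤ a := by
    rw [ha, le_div_iff₀ (by linarith)]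
    have : 0 ≤ L / (8 * K) := by positivity
    nlinarith
  have a2 : a ≤ L / (2 * k) + L / (16 * k ^ 2) := by
    have : L / (8 * K) ≤ L / (8 * k) := by gcongr
    calc a ≤ (L + L / (8 * k)) / (2 * k) := by rw [ha]; gcongr
      _ = _ := by field_simp; ring
  have b1 : L / (2 * k) + L / (4 * k ^ 2) - 1 ≤ b := by
    have c1 : L / (2 * k) + L / (4 * k ^ 2) ≤ L / (2 * k - 1) := by
      have : L / (2 * k) + L / (4 * k ^ 2) = L * (2 * k + 1) / (4 * k ^ 2) := by
        field_simp; ring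
      rw [this, div_le_div_iff₀ (by positivity) hk0]
      nlinarith
    have c2 : (log k + 1) / (2 * k - 1) ≤ 1 := by
      rw [div_le_one hk0]; linarith
    have c3 : b = L / (2 * k - 1) - (log k + 1) / (2 * k - 1) := by rw [hb]; ring
    linarith
  have b2 : b ≤ L / k := by
    rw [hb, div_le_div_iff₀ hk0 (by linarith)]
    nlinarith
  set w := L / (16 * k ^ 2) with hw
  have w1 : 4 ≤ w := by rw [hw, le_div_iff₀ (by positivity)]; linarith
  have w2 : L / (4 * k ^ 2) = 4 * w := by rw [hw]; field_simp; ring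
  have gap : 3 * w - 1 ≤ b - a := by linarith
  obtain ⟨s, hs, hsum⟩ := h a b (by linarith) (by linarith) (by linarith)
  have hsub : s ⊆ II p K k := by
    intro x hx
    obtain ⟨x1, x2, x3⟩ := hs x hx
    have y2 : k * x ^ (2 * k - 1) < p := by
      have c1 : (x : ℝ) ^ (2 * k - 1) ≤ exp b ^ (2 * k - 1) := by gcongr
      have c2 : ((2 * k - 1 : ℕ) : ℝ) = 2 * k - 1 := by
        rw [Nat.cast_sub (by omega)]; push_cast; ring
      have c3 : exp b ^ (2 * k - 1) = exp (L - log k - 1) := by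
        rw [← exp_nat_mul, c2, hb]; congr 1; field_simp
      have c4 : (k : ℝ) * exp (L - log k - 1) = exp (L - 1) := by
        rw [show L - 1 = log k + (L - log k - 1) by ring, exp_add, exp_log (by linarith)]
      have c5 : exp (L - 1) < exp L := exp_lt_exp.mpr (by linarith)
      have c6 : (k : ℝ) * (x : ℝ) ^ (2 * k - 1) < p := by
        rw [hpe]
        calc (k : ℝ) * (x : ℝ) ^ (2 * k - 1) ≤ k * exp b ^ (2 * k - 1) := by gcongr
          _ = exp (L - 1) := by rw [c3, c4]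
          _ < _ := c5
      exact_mod_cast c6
    have y1 : x < p := by
      have c1 : x ≤ x ^ (2 * k - 1) := Nat.le_self_pow (by omega) _
      have c2 : x ^ (2 * k - 1) ≤ k * x ^ (2 * k - 1) := Nat.le_mul_of_pos_left _ hk
      omega
    unfold II
    rw [mem_filter, mem_range]
    refine ⟨y1, x1, ?_, y2⟩
    have c1 : exp a ^ (2 * k) ≤ (x : ℝ) ^ (2 * k) := by gcongr
    have c2 : exp a ^ (2 * k) = p * exp (L / (8 * K)) := by
      rw [← exp_nat_mul, hpe, ← exp_add, ha]; congr 1; push_cast; field_simp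
    rw [← c2]
    exact c1
  refine le_trans ?_ (hsum.trans (sum_le_sum_of_subset_of_nonneg hsub (fun _ _ _ => by positivity)))
  have hb0 : 0 < b := by linarith
  have b3 : b ≤ 16 * k * w := by
    have : L / k = 16 * k * w := by rw [hw]; field_simp
    linarith
  rw [div_le_div_iff₀ (by positivity) (by positivity)]
  have : 6 * (16 * k * w) ≤ (3 * w - 4) * (64 * k) := by nlinarith
  nlinarith

end Pool.Agent.MP_a9857c_nt.H82.Sigma
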