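import Pool.Agent.MP_a9857c_nt.H82.Defs

set_option autoImplicit false

open Finset Real

namespace Pool.Agent.MP_a9857c_nt.H82.Tail

open Pool.Agent.MP_a9857c_nt.H82

theorem ee_add (p : ℕ) [Fact p.Prime] (x y : ZMod p) : ee p (x + y) = ee p x * ee p y := by
  unfold ee
  exact AddChar.map_add_eq_mul _ _ _

theorem ee_nsmul (p : ℕ) [Fact p.Prime] (i : ℕ) (x : ZMod p) :
    ee p ((i : ZMod p) * x) = ee p x ^ i := by
  unfold ee
  rw [← nsmul_eq_mul]
  exact AddChar.map_nsmul_eq_pow _ _ _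

/-- Lower bound for the distance of the character value from one. -/
theorem dist_one (p : ℕ) [Fact p.Prime] (x : ZMod p) :
    4 * |((x.valMinAbs : ℤ) : ℝ)| / p ≤ ‖ee p x - 1‖ := by
  have hp : (0 : ℝ) < p := by exact_mod_cast (Fact.out : p.Prime).pos
  set u : ℤ := x.valMinAbs with hu
  have e1 : ee p x = Complex.exp (Complex.I * ((2 * π * u / p : ℝ) : ℂ)) := by
    have : x = ((u : ℤ) : ZMod p) := by rw [hu]; simp
    unfold ee
    rw [this, ZMod.stdAddChar_coe]
    congr 1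
    push_cast
    ring
  have hb : |(u : ℝ)| ≤ p / 2 := by
    have h1 : u.natAbs ≤ p / 2 := ZMod.natAbs_valMinAbs_le x
    have h2 : (2 * u.natAbs : ℕ) ≤ p := by omega
    have h3 : (2 * (u.natAbs : ℝ)) ≤ p := by exact_mod_cast h2
    have h4 : ((u.natAbs : ℕ) : ℝ) = |(u : ℝ)| := by
      rw [← Int.cast_natCast, Int.natCast_natAbs, Int.cast_abs]
    linarith
  rw [e1, Complex.norm_exp_I_mul_ofReal_sub_one, Real.norm_eq_abs, abs_mul]
  have e2 : |2 * π * u / p / 2| = π * |(u : ℝ)| / p := by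
    rw [show 2 * π * (u : ℝ) / p / 2 = π / p * u by ring, abs_mul,
      abs_of_pos (by positivity : 0 < π / p)]
    ring
  have h5 : |2 * π * u / p / 2| ≤ π / 2 := by
    rw [e2, div_le_div_iff₀ hp (by norm_num)]
    nlinarith [pi_pos]
  have h6 := mul_abs_le_abs_sin h5
  rw [e2] at h6
  have e3 : 2 / π * (π * |(u : ℝ)| / p) = 2 * |(u : ℝ)| / p := by
    field_simp
  rw [e3] at h6
  rw [abs_two]
  calc 4 * |(u : ℝ)| / p = 2 * (2 * |(u : ℝ)| / p) := by ring
    _ ≤ _ := by linarith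

theorem geom_le (z : ℂ) (c : ℝ) (hz : ‖z‖ = 1) (hc : 0 < c) (h : c ≤ ‖z - 1‖) (j : ℕ) :
    ‖∑ i ∈ range j, z ^ i‖ ≤ 2 / c := by
  have e := geom_sum_mul z j
  have h1 : ‖∑ i ∈ range j, z ^ i‖ * ‖z - 1‖ ≤ 2 := by
    rw [← norm_mul, e]
    calc ‖z ^ j - 1‖ ≤ ‖z ^ j‖ + ‖(1 : ℂ)‖ := norm_sub_le _ _
      _ = 2 := by rw [norm_pow, hz]; norm_num
  rw [le_div_iff₀ hc]
  nlinarith [norm_nonneg (∑ i ∈ range j, z ^ i)]

/-- The tail sum is small away from the exceptional residues. -/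
theorem inner_good (p : ℕ) [Fact p.Prime] (W : ℕ) (δ : ℝ) (g : ZMod p) (hW : 1 ≤ W) (hδ : 0 < δ)
    (hg : δ * p < |(((2 * g).valMinAbs : ℤ) : ℝ)|) :
    ‖∑ w ∈ (Od p).filter (fun w => W < w), (kk p w : ℂ) * ee p ((w : ZMod p) * g)‖ ≤
      1 / (W * δ) := by
  have hp : (0 : ℝ) < p := by exact_mod_cast (Fact.out : p.Prime).pos
  have hW0 : (0 : ℝ) < W := by exact_mod_cast hW
  obtain ⟨w0, hw0⟩ : ∃ w0, w0 = 2 * ((W + 1) / 2) + 1 := ⟨_, rfl⟩
  obtain ⟨n, hn⟩ : ∃ n, n = (p + 1 - w0) / 2 := ⟨_, rfl⟩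
  have hset : (Od p).filter (fun w => W < w) = (range n).image (fun i => w0 + 2 * i) := by
    ext w
    simp only [mem_filter, mem_Od, mem_image, mem_range, Nat.odd_iff]
    constructor
    · rintro ⟨⟨h1, h2⟩, h3⟩
      exact ⟨(w - w0) / 2, by omega, by omega⟩
    · rintro ⟨i, h1, h2⟩
      omega
  rw [hset, sum_image (fun a _ b _ h => by simpa using h)]
  rcases Nat.eq_zero_or_pos n with h0 | h0
  · rw [h0]
    simp only [range_zero, sum_empty, norm_zero]
    positivity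
  have hc : 4 * δ ≤ ‖ee p (2 * g) - 1‖ := by
    refine le_trans ?_ (dist_one p (2 * g))
    rw [le_div_iff₀ hp]
    linarith
  have hz : ∀ j, ‖∑ i ∈ range j, ee p (((w0 + 2 * i : ℕ) : ZMod p) * g)‖ ≤ 2 / (4 * δ) := by
    intro j
    have e : ∀ i : ℕ, ee p (((w0 + 2 * i : ℕ) : ZMod p) * g) =
        ee p ((w0 : ZMod p) * g) * ee p (2 * g) ^ i := by
      intro i
      rw [← ee_nsmul, ← ee_add]
      congr 1
      push_cast
      ring
    simp only [e]
    rw [← mul_sum, norm_mul, norm_ee, one_mul]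
    exact geom_le _ _ (norm_ee p _) (by positivity) hc j
  have key := abel_le (fun i => kk p (w0 + 2 * i))
    (fun i => ee p (((w0 + 2 * i : ℕ) : ZMod p) * g)) (2 / (4 * δ)) n
    (fun i hi => kk_nonneg (by omega) (by omega))
    (fun i hi => kk_anti (by omega) (by omega) (by omega)) (fun j _ => hz j)
    (kk_nonneg (by omega) (by omega))
  refine key.trans ?_
  have h1 : kk p (w0 + 2 * 0) ≤ 1 / (W : ℝ) := by
    refine (kk_le (by omega) (by omega)).trans ?_
    refine one_div_le_one_div_of_le hW0 ?_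
    exact_mod_cast (by omega : W ≤ w0 + 2 * 0)
  calc kk p (w0 + 2 * 0) * (2 / (4 * δ)) ≤ 1 / (W : ℝ) * (1 / δ) := by
        refine mul_le_mul h1 ?_ (by positivity) (by positivity)
        rw [div_le_div_iff₀ (by positivity) hδ]
        linarith
    _ = 1 / (W * δ) := by field_simp

/-- The trivial bound. -/
theorem inner_triv (p : ℕ) [Fact p.Prime] (W : ℕ) (g : ZMod p) :
    ‖∑ w ∈ (Od p).filter (fun w => W < w), (kk p w : ℂ) * ee p ((w : ZMod p) * g)‖ ≤ HH p := by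
  refine (norm_sum_le _ _).trans (le_trans ?_ (sum_kk_le p))
  refine le_trans (sum_le_sum fun w hw => ?_)
    (sum_le_sum_of_subset_of_nonneg (filter_subset (fun w => W < w) (Od p))
      (fun w hw _ => kk_nonneg (Od_pos hw) (mem_Od.mp hw).1))
  have hw' := (mem_filter.mp hw).1
  rw [norm_mul, norm_ee, mul_one, Complex.norm_real,
    Real.norm_of_nonneg (kk_nonneg (Od_pos hw') (mem_Od.mp hw').1)]

theorem cast_ne {p q : ℕ} (h : q ∈ Od p) : (q : ZMod p) ≠ 0 := by
  intro h0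
  have h1 := (ZMod.natCast_eq_zero_iff q p).mp h0
  have := Nat.le_of_dvd (Od_pos h) h1
  have := (mem_Od.mp h).1
  omega

open Classical in
theorem tail (hC : ConcStmt) : TailStmt := by
  intro p _ y W δ hp hy hW hδ hδ1
  have hp1 : (1 : ℝ) ≤ p := by exact_mod_cast (by omega : 1 ≤ p)
  have hW0 : (0 : ℝ) < W := by exact_mod_cast hW
  have hy0 : (0 : ℝ) < y := by exact_mod_cast hy
  have hH : 0 < HH p := by
    have := log_nonneg hp1
    unfold HH
    linarith
  have h2 : (2 : ZMod p) ≠ 0 := by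
    intro h0
    have h1 := (ZMod.natCast_eq_zero_iff 2 p).mp (by exact_mod_cast h0)
    have := Nat.le_of_dvd (by norm_num) h1
    omega
  obtain ⟨B, hB⟩ : ∃ B : ℕ → ℕ → Prop, ∀ q v, B q v ↔
      ∃ u : ℤ, |(u : ℝ)| ≤ δ * p ∧ (u : ZMod p) * (q : ZMod p) = (v : ZMod p) :=
    ⟨fun q v => ∃ u : ℤ, |(u : ℝ)| ≤ δ * p ∧ (u : ZMod p) * (q : ZMod p) = (v : ZMod p),
      fun _ _ => Iff.rfl⟩
  obtain ⟨Q, hQ⟩ : ∃ Q, Q = (Od p).filter (fun q => q ∉ Nat.smoothNumbers y) := ⟨_, rfl⟩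
  rw [← hQ]
  have hQs : Q ⊆ Od p := hQ ▸ filter_subset _ _
  have kn : ∀ q ∈ Od p, 0 ≤ kk p q := fun q hq => kk_nonneg (Od_pos hq) (mem_Od.mp hq).1
  have pt : ∀ q ∈ Q, ∀ v ∈ Od p,
      ‖∑ w ∈ (Od p).filter (fun w => W < w), (kk p w : ℂ) *
          ee p ((w : ZMod p) * ((v : ZMod p) * (q : ZMod p)⁻¹ * (2 : ZMod p)⁻¹))‖ ≤
        1 / (W * δ) + if B q v then HH p else 0 := by
    intro q hq v _
    have hq0 := cast_ne (hQs hq)
    split_ifs with hb
    · refine (inner_triv p W _).trans ?_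
      have : (0 : ℝ) ≤ 1 / (W * δ) := by positivity
      linarith
    · rw [add_zero]
      refine inner_good p W δ _ hW hδ ?_
      by_contra hcon
      refine hb ((hB q v).mpr ⟨_, not_lt.mp hcon, ?_⟩)
      rw [ZMod.coe_valMinAbs]
      field_simp
  have cc : ∀ v ∈ Od p, ∑ q ∈ Q, (if B q v then kk p q else 0) ≤
      9 * HH p ^ 2 * (1 / y + δ * HH p) := by
    intro v hv
    refine le_trans ?_ (hC p (v : ZMod p) y δ (cast_ne hv) hy hδ hδ1)
    rw [← sum_filter]
    refine le_trans (sum_le_sum fun q hq => ?_)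
      (sum_le_sum_of_subset_of_nonneg (s := Q.filter (fun q => B q v)) ?_
        (fun q _ _ => by positivity))
    · have := hQs (mem_filter.mp hq).1
      exact kk_le (Od_pos this) (mem_Od.mp this).1
    · intro q hq
      obtain ⟨a, b⟩ := mem_filter.mp hq
      refine mem_filter.mpr ⟨Od_subset p (hQs a), ?_, (hB q v).mp b⟩
      rw [hQ] at a
      exact (mem_filter.mp a).2
  have sQ : ∑ q ∈ Q, kk p q ≤ HH p :=
    (sum_le_sum_of_subset_of_nonneg hQs (fun q hq _ => kn q hq)).trans (sum_kk_le p)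
  have sO := sum_kk_le p
  have sO0 : 0 ≤ ∑ v ∈ Od p, kk p v := sum_nonneg kn
  have hM : 0 ≤ 9 * HH p ^ 2 * (1 / y + δ * HH p) := by positivity
  calc _ ≤ ∑ q ∈ Q, kk p q * ∑ v ∈ Od p, kk p v * (1 / (W * δ) + if B q v then HH p else 0) :=
        sum_le_sum fun q hq => mul_le_mul_of_nonneg_left
          (sum_le_sum fun v hv => mul_le_mul_of_nonneg_left (pt q hq v hv) (kn v hv))
          (kn q (hQs hq))
    _ = (∑ q ∈ Q, kk p q) * (∑ v ∈ Od p, kk p v) * (1 / (W * δ)) +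
          HH p * ∑ v ∈ Od p, kk p v * ∑ q ∈ Q, (if B q v then kk p q else 0) := by
        simp only [mul_add, sum_add_distrib]
        congr 1
        · rw [mul_assoc, sum_mul, sum_mul]
        · simp only [mul_sum]
          rw [sum_comm]
          refine sum_congr rfl fun v _ => sum_congr rfl fun q _ => ?_
          split_ifs <;> ring
    _ ≤ HH p * HH p * (1 / (W * δ)) +
          HH p * ∑ v ∈ Od p, kk p v * (9 * HH p ^ 2 * (1 / y + δ * HH p)) := by
        refine add_le_add ?_ ?_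
        · exact mul_le_mul_of_nonneg_right (mul_le_mul sQ sO sO0 hH.le) (by positivity)
        · exact mul_le_mul_of_nonneg_left
            (sum_le_sum fun v hv => mul_le_mul_of_nonneg_left (cc v hv) (kn v hv)) hH.le
    _ ≤ HH p * HH p * (1 / (W * δ)) + HH p * (HH p * (9 * HH p ^ 2 * (1 / y + δ * HH p))) := by
        rw [← sum_mul]
        exact add_le_add le_rfl
          (mul_le_mul_of_nonneg_left (mul_le_mul_of_nonneg_right sO hM) hH.le)
    _ = _ := by ring

end Pool.Agent.MP_a9857c_nt.H82.Tail
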